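import Pool.Agent.H89.LV.Three
import Pool.Graph.R_seed8.H217R3.AK.Bsg

/-!
# Small doubling and large energy
-/

set_option autoImplicit false
set_option linter.unusedSectionVars false
set_option linter.unusedVariables false

namespace Pool.Agent.H89.LV

open Finset Pool.Agent.K4H60.BZ Pool.Agent.H89.EN
open scoped Pointwise BigOperators ComplexConjugate

section group

variable {G : Type*} [AddCommGroup G] [Fintype G] [DecidableEq G]

theorem ms_dif (B : Finset G) (m : ℕ) : ms (dif B B) m ⊆ (2 * m) • B - (2 * m) • B := by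
  induction m with
  | zero =>
    intro x hx
    have hx' : x = 0 := mem_singleton.1 hx
    rw [mul_zero, zero_nsmul, hx', mem_sub]
    exact ⟨0, by simp, 0, by simp, sub_zero 0⟩
  | succ m ih =>
    intro x hx
    obtain ⟨y, hy, z, hz, rfl⟩ := mem_add.1 hx
    obtain ⟨a, ha, b, hb, rfl⟩ := mem_sub.1 (ih hy)
    obtain ⟨c, hc, d, hd, rfl⟩ := mem_sub.1 hz
    have e : 2 * (m + 1) = 2 * m + 2 := by ring
    rw [e, add_nsmul, two_nsmul]
    rw [← add_sub_add_comm]
    exact sub_mem_sub (add_mem_add ha hc) (add_mem_add hb hd)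

/-- Plünnecke's inequality -/
theorem plu (B : Finset G) (hB : B.Nonempty) (k : ℝ) (h : ((B - B).card : ℝ) ≤ Real.exp k * B.card) (m n : ℕ)
    (Z : Finset G) (hZ : Z ⊆ m • B - n • B) : (Z.card : ℝ) ≤ Real.exp (k * ((m : ℝ) + n)) * B.card := by
  have hBpos : (0 : ℝ) < B.card := by exact_mod_cast hB.card_pos
  have h1 := Finset.pluennecke_ruzsa_inequality_nsmul_sub_nsmul_sub hB B m n
  have h2 : ((m • B - n • B).card : ℝ) ≤ (((B - B).card : ℝ) / B.card) ^ (m + n) * B.card := by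
    have h2' := (NNRat.cast_le (K := ℝ)).2 h1
    push_cast at h2'
    exact h2'
  have h3 : (Z.card : ℝ) ≤ (m • B - n • B).card := by exact_mod_cast card_le_card hZ
  refine (h3.trans h2).trans ?_
  apply mul_le_mul_of_nonneg_right _ hBpos.le
  have h4 : ((B - B).card : ℝ) / B.card ≤ Real.exp k := by
    rw [div_le_iff₀ hBpos]
    exact h
  calc (((B - B).card : ℝ) / B.card) ^ (m + n) ≤ (Real.exp k) ^ (m + n) :=
        pow_le_pow_left₀ (by positivity) h4 _
    _ = Real.exp (k * ((m : ℝ) + n)) := by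
        rw [← Real.exp_nat_mul]
        congr 1
        push_cast
        ring

end group

/-- numbers -/
theorem dbl_num (k : ℝ) (hk : 0 ≤ k) :
    (3 * k + Real.log 4) * (2 * k + Real.log 4) * (1 + Real.log (2 * k + Real.log 4)) ^ 3 *
      Real.log (2 + (k * (16 * (1 + Real.log (2 * k + Real.log 4)) + 3)) + (2 * k + Real.log 4)) ≤
      2000 * ((1 + k) ^ 2 * Real.log (2 + k) ^ 4) := by
  obtain ⟨hl4a, hl4b, -⟩ := log_four_bounds
  obtain ⟨p, hp⟩ : ∃ p : ℝ, p = 2 * k + Real.log 4 := ⟨_, rfl⟩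
  rw [← hp]
  have hp1 : 1 ≤ p := by linarith
  have hlog2 : 0.69 ≤ Real.log (2 + k) := by
    have := Real.log_le_log (by norm_num) (show (2 : ℝ) ≤ 2 + k by linarith)
    linarith [Real.log_two_gt_d9]
  have hlogp0 : 0 ≤ Real.log p := Real.log_nonneg hp1
  have f1 : p ≤ 2 * (1 + k) := by linarith
  have f2 : 3 * k + Real.log 4 ≤ 3 * (1 + k) := by linarith
  have f3 : 1 + Real.log p ≤ 3.5 * Real.log (2 + k) := by
    have g1 : p ≤ (2 + k) ^ 2 := by nlinarith
    have g2 := Real.log_le_log (by linarith) g1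
    rw [Real.log_pow] at g2
    push_cast at g2
    linarith
  have f4 : Real.log (2 + (k * (16 * (1 + Real.log p) + 3)) + p) ≤ 6 * Real.log (2 + k) := by
    have g0 : Real.log p ≤ p - 1 := Real.log_le_sub_one_of_pos (by linarith)
    have g1 : k * (16 * (1 + Real.log p) + 3) ≤ k * (16 * p + 3) := by
      apply mul_le_mul_of_nonneg_left _ hk
      linarith
    have g2 : 2 + (k * (16 * (1 + Real.log p) + 3)) + p ≤ (2 + k) ^ 6 := by
      have e1 : k * (16 * p + 3) ≤ k * (16 * (2 * k + 1.4) + 3) := by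
        apply mul_le_mul_of_nonneg_left _ hk
        linarith
      have e2 : (2 + k) ^ 6 = 64 + 192 * k + 240 * k ^ 2 + 160 * k ^ 3 + 60 * k ^ 4 + 12 * k ^ 5 + k ^ 6 := by ring
      have e3 : 0 ≤ 160 * k ^ 3 + 60 * k ^ 4 + 12 * k ^ 5 + k ^ 6 := by positivity
      nlinarith
    have g3 : 0 < 2 + (k * (16 * (1 + Real.log p) + 3)) + p := by positivity
    have g4 := Real.log_le_log g3 g2
    rw [Real.log_pow] at g4
    exact_mod_cast g4
  have f4' : 0 ≤ Real.log (2 + (k * (16 * (1 + Real.log p) + 3)) + p) := by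
    apply Real.log_nonneg
    have : 0 ≤ k * (16 * (1 + Real.log p) + 3) := by positivity
    linarith
  calc (3 * k + Real.log 4) * p * (1 + Real.log p) ^ 3 *
        Real.log (2 + (k * (16 * (1 + Real.log p) + 3)) + p) ≤
      (3 * (1 + k)) * (2 * (1 + k)) * (3.5 * Real.log (2 + k)) ^ 3 * (6 * Real.log (2 + k)) := by
        apply mul_le_mul _ f4 f4' (by positivity)
        apply mul_le_mul _ (pow_le_pow_left₀ (by positivity) f3 3) (by positivity) (by positivity)
        exact mul_le_mul f2 f1 (by linarith) (by linarith)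
    _ = 1543.5 * ((1 + k) ^ 2 * Real.log (2 + k) ^ 4) := by ring
    _ ≤ _ := by
        apply mul_le_mul_of_nonneg_right (by norm_num)
        positivity

/-- **Small doubling.** -/
theorem doubling {N : ℕ} [NeZero N] (B : Finset (ZMod N)) (hB : B.Nonempty) (η : ℝ) (hη : 0 < η) (hη1 : η < 1 / 4)
    (k s : ℝ) (hk : 0 ≤ k) (hs : s = Real.log ((N : ℝ) / B.card)) (h : ((B - B).card : ℝ) ≤ Real.exp k * B.card) :
    ∃ Γ : Finset (ZMod N),
      (Γ.card : ℝ) ≤ 10 ^ 20 / η ^ 8 * (s + (1 + k) ^ 2 * Real.log (2 + k) ^ 4) ∧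
      (∀ x : ZMod N, (∀ γ ∈ Γ, nint (((γ * x).val : ℝ) / N) ≤ η / (10 ^ 5 * (1 + s + k))) →
        ∃ w₁ ∈ B + B, ∃ w₂ ∈ B + B, x = w₁ - w₂) ∧
      ∀ D : Finset (ZMod N), D.Nonempty →
        (∀ x ∈ D, ∀ γ ∈ Γ, nint (((γ * x).val : ℝ) / N) ≤ η / (10 ^ 5 * (1 + s + k))) →
        ∃ t : ZMod N, (1 - 5 * η) * (D.card : ℝ) ≤ ((D.filter fun x => t + x ∈ B + B).card : ℝ) := by
  classical
  obtain ⟨hl4a, hl4b, hexp4⟩ := log_four_bounds
  have hBpos : (0 : ℝ) < B.card := by exact_mod_cast hB.card_pos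
  have hNpos : (0 : ℝ) < N := by exact_mod_cast Nat.pos_of_ne_zero (NeZero.ne N)
  have hBB : (B - B).Nonempty := hB.sub hB
  have hBBpos : (0 : ℝ) < (B - B).card := by exact_mod_cast hBB.card_pos
  obtain ⟨s', hs'⟩ : ∃ s' : ℝ, s' = Real.log ((N : ℝ) / (B - B).card) := ⟨_, rfl⟩
  have hs'0 : 0 ≤ s' := by
    rw [hs']
    apply Real.log_nonneg
    rw [le_div_iff₀ hBBpos, one_mul]
    have := Finset.card_le_univ (B - B)
    rw [ZMod.card] at this
    exact_mod_cast this
  have hs's : s' ≤ s := by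
    rw [hs', hs]
    apply Real.log_le_log (by positivity)
    apply div_le_div_of_nonneg_left hNpos.le hBpos
    exact_mod_cast card_le_card_sub_left hB
  have hlogp : Real.log (2 * k + Real.log 4) ≤ (2 * k + Real.log 4) / 4 + Real.log 4 - 1 := by
    have h1 := Real.log_le_sub_one_of_pos (show 0 < (2 * k + Real.log 4) / 4 by linarith)
    rw [Real.log_div (by linarith) (by norm_num)] at h1
    linarith
  have hlogp0 : 0 ≤ Real.log (2 * k + Real.log 4) := Real.log_nonneg (by linarith)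
  obtain ⟨Γ, g1, g2, g3⟩ := gen_ZN B B (B - B) (B - B) hB hB (neg_sub B B) Subset.rfl hBB η hη hη1
    (2 * k + Real.log 4) (3 * k + Real.log 4) (k * (16 * (1 + Real.log (2 * k + Real.log 4)) + 3)) (by linarith)
    (by linarith) (by positivity)
    (by
      rw [← hs']
      have e1 : k * (16 * (1 + Real.log (2 * k + Real.log 4)) + 3) ≤
          k * (16 * ((2 * k + 1.4) / 4 + 1.4) + 3) := by
        apply mul_le_mul_of_nonneg_left _ hk
        linarith
      have e2 : (1 + 0 + (3 * k + 1.3)) ^ 2 ≤ (1 + s' + (3 * k + Real.log 4)) ^ 2 := by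
        apply pow_le_pow_left₀ (by linarith)
        have : 1.3 ≤ Real.log 4 := by
          have : Real.log 4 = 2 * Real.log 2 := by
            rw [show (4 : ℝ) = 2 ^ 2 by norm_num, Real.log_pow]
            norm_num
          linarith [Real.log_two_gt_d9]
        linarith
      nlinarith)
    (by
      have e := plu B hB k h 2 0 (B + B) (by
        intro x hx
        rw [zero_nsmul, two_nsmul, mem_sub]
        exact ⟨x, hx, 0, by simp, sub_zero x⟩)
      rw [Real.exp_add, hexp4]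
      have e2 : k * (((2 : ℕ) : ℝ) + ((0 : ℕ) : ℝ)) = 2 * k := by push_cast; ring
      rw [e2] at e
      linarith)
    (by
      have e := plu B hB k h 2 0 (B + B) (by
        intro x hx
        rw [zero_nsmul, two_nsmul, mem_sub]
        exact ⟨x, hx, 0, by simp, sub_zero x⟩)
      rw [Real.exp_add, hexp4]
      have e2 : Real.exp (k * (((2 : ℕ) : ℝ) + ((0 : ℕ) : ℝ))) ≤ Real.exp (3 * k) := by
        apply Real.exp_le_exp.2
        push_cast
        linarith
      have e3 := mul_le_mul_of_nonneg_right e2 hBpos.le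
      linarith)
    (by
      have e := plu B hB k h 2 1 (B + (B - B)) (by
        rw [two_nsmul, one_nsmul, add_sub_assoc])
      have e2 : Real.exp (k * (((2 : ℕ) : ℝ) + ((1 : ℕ) : ℝ))) ≤ Real.exp (3 * k + Real.log 4) := by
        apply Real.exp_le_exp.2
        push_cast
        linarith
      exact e.trans (mul_le_mul_of_nonneg_right e2 hBpos.le))
    (fun m hm => by
      have e := plu B hB k h (2 * m + 2) (2 * m + 1) (B + ms (dif B B) m + (B - B)) (by
        intro x hx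
        obtain ⟨y, hy, z, hz, rfl⟩ := mem_add.1 hx
        obtain ⟨b, hb, w, hw, rfl⟩ := mem_add.1 hy
        obtain ⟨u, hu, v, hv, rfl⟩ := mem_sub.1 (ms_dif B m hw)
        obtain ⟨c, hc, d, hd, rfl⟩ := mem_sub.1 hz
        rw [add_nsmul, add_nsmul, two_nsmul, one_nsmul]
        have e : b + (u - v) + (c - d) = (u + (b + c)) - (v + d) := by abel
        rw [e]
        exact sub_mem_sub (add_mem_add hu (add_mem_add hb hc)) (add_mem_add hv hd))
      refine e.trans (mul_le_mul_of_nonneg_right (Real.exp_le_exp.2 ?_) hBpos.le)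
      apply mul_le_mul_of_nonneg_left _ hk
      push_cast
      linarith)
    (fun m hm => by
      have e := plu B hB k h (2 * m + 2) (2 * m + 1) (B + ms (dif B B) m + (B - B)) (by
        intro x hx
        obtain ⟨y, hy, z, hz, rfl⟩ := mem_add.1 hx
        obtain ⟨b, hb, w, hw, rfl⟩ := mem_add.1 hy
        obtain ⟨u, hu, v, hv, rfl⟩ := mem_sub.1 (ms_dif B m hw)
        obtain ⟨c, hc, d, hd, rfl⟩ := mem_sub.1 hz
        rw [add_nsmul, add_nsmul, two_nsmul, one_nsmul]
        have e : b + (u - v) + (c - d) = (u + (b + c)) - (v + d) := by abel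
        rw [e]
        exact sub_mem_sub (add_mem_add hu (add_mem_add hb hc)) (add_mem_add hv hd))
      refine e.trans (mul_le_mul_of_nonneg_right (Real.exp_le_exp.2 ?_) hBpos.le)
      apply mul_le_mul_of_nonneg_left _ hk
      push_cast
      linarith)
  rw [← hs'] at g1 g2 g3
  have hs0 : 0 ≤ s := hs'0.trans hs's
  have hrad : η / (10 ^ 5 * (1 + s + k)) ≤ η / (10 ^ 4 * (1 + s' + (3 * k + Real.log 4))) := by
    apply div_le_div_of_nonneg_left hη.le
    · have : 0 < 1 + s' + (3 * k + Real.log 4) := by linarith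
      linarith
    · linarith
  refine ⟨Γ, g1.trans ?_, fun x hx => g2 x fun γ hγ => (hx γ hγ).trans hrad,
    fun D hD hDx => g3 D hD fun x hx γ hγ => (hDx x hx γ hγ).trans hrad⟩
  have h5 := dbl_num k hk
  obtain ⟨Z, hZ⟩ : ∃ Z : ℝ, Z = (1 + k) ^ 2 * Real.log (2 + k) ^ 4 := ⟨_, rfl⟩
  have hZ0 : 0 ≤ Z := by
    rw [hZ]
    positivity
  rw [← hZ] at h5 ⊢
  have h6 : 0 ≤ 1 / η ^ 8 := by positivity
  have h7 : 10 ^ 20 / η ^ 8 * (s + Z) = 1 / η ^ 8 * (10 ^ 20 * s + 10 ^ 20 * Z) := by ring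
  calc _ ≤ 10 ^ 16 / η ^ 8 * (s + 2000 * Z) := by gcongr
    _ = 1 / η ^ 8 * (10 ^ 16 * s + 2000 * 10 ^ 16 * Z) := by ring
    _ ≤ 1 / η ^ 8 * (10 ^ 20 * s + 10 ^ 20 * Z) := by
        apply mul_le_mul_of_nonneg_left _ h6
        linarith
    _ = _ := h7.symm

/-- **Large energy.** -/
theorem energy_bound {N : ℕ} [NeZero N] (A : Finset (ZMod N)) (hA : A.Nonempty) (hα : (A.card : ℝ) / (N : ℝ) ≤ 1 / 2)
    (K : ℝ) (hK : (A.card : ℝ) ^ 3 ≤ K * ((A.addEnergy A : ℕ) : ℝ)) (η : ℝ) (hη : 0 < η) (hη1 : η < 1 / 4)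
    (L : ℝ) (hL : L = Real.log ((N : ℝ) / A.card)) :
    ∃ Γ : Finset (ZMod N),
      (Γ.card : ℝ) ≤ 10 ^ 28 / η ^ 8 * (L + Real.log K ^ 2 * Real.log (2 + Real.log K) ^ 4) ∧
      (∀ x : ZMod N, (∀ γ ∈ Γ, nint (((γ * x).val : ℝ) / N) ≤ η / (10 ^ 7 * L)) →
        ∃ w₁ ∈ A + A, ∃ w₂ ∈ A + A, x = w₁ - w₂) ∧
      ∀ D : Finset (ZMod N), D.Nonempty →
        (∀ x ∈ D, ∀ γ ∈ Γ, nint (((γ * x).val : ℝ) / N) ≤ η / (10 ^ 7 * L)) →
        ∃ t : ZMod N, (1 - 5 * η) * (D.card : ℝ) ≤ ((D.filter fun x => t + x ∈ A + A).card : ℝ) := by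
  classical
  have hNpos : (0 : ℝ) < N := by exact_mod_cast Nat.pos_of_ne_zero (NeZero.ne N)
  have hApos : (0 : ℝ) < A.card := by exact_mod_cast hA.card_pos
  have hL1 : 0.69 ≤ L := by
    have h1 : (2 : ℝ) ≤ (N : ℝ) / A.card := by
      rw [div_le_iff₀ hNpos] at hα
      rw [le_div_iff₀ hApos]
      linarith
    have h2 := Real.log_le_log (by norm_num) h1
    rw [hL]
    linarith [Real.log_two_gt_d9]
  -- the optimal K
  obtain ⟨E, hE⟩ : ∃ E : ℝ, E = ((A.addEnergy A : ℕ) : ℝ) := ⟨_, rfl⟩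
  rw [← hE] at hK
  have hEpos : 0 < E := by
    rw [hE]
    exact_mod_cast addEnergy_self_pos hA
  obtain ⟨K0, hK0⟩ : ∃ K0 : ℝ, K0 = (A.card : ℝ) ^ 3 / E := ⟨_, rfl⟩
  have hK0K : K0 ≤ K := by
    rw [hK0, div_le_iff₀ hEpos]
    exact hK
  have hEle : E ≤ (A.card : ℝ) ^ 3 := by
    rw [hE]
    have : A.addEnergy A ≤ A.card ^ 3 := by
      rw [addEnergy_eq_card_filter]
      have h1 : ((((A ×ˢ A) ×ˢ A ×ˢ A).filter fun p : (ZMod N × ZMod N) × ZMod N × ZMod N =>
          p.1.1 + p.1.2 = p.2.1 + p.2.2)).card ≤ ((A ×ˢ A) ×ˢ A).card := by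
        apply card_le_card_of_injOn (fun p => (p.1, p.2.1))
        · intro p hp
          simp only [coe_filter, mem_product, Set.mem_ofPred_eq] at hp
          simp only [coe_product, Set.mem_prod, mem_coe]
          exact ⟨⟨hp.1.1.1, hp.1.1.2⟩, hp.1.2.1⟩
        · intro p hp p' hp' hpp
          simp only [coe_filter, mem_product, Set.mem_ofPred_eq] at hp hp'
          simp only [Prod.mk.injEq] at hpp
          have h2 := hp.2
          have h3 := hp'.2
          rw [hpp.1, hpp.2, h3] at h2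
          apply Prod.ext hpp.1
          exact Prod.ext hpp.2 (add_left_cancel h2).symm
      refine h1.trans (le_of_eq ?_)
      rw [card_product, card_product]
      ring
    exact_mod_cast this
  have hK01 : 1 ≤ K0 := by
    rw [hK0, one_le_div hEpos]
    exact hEle
  have hK0N : K0 ≤ (N : ℝ) / A.card := by
    have h1 : (A.card : ℝ) ^ 2 * (A.card : ℝ) ^ 2 ≤ N * E := by
      have h2 := Finset.le_card_add_mul_addEnergy A A
      have h3 : (A + A).card ≤ N := by
        have := card_le_univ (A + A)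
        rwa [ZMod.card] at this
      have h4 : A.card ^ 2 * A.card ^ 2 ≤ N * A.addEnergy A := h2.trans (Nat.mul_le_mul_right _ h3)
      rw [hE]
      exact_mod_cast h4
    rw [hK0, div_le_div_iff₀ hEpos hApos]
    calc (A.card : ℝ) ^ 3 * A.card = (A.card : ℝ) ^ 2 * (A.card : ℝ) ^ 2 := by ring
      _ ≤ N * E := h1
  obtain ⟨k, hk⟩ : ∃ k : ℝ, k = Real.log K0 := ⟨_, rfl⟩
  have hk0 : 0 ≤ k := by rw [hk]; exact Real.log_nonneg hK01
  have hkK : k ≤ Real.log K := by rw [hk]; exact Real.log_le_log (by linarith) hK0K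
  have hkL : k ≤ L := by rw [hk, hL]; exact Real.log_le_log (by linarith) hK0N
  -- Balog-Szemerédi-Gowers
  obtain ⟨B, hBA, hB, hB1, hB2⟩ := Pool.Agent.H217R3.AK.bsg A hA K0 (by linarith) (by
    rw [← hE, hK0]
    field_simp
    exact le_rfl)
  have hBpos : (0 : ℝ) < B.card := by exact_mod_cast hB.card_pos
  obtain ⟨l, hl⟩ : ∃ l : ℝ, l = 16 + 10 * k := ⟨_, rfl⟩
  have hl0 : 0 ≤ l := by rw [hl]; positivity
  have hdiff : ((B - B).card : ℝ) ≤ Real.exp l * B.card := by
    refine hB2.trans ?_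
    have h1 : (2 : ℝ) ^ 22 * K0 ^ 10 ≤ Real.exp l := by
      have h2 : K0 ^ 10 = Real.exp (10 * k) := by
        rw [hk, mul_comm, Real.exp_mul, Real.exp_log (by linarith)]
        exact_mod_cast rfl
      have h3 : (2 : ℝ) ^ 22 ≤ Real.exp 16 := by
        have : (2 : ℝ) ^ 22 = Real.exp (22 * Real.log 2) := by
          rw [mul_comm, Real.exp_mul, Real.exp_log (by norm_num)]
          norm_num
        rw [this]
        apply Real.exp_le_exp.2
        linarith [Real.log_two_lt_d9]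
      rw [h2, hl, Real.exp_add]
      gcongr
    gcongr
  obtain ⟨s, hs⟩ : ∃ s : ℝ, s = Real.log ((N : ℝ) / B.card) := ⟨_, rfl⟩
  obtain ⟨Γ, g1, g2, g3⟩ := doubling B hB η hη hη1 l s hl0 hs hdiff
  have hlogB : s ≤ L + k + 3 := by
    have h1 : (N : ℝ) / B.card ≤ ((N : ℝ) / A.card) * (8 * K0) := by
      rw [div_mul_eq_mul_div, div_le_div_iff₀ hBpos hApos]
      calc (N : ℝ) * A.card ≤ N * (8 * K0 * B.card) := by gcongr
        _ = _ := by ring
    have h2 := Real.log_le_log (by positivity) h1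
    rw [Real.log_mul (by positivity) (by positivity), Real.log_mul (by norm_num) (by positivity), ← hL, ← hk, ← hs] at h2
    have h3 : Real.log 8 ≤ 3 := by
      have : (8 : ℝ) = 2 ^ (3 : ℕ) := by norm_num
      rw [this, Real.log_pow]
      push_cast
      linarith [Real.log_two_lt_d9]
    linarith
  have hs0 : 0 ≤ s := by
    rw [hs]
    apply Real.log_nonneg
    rw [le_div_iff₀ hBpos, one_mul]
    have := Finset.card_le_univ B
    rw [ZMod.card] at this
    exact_mod_cast this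
  have hAB : B + B ⊆ A + A := add_subset_add hBA hBA
  have hrad : η / (10 ^ 7 * L) ≤ η / (10 ^ 5 * (1 + s + l)) := by
    apply div_le_div_of_nonneg_left hη.le
    · have : 0 < 1 + s + l := by linarith
      linarith
    · linarith
  refine ⟨Γ, g1.trans ?_, fun x hx => ?_, fun D hD hDx => ?_⟩
  · have hlog2 : 0.69 ≤ Real.log (2 + k) := by
      have := Real.log_le_log (by norm_num) (show (2 : ℝ) ≤ 2 + k by linarith)
      linarith [Real.log_two_gt_d9]
    have f1 : (1 + l) ^ 2 ≤ 289 * (1 + k) ^ 2 := by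
      have e1 : 1 + l ≤ 17 * (1 + k) := by linarith
      calc (1 + l) ^ 2 ≤ (17 * (1 + k)) ^ 2 := pow_le_pow_left₀ (by linarith) e1 2
        _ = _ := by ring
    have f2 : Real.log (2 + l) ^ 4 ≤ 625 * Real.log (2 + k) ^ 4 := by
      have e1 : Real.log (2 + l) ≤ 5 * Real.log (2 + k) := by
        have e2 : 2 + l ≤ (2 + k) ^ 5 := by
          have e3 : (2 + k) ^ 5 = 32 + 80 * k + 80 * k ^ 2 + 40 * k ^ 3 + 10 * k ^ 4 + k ^ 5 := by ring
          have e4 : 0 ≤ 80 * k ^ 2 + 40 * k ^ 3 + 10 * k ^ 4 + k ^ 5 := by positivity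
          linarith
        have e3 := Real.log_le_log (by linarith) e2
        rw [Real.log_pow] at e3
        exact_mod_cast e3
      have e0 : 0 ≤ Real.log (2 + l) := Real.log_nonneg (by linarith)
      calc Real.log (2 + l) ^ 4 ≤ (5 * Real.log (2 + k)) ^ 4 := pow_le_pow_left₀ e0 e1 4
        _ = _ := by ring
    have f3 : (1 + k) ^ 2 * Real.log (2 + k) ^ 4 ≤ 10 + 4 * (k ^ 2 * Real.log (2 + k) ^ 4) := by
      rcases le_total k 1 with h1 | h1
      · have e1 : Real.log (2 + k) ≤ 1.2 := by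
          have e2 : Real.log (2 + k) ≤ Real.log 3 := Real.log_le_log (by linarith) (by linarith)
          have e3 : Real.log 3 ≤ 1.2 := by
            rw [Real.log_le_iff_le_exp (by norm_num)]
            have e4 := Real.quadratic_le_exp_of_nonneg (show (0 : ℝ) ≤ 1.2 by norm_num)
            have e5 : (2.7 : ℝ) ≤ Real.exp 1 := by linarith [Real.exp_one_gt_d9]
            have e6 : Real.exp 1.2 = Real.exp 1 * Real.exp 0.2 := by
              rw [← Real.exp_add]
              norm_num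
            have e7 : (1.2 : ℝ) ≤ Real.exp 0.2 := by
              have := Real.add_one_le_exp (0.2 : ℝ)
              linarith
            rw [e6]
            nlinarith
          linarith
        have e2 : Real.log (2 + k) ^ 4 ≤ 1.2 ^ 4 := pow_le_pow_left₀ (by linarith) e1 4
        have e3 : (1 + k) ^ 2 ≤ 4 := by nlinarith
        have e4 : 0 ≤ k ^ 2 * Real.log (2 + k) ^ 4 := by positivity
        have e5 : (1 + k) ^ 2 * Real.log (2 + k) ^ 4 ≤ 4 * 1.2 ^ 4 :=
          mul_le_mul e3 e2 (by positivity) (by norm_num)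
        norm_num at e5
        linarith
      · have e1 : (1 + k) ^ 2 ≤ 4 * k ^ 2 := by nlinarith
        have e2 : 0 ≤ Real.log (2 + k) ^ 4 := by positivity
        nlinarith
    have f4 : k ^ 2 * Real.log (2 + k) ^ 4 ≤ Real.log K ^ 2 * Real.log (2 + Real.log K) ^ 4 := by
      have e1 : k ^ 2 ≤ Real.log K ^ 2 := pow_le_pow_left₀ hk0 hkK 2
      have e2 : Real.log (2 + k) ≤ Real.log (2 + Real.log K) := Real.log_le_log (by linarith) (by linarith)
      have e3 : Real.log (2 + k) ^ 4 ≤ Real.log (2 + Real.log K) ^ 4 := pow_le_pow_left₀ (by linarith) e2 4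
      exact mul_le_mul e1 e3 (by positivity) (by positivity)
    obtain ⟨Z, hZ⟩ : ∃ Z : ℝ, Z = Real.log K ^ 2 * Real.log (2 + Real.log K) ^ 4 := ⟨_, rfl⟩
    rw [← hZ] at f4 ⊢
    have hZ0 : 0 ≤ Z := by
      refine le_trans ?_ f4
      positivity
    have f5 : (1 + l) ^ 2 * Real.log (2 + l) ^ 4 ≤ 180625 * ((1 + k) ^ 2 * Real.log (2 + k) ^ 4) := by
      calc (1 + l) ^ 2 * Real.log (2 + l) ^ 4 ≤ (289 * (1 + k) ^ 2) * (625 * Real.log (2 + k) ^ 4) :=
            mul_le_mul f1 f2 (by positivity) (by positivity)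
        _ = _ := by ring
    have f6 : s + (1 + l) ^ 2 * Real.log (2 + l) ^ 4 ≤ 10 ^ 8 * (L + Z) := by linarith
    calc 10 ^ 20 / η ^ 8 * (s + (1 + l) ^ 2 * Real.log (2 + l) ^ 4) ≤ 10 ^ 20 / η ^ 8 * (10 ^ 8 * (L + Z)) := by
          gcongr
      _ = _ := by ring
  · obtain ⟨w₁, hw₁, w₂, hw₂, hx'⟩ := g2 x fun γ hγ => (hx γ hγ).trans hrad
    exact ⟨w₁, hAB hw₁, w₂, hAB hw₂, hx'⟩
  · obtain ⟨t, ht⟩ := g3 D hD fun x hx γ hγ => (hDx x hx γ hγ).trans hrad
    refine ⟨t, ht.trans ?_⟩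
    have : (D.filter fun x => t + x ∈ B + B) ⊆ (D.filter fun x => t + x ∈ A + A) := by
      intro x hx
      rw [mem_filter] at hx ⊢
      exact ⟨hx.1, hAB hx.2⟩
    exact_mod_cast card_le_card this

end Pool.Agent.H89.LV
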