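import Pool.Agent.H89.LV.Main
import Pool.Graph.R_pool_sql_team_seeded_c8625f6e.K4H60.BZ.ZN

/-!
# The Bohr set
-/

set_option autoImplicit false
set_option linter.unusedSectionVars false
set_option linter.unusedVariables false

namespace Pool.Agent.H89.LV

open Finset Pool.Agent.K4H60.BZ Pool.Agent.H89.EN
open scoped Pointwise BigOperators ComplexConjugate

/-- **The main theorem** for `ℤ/N`, with a large radius. -/
theorem main_ZN {N : ℕ} [NeZero N] (L Y S₀ : Finset (ZMod N)) (hL : L.Nonempty) (hY : Y.Nonempty) (hS₀ : -S₀ = S₀)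
    (hS₀n : S₀.Nonempty) (p q B₀ : ℝ) (hp1 : 1 ≤ p) (hpq : p ≤ q) (hB₀ : 0 ≤ B₀)
    (hp : 4 * ((L + Y).card : ℝ) ≤ Real.exp p * Y.card)
    (hq : 4 * ((L + Y).card : ℝ) ≤ Real.exp q * L.card) (hκ : ((L + S₀).card : ℝ) ≤ Real.exp q * L.card)
    (hBY : ∀ m : ℕ, (m : ℝ) ≤ 4 * (1 + Real.log p) →
      ((Y + ms (dif L Y) m + S₀).card : ℝ) ≤ Real.exp B₀ * Y.card)
    (hBL : ∀ m : ℕ, (m : ℝ) ≤ 4 * (1 + Real.log p) →
      ((L + ms (dif L Y) m + S₀).card : ℝ) ≤ Real.exp B₀ * L.card) :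
    ∃ Γ : Finset (ZMod N),
      (Γ.card : ℝ) ≤ 10 ^ 17 * (Real.log (N / S₀.card) +
        q * p * (1 + Real.log p) ^ 3 * Real.log (2 + B₀ + p)) ∧
      ∀ x : ZMod N, (∀ γ ∈ Γ, nint (((γ * x).val : ℝ) / N) ≤ 1 / (10 ^ 4 * (1 + Real.log (N / S₀.card) + q + B₀))) →
        ∃ w₁ ∈ L + Y, ∃ w₂ ∈ L + Y, x = w₁ - w₂ := by
  obtain ⟨Λ, hΛ, hmain⟩ := main L Y S₀ hL hY hS₀ hS₀n p q B₀ hp1 hpq hB₀ hp hq hκ hBY hBL
  rw [ZMod.card] at hΛ
  obtain ⟨s, hs⟩ : ∃ s : ℝ, s = Real.log ((N : ℝ) / S₀.card) := ⟨_, rfl⟩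
  have hs0 : 0 ≤ s := by
    rw [hs]
    apply Real.log_nonneg
    rw [le_div_iff₀ (by exact_mod_cast hS₀n.card_pos), one_mul]
    have := card_le_univ S₀
    rw [ZMod.card] at this
    exact_mod_cast this
  rw [← hs] at hΛ ⊢
  obtain ⟨v, hv⟩ : ∃ v : ℝ, v = 1 + s + q + B₀ := ⟨_, rfl⟩
  have hv1 : 1 ≤ v := by rw [hv]; linarith
  have hpv : p ≤ v := by linarith
  have hqv : q ≤ v := by linarith
  rw [← hv]
  have hlogp : 0 ≤ Real.log p := Real.log_nonneg hp1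
  have hlogp' : 1 + Real.log p ≤ v := by
    have := Real.log_le_sub_one_of_pos (show 0 < p by linarith)
    linarith
  have hlogB : 0 ≤ Real.log (2 + B₀ + p) := Real.log_nonneg (by linarith)
  have hlogB' : Real.log (2 + B₀ + p) ≤ 2 * v := by
    have := Real.log_le_sub_one_of_pos (show 0 < 2 + B₀ + p by linarith)
    linarith
  obtain ⟨X, hX⟩ : ∃ X : ℝ, X = q * p * (1 + Real.log p) ^ 3 * Real.log (2 + B₀ + p) := ⟨_, rfl⟩
  rw [← hX] at hΛ ⊢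
  have hq0 : 0 ≤ q := by linarith
  have hX0 : 0 ≤ X := by rw [hX]; positivity
  have hXv : X ≤ 2 * v ^ 6 := by
    calc X = q * p * (1 + Real.log p) ^ 3 * Real.log (2 + B₀ + p) := hX
      _ ≤ v * v * v ^ 3 * (2 * v) := by gcongr
      _ = 2 * v ^ 6 := by ring
  obtain ⟨R, hR⟩ : ∃ R : ℕ, R = ⌈10 ^ 3 * v⌉₊ := ⟨_, rfl⟩
  have hR1 : 10 ^ 3 * v ≤ R := by rw [hR]; exact Nat.le_ceil _
  have hR2 : (R : ℝ) ≤ 10 ^ 3 * v + 1 := by
    rw [hR]
    exact (Nat.ceil_lt_add_one (by positivity)).le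
  have hR0 : 1 ≤ R := by
    have : (1 : ℝ) ≤ R := by linarith
    exact_mod_cast this
  have hRpos : (0 : ℝ) < R := by exact_mod_cast hR0
  obtain ⟨Γ, hΓ, htr⟩ := transfer Λ R 9 hR0
  have hΛv : (Λ.card : ℝ) + 1 ≤ 2 * 10 ^ 16 * v ^ 6 := by
    have h6 : 1 ≤ v ^ 6 := one_le_pow₀ hv1
    have h7 : v ≤ v ^ 6 := le_self_pow₀ hv1 (by norm_num)
    have h8 : s ≤ v := by linarith
    linarith
  refine ⟨Γ, ?_, ?_⟩
  · have h4 : (Γ.card : ℝ) ≤ 10 * Λ.card := by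
      have : ((Γ.card : ℕ) : ℝ) ≤ (((9 + 1) * Λ.card : ℕ) : ℝ) := by exact_mod_cast hΓ
      push_cast at this
      linarith
    linarith
  · intro x hx
    apply hmain
    intro ψ hψ
    refine (htr x ?_ ψ hψ).trans ?_
    · intro γ hγ
      refine (hx γ hγ).trans ?_
      apply one_div_le_one_div_of_le (by positivity)
      linarith
    · have hpi : Real.pi ≤ 4 := Real.pi_le_four
      have h4 : 40 * ((Λ.card : ℝ) + 1) ≤ (R : ℝ) ^ 10 / 2 := by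
        calc 40 * ((Λ.card : ℝ) + 1) ≤ 40 * (2 * 10 ^ 16 * v ^ 6) := by gcongr
          _ = 8 * 10 ^ 17 * v ^ 6 := by ring
          _ ≤ (10 ^ 3 * v) ^ 10 / 2 := by
            have h5 : v ^ 6 ≤ v ^ 10 := pow_le_pow_right₀ hv1 (by norm_num)
            have h6 : 0 ≤ v ^ 10 := by positivity
            nlinarith
          _ ≤ (R : ℝ) ^ 10 / 2 := by gcongr
      have h5 : 2 * Real.pi * (1 / (4 * (R : ℝ) ^ (9 + 1))) ≤ 2 / (R : ℝ) ^ 10 := by
        have e : 2 * Real.pi * (1 / (4 * (R : ℝ) ^ (9 + 1))) = (Real.pi / 2) / (R : ℝ) ^ 10 := by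
          norm_num
          ring
        rw [e]
        gcongr
        linarith
      refine h5.trans ?_
      rw [div_le_div_iff₀ (by positivity) (by positivity)]
      linarith

end Pool.Agent.H89.LV
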