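import Pool.Agent.H89.EN.Defs

/-!
# Project LV: the Bohr set of a set of almost periods of a level set
-/

set_option autoImplicit false
set_option linter.unusedSectionVars false

namespace Pool.Agent.H89.LV

open Finset Pool.Agent.K4H60.BZ Pool.Agent.H89.EN
open scoped Pointwise BigOperators ComplexConjugate

variable {G : Type*} [AddCommGroup G] [Fintype G] [DecidableEq G]

theorem four_sq (A : Finset G) (ψ : AddChar G ℂ) :
    (∑ a ∈ A, ψ a) * ∑ w ∈ A, conj (ψ w) = ((‖∑ a ∈ A, ψ a‖ ^ 2 : ℝ) : ℂ) := by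
  have h : ∑ w ∈ A, conj (ψ w) = conj (∑ w ∈ A, ψ w) := (map_sum (starRingEnd ℂ) _ _).symm
  rw [h, Complex.mul_conj, Complex.normSq_eq_norm_sq]

theorem four_pairs (T : Finset G) (ψ : AddChar G ℂ) :
    ∑ p ∈ T ×ˢ T, ψ (p.1 - p.2) = ((‖∑ a ∈ T, ψ a‖ ^ 2 : ℝ) : ℂ) := by
  rw [← four_sq, sum_mul_sum, sum_product]
  refine sum_congr rfl fun a _ => sum_congr rfl fun b _ => ?_
  rw [sub_eq_add_neg, AddChar.map_add_eq_mul, AddChar.map_neg_eq_conj]

theorem four_count (L : Finset G) (y : G) :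
    ∑ z ∈ L, ind L (z + y) = ((L.filter fun z => z + y ∈ L).card : ℝ) := by
  unfold ind
  rw [sum_ite, sum_const_zero, add_zero, sum_const, nsmul_eq_mul, mul_one]

theorem four_expand (L : Finset G) (y : G) :
    ((∑ z ∈ L, ind L (z + y) : ℝ) : ℂ) =
      ∑ ψ : AddChar G ℂ, ((‖∑ a ∈ L, ψ a‖ ^ 2 : ℝ) : ℂ) / Fintype.card G * ψ y := by
  push_cast
  simp_rw [ind_expand]
  rw [sum_comm]
  refine sum_congr rfl fun ψ _ => ?_
  have h := four_sq L ψ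
  push_cast at h
  rw [← h]
  have e : ∀ z ∈ L, (∑ w ∈ L, conj (ψ w)) / (Fintype.card G : ℂ) * ψ (z + y) =
      ((∑ w ∈ L, conj (ψ w)) / (Fintype.card G : ℂ) * ψ y) * ψ z := by
    intro z _
    rw [AddChar.map_add_eq_mul]; ring
  rw [sum_congr rfl e, ← mul_sum]
  ring

/-- **S_four** -/
theorem four (L T : Finset G) (hL : L.Nonempty) (hT : T.Nonempty)
    (h : ∀ t ∈ T, ∀ t' ∈ T, 9 / 10 * (L.card : ℝ) ≤ ((L.filter fun z => z + (t - t') ∈ L).card : ℝ)) :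
    ∃ Λ : Finset (AddChar G ℂ), (Λ.card : ℝ) ≤ 8 * Real.log (Fintype.card G / T.card) ∧
      ∀ x : G, (∀ ψ ∈ Λ, ‖ψ x - 1‖ ≤ 1 / (40 * ((Λ.card : ℝ) + 1))) → ∃ z ∈ L, ∃ z' ∈ L, x = z' - z := by
  classical
  have hLpos : (0 : ℝ) < L.card := by exact_mod_cast hL.card_pos
  have hTpos : (0 : ℝ) < T.card := by exact_mod_cast hT.card_pos
  have hGpos : (0 : ℝ) < Fintype.card G := by exact_mod_cast Fintype.card_pos
  obtain ⟨Λ, hΛ, hspan⟩ := spec_span T hT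
  refine ⟨Λ, hΛ, ?_⟩
  intro x hx
  obtain ⟨R, hR⟩ : ∃ R : G → ℝ, R = fun y => (∑ p ∈ T ×ˢ T, ∑ z ∈ L, ind L (z + ((p.1 - p.2) + y))) /
    ((T.card : ℝ) ^ 2 * L.card) := ⟨_, rfl⟩
  obtain ⟨w, hw⟩ : ∃ w : AddChar G ℂ → ℝ, w = fun ψ => ‖∑ a ∈ L, ψ a‖ ^ 2 / (Fintype.card G * L.card) := ⟨_, rfl⟩
  obtain ⟨τ, hτ⟩ : ∃ τ : AddChar G ℂ → ℝ, τ = fun ψ => ‖∑ a ∈ T, ψ a‖ ^ 2 / (T.card : ℝ) ^ 2 := ⟨_, rfl⟩
  have hw0 : ∀ ψ, 0 ≤ w ψ := fun ψ => by rw [hw]; positivity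
  have hτ0 : ∀ ψ, 0 ≤ τ ψ := fun ψ => by rw [hτ]; positivity
  have hτ1 : ∀ ψ, τ ψ ≤ 1 := by
    intro ψ
    rw [hτ]
    refine div_le_one_of_le₀ ?_ (by positivity)
    refine pow_le_pow_left₀ (norm_nonneg _) ?_ 2
    calc ‖∑ a ∈ T, ψ a‖ ≤ ∑ a ∈ T, ‖ψ a‖ := norm_sum_le _ _
      _ = T.card := by simp [AddChar.norm_apply]
  have hwsum : ∑ ψ, w ψ = 1 := by
    rw [hw, ← sum_div, parseval_set]
    exact div_self (by positivity)
  have hexp : ∀ y, ((R y : ℝ) : ℂ) = ∑ ψ, ((w ψ * τ ψ : ℝ) : ℂ) * ψ y := by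
    intro y
    rw [hR]
    simp only
    rw [Complex.ofReal_div, Complex.ofReal_sum]
    have e1 : ∀ p ∈ T ×ˢ T, ((∑ z ∈ L, ind L (z + ((p.1 - p.2) + y)) : ℝ) : ℂ) =
        ∑ ψ : AddChar G ℂ, ((‖∑ a ∈ L, ψ a‖ ^ 2 : ℝ) : ℂ) / Fintype.card G * (ψ (p.1 - p.2) * ψ y) := by
      intro p _
      rw [four_expand]
      refine sum_congr rfl fun ψ _ => ?_
      rw [AddChar.map_add_eq_mul]
    rw [sum_congr rfl e1, sum_comm, sum_div]
    refine sum_congr rfl fun ψ _ => ?_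
    rw [← mul_sum, ← sum_mul, four_pairs, hw, hτ]
    push_cast
    field_simp
  have hRzero : 9 / 10 ≤ R 0 := by
    rw [hR]
    simp only
    rw [le_div_iff₀ (by positivity)]
    calc 9 / 10 * ((T.card : ℝ) ^ 2 * L.card) = ∑ p ∈ T ×ˢ T, 9 / 10 * (L.card : ℝ) := by
          rw [sum_const, card_product, nsmul_eq_mul]
          push_cast
          ring
      _ ≤ _ := by
          apply sum_le_sum
          intro p hp
          rw [mem_product] at hp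
          rw [four_count, add_zero]
          exact h p.1 hp.1 p.2 hp.2
  have hwτ : 9 / 10 ≤ ∑ ψ, w ψ * τ ψ := by
    have h1 : R 0 = ∑ ψ, w ψ * τ ψ := by
      have h2 := hexp 0
      simp only [AddChar.map_zero_eq_one, mul_one] at h2
      exact_mod_cast h2
    rw [← h1]; exact hRzero
  -- the small spectrum
  obtain ⟨O, hO⟩ : ∃ O : Finset (AddChar G ℂ), O = univ.filter (fun ψ => ¬ ((T.card : ℝ) / 2 ≤ ‖∑ t ∈ T, ψ t‖)) :=
    ⟨_, rfl⟩
  have hτO : ∀ ψ ∈ O, τ ψ ≤ 1 / 4 := by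
    intro ψ hψ
    rw [hO, mem_filter] at hψ
    have h1 : ‖∑ t ∈ T, ψ t‖ ≤ (T.card : ℝ) / 2 := le_of_lt (not_le.1 hψ.2)
    rw [hτ]
    simp only
    rw [div_le_iff₀ (by positivity)]
    calc ‖∑ t ∈ T, ψ t‖ ^ 2 ≤ ((T.card : ℝ) / 2) ^ 2 := pow_le_pow_left₀ (norm_nonneg _) h1 2
      _ = _ := by ring
  have hwO : ∑ ψ ∈ O, w ψ ≤ 2 / 15 := by
    have h1 : ∑ ψ ∈ O, 3 / 4 * w ψ ≤ ∑ ψ, w ψ * (1 - τ ψ) := by
      calc ∑ ψ ∈ O, 3 / 4 * w ψ ≤ ∑ ψ ∈ O, w ψ * (1 - τ ψ) := by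
            refine sum_le_sum fun ψ hψ => ?_
            have := hτO ψ hψ
            nlinarith [hw0 ψ]
        _ ≤ _ := sum_le_sum_of_subset_of_nonneg (subset_univ _) fun ψ _ _ =>
            mul_nonneg (hw0 ψ) (by have := hτ1 ψ; linarith)
    have h2 : ∑ ψ, w ψ * (1 - τ ψ) = 1 - ∑ ψ, w ψ * τ ψ := by
      simp_rw [mul_sub, mul_one]
      rw [sum_sub_distrib, hwsum]
    rw [← mul_sum] at h1
    linarith
  -- characters of the large spectrum
  have hbig : ∀ ψ ∉ O, ‖ψ x - 1‖ ≤ 1 / 40 := by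
    intro ψ hψ
    rw [hO, mem_filter] at hψ
    have h1 : (T.card : ℝ) / 2 ≤ ‖∑ t ∈ T, ψ t‖ := by
      by_contra hcon
      exact hψ ⟨mem_univ _, hcon⟩
    obtain ⟨ε, hε, he⟩ := hspan ψ h1
    rw [he]
    refine (norm_sum_sub_one _ _ _).trans ?_
    calc ∑ a ∈ Λ, ‖(ε a • a) x - 1‖ ≤ ∑ a ∈ Λ, 1 / (40 * ((Λ.card : ℝ) + 1)) := by
          refine sum_le_sum fun a ha => ?_
          refine (norm_zsmul_sub_one _ _ _).trans ?_
          have h2 : |((ε a : ℤ) : ℝ)| ≤ 1 := by exact_mod_cast hε a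
          calc |((ε a : ℤ) : ℝ)| * ‖a x - 1‖ ≤ 1 * (1 / (40 * ((Λ.card : ℝ) + 1))) :=
                mul_le_mul h2 (hx a ha) (norm_nonneg _) zero_le_one
            _ = _ := one_mul _
      _ = Λ.card / (40 * ((Λ.card : ℝ) + 1)) := by
          rw [sum_const, nsmul_eq_mul, mul_one_div]
      _ ≤ 1 / 40 := by
          rw [div_le_div_iff₀ (by positivity) (by norm_num)]
          linarith
  have hdiff : |R x - R 0| ≤ 11 / 120 := by
    have e1 : ((R x - R 0 : ℝ) : ℂ) = ∑ ψ, ((w ψ * τ ψ : ℝ) : ℂ) * (ψ x - 1) := by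
      rw [Complex.ofReal_sub, hexp x, hexp 0, ← sum_sub_distrib]
      refine sum_congr rfl fun ψ _ => ?_
      rw [AddChar.map_zero_eq_one]; ring
    rw [← Real.norm_eq_abs, ← Complex.norm_real, e1]
    refine (norm_sum_le _ _).trans ?_
    have e2 : ∀ ψ, ‖((w ψ * τ ψ : ℝ) : ℂ) * (ψ x - 1)‖ ≤ (1 / 40) * w ψ + (if ψ ∈ O then 1 / 2 * w ψ else 0) := by
      intro ψ
      rw [norm_mul, Complex.norm_real, Real.norm_eq_abs, abs_of_nonneg (mul_nonneg (hw0 ψ) (hτ0 ψ))]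
      split_ifs with hψ
      · have h1 : ‖ψ x - 1‖ ≤ 2 := by
          calc ‖ψ x - 1‖ ≤ ‖ψ x‖ + ‖(1 : ℂ)‖ := norm_sub_le _ _
            _ = 2 := by rw [AddChar.norm_apply, norm_one]; norm_num
        have h2 : w ψ * τ ψ ≤ w ψ * (1 / 4) := mul_le_mul_of_nonneg_left (hτO ψ hψ) (hw0 ψ)
        have h3 : w ψ * τ ψ * ‖ψ x - 1‖ ≤ w ψ * (1 / 4) * 2 :=
          mul_le_mul h2 h1 (norm_nonneg _) (mul_nonneg (hw0 ψ) (by norm_num))
        linarith [hw0 ψ]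
      · have h1 := hbig ψ hψ
        have h2 : w ψ * τ ψ ≤ w ψ * 1 := mul_le_mul_of_nonneg_left (hτ1 ψ) (hw0 ψ)
        have h3 : w ψ * τ ψ * ‖ψ x - 1‖ ≤ w ψ * 1 * (1 / 40) :=
          mul_le_mul h2 h1 (norm_nonneg _) (mul_nonneg (hw0 ψ) (by norm_num))
        linarith
    refine (sum_le_sum fun ψ _ => e2 ψ).trans ?_
    rw [sum_add_distrib, ← mul_sum, hwsum, ← sum_filter, filter_mem_eq_inter, univ_inter, ← mul_sum]
    linarith
  have hsum : 1 < R 0 + R x := by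
    have h1 := (abs_le.1 hdiff).1
    linarith
  -- conclusion
  have hfin : ∃ p ∈ T ×ˢ T, ∃ z ∈ L, z + ((p.1 - p.2) + 0) ∈ L ∧ z + ((p.1 - p.2) + x) ∈ L := by
    by_contra hcon
    push Not at hcon
    have h1 : R 0 + R x ≤ 1 := by
      rw [hR]
      simp only
      rw [← add_div, ← sum_add_distrib, div_le_one (by positivity)]
      calc _ ≤ ∑ p ∈ T ×ˢ T, (L.card : ℝ) := by
            refine sum_le_sum fun p hp => ?_
            rw [← sum_add_distrib]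
            calc _ ≤ ∑ z ∈ L, (1 : ℝ) := by
                  refine sum_le_sum fun z hz => ?_
                  unfold ind
                  by_cases hz1 : z + ((p.1 - p.2) + 0) ∈ L
                  · rw [if_pos hz1, if_neg (hcon p hp z hz hz1)]
                    norm_num
                  · rw [if_neg hz1]
                    split_ifs <;> norm_num
              _ = _ := by simp
        _ = _ := by
            rw [sum_const, card_product, nsmul_eq_mul]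
            push_cast
            ring
    linarith
  obtain ⟨p, _, z, _, h1, h2⟩ := hfin
  refine ⟨_, h1, _, h2, ?_⟩
  abel

end Pool.Agent.H89.LV
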