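import Pool.Agent.H89.LV.Four

/-!
# Almost periods from the large spectrum, with a general proportion
-/

set_option autoImplicit false
set_option linter.unusedSectionVars false

namespace Pool.Agent.H89.LV

open Finset Pool.Agent.K4H60.BZ Pool.Agent.H89.EN
open scoped Pointwise BigOperators ComplexConjugate

variable {G : Type*} [AddCommGroup G] [Fintype G] [DecidableEq G]

/-- the large spectrum of `T` gives almost periods of `L` -/
theorem fourg (L T : Finset G) (hL : L.Nonempty) (hT : T.Nonempty) (η : ℝ) (hη : 0 < η)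
    (h : ∀ t ∈ T, ∀ t' ∈ T, (1 - η) * (L.card : ℝ) ≤ ((L.filter fun z => z + (t - t') ∈ L).card : ℝ)) :
    ∃ Λ : Finset (AddChar G ℂ), (Λ.card : ℝ) ≤ 8 * Real.log (Fintype.card G / T.card) ∧
      ∀ x : G, (∀ ψ ∈ Λ, ‖ψ x - 1‖ ≤ η / ((Λ.card : ℝ) + 1)) →
        (1 - 4 * η) * (L.card : ℝ) ≤ ((L.filter fun z => z + x ∈ L).card : ℝ) := by
  classical
  have hLpos : (0 : ℝ) < L.card := by exact_mod_cast hL.card_pos
  have hTpos : (0 : ℝ) < T.card := by exact_mod_cast hT.card_pos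
  have hGpos : (0 : ℝ) < Fintype.card G := by exact_mod_cast Fintype.card_pos
  obtain ⟨Λ, hΛ, hspan⟩ := spec_span T hT
  refine ⟨Λ, hΛ, ?_⟩
  intro x hx
  obtain ⟨R, hR⟩ : ∃ R : G → ℝ, R = fun y => (∑ p ∈ T ×ˢ T, ∑ z ∈ L, ind L (z + ((p.1 - p.2) + y))) /
    ((T.card : ℝ) ^ 2 * L.card) := ⟨_, rfl⟩
  obtain ⟨w, hw⟩ : ∃ w : AddChar G ℂ → ℝ, w = fun ψ => ‖∑ a ∈ L, ψ a‖ ^ 2 / (Fintype.card G * L.card) := ⟨_, rfl⟩
  obtain ⟨τ, hτ⟩ : ∃ τ : AddChar G ℂ → ℝ, τ = fun ψ => ‖∑ a ∈ T, ψ a‖ ^ 2 / (T.card : ℝ) ^ 2 := ⟨_, rfl⟩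
  have hw0 : ∀ ψ, 0 ≤ w ψ := fun ψ => by rw [hw]; positivity
  have hτ0 : ∀ ψ, 0 ≤ τ ψ := fun ψ => by rw [hτ]; positivity
  have hτ1 : ∀ ψ, τ ψ ≤ 1 := by
    intro ψ
    rw [hτ]
    refine div_le_one_of_le₀ ?_ (by positivity)
    refine pow_le_pow_left₀ (norm_nonneg _) ?_ 2
    calc ‖∑ a ∈ T, ψ a‖ ≤ ∑ a ∈ T, ‖ψ a‖ := norm_sum_le _ _
      _ = T.card := by simp [AddChar.norm_apply]
  have hwsum : ∑ ψ, w ψ = 1 := by
    rw [hw, ← sum_div, parseval_set]
    exact div_self (by positivity)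
  have hexp : ∀ y, ((R y : ℝ) : ℂ) = ∑ ψ, ((w ψ * τ ψ : ℝ) : ℂ) * ψ y := by
    intro y
    rw [hR]
    simp only
    rw [Complex.ofReal_div, Complex.ofReal_sum]
    have e1 : ∀ p ∈ T ×ˢ T, ((∑ z ∈ L, ind L (z + ((p.1 - p.2) + y)) : ℝ) : ℂ) =
        ∑ ψ : AddChar G ℂ, ((‖∑ a ∈ L, ψ a‖ ^ 2 : ℝ) : ℂ) / Fintype.card G * (ψ (p.1 - p.2) * ψ y) := by
      intro p _
      rw [four_expand]
      refine sum_congr rfl fun ψ _ => ?_
      rw [AddChar.map_add_eq_mul]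
    rw [sum_congr rfl e1, sum_comm, sum_div]
    refine sum_congr rfl fun ψ _ => ?_
    rw [← mul_sum, ← sum_mul, four_pairs, hw, hτ]
    push_cast
    field_simp
  have hRzero : 1 - η ≤ R 0 := by
    rw [hR]
    simp only
    rw [le_div_iff₀ (by positivity)]
    calc (1 - η) * ((T.card : ℝ) ^ 2 * L.card) = ∑ p ∈ T ×ˢ T, (1 - η) * (L.card : ℝ) := by
          rw [sum_const, card_product, nsmul_eq_mul]
          push_cast
          ring
      _ ≤ _ := by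
          apply sum_le_sum
          intro p hp
          rw [mem_product] at hp
          rw [four_count, add_zero]
          exact h p.1 hp.1 p.2 hp.2
  have hwτ : 1 - η ≤ ∑ ψ, w ψ * τ ψ := by
    have h1 : R 0 = ∑ ψ, w ψ * τ ψ := by
      have h2 := hexp 0
      simp only [AddChar.map_zero_eq_one, mul_one] at h2
      exact_mod_cast h2
    rw [← h1]; exact hRzero
  -- the small spectrum
  obtain ⟨O, hO⟩ : ∃ O : Finset (AddChar G ℂ), O = univ.filter (fun ψ => ¬ ((T.card : ℝ) / 2 ≤ ‖∑ t ∈ T, ψ t‖)) :=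
    ⟨_, rfl⟩
  have hτO : ∀ ψ ∈ O, τ ψ ≤ 1 / 4 := by
    intro ψ hψ
    rw [hO, mem_filter] at hψ
    have h1 : ‖∑ t ∈ T, ψ t‖ ≤ (T.card : ℝ) / 2 := le_of_lt (not_le.1 hψ.2)
    rw [hτ]
    simp only
    rw [div_le_iff₀ (by positivity)]
    calc ‖∑ t ∈ T, ψ t‖ ^ 2 ≤ ((T.card : ℝ) / 2) ^ 2 := pow_le_pow_left₀ (norm_nonneg _) h1 2
      _ = _ := by ring
  have hwO : ∑ ψ ∈ O, w ψ ≤ 4 / 3 * η := by
    have h1 : ∑ ψ ∈ O, 3 / 4 * w ψ ≤ ∑ ψ, w ψ * (1 - τ ψ) := by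
      calc ∑ ψ ∈ O, 3 / 4 * w ψ ≤ ∑ ψ ∈ O, w ψ * (1 - τ ψ) := by
            refine sum_le_sum fun ψ hψ => ?_
            have := hτO ψ hψ
            nlinarith [hw0 ψ]
        _ ≤ _ := sum_le_sum_of_subset_of_nonneg (subset_univ _) fun ψ _ _ =>
            mul_nonneg (hw0 ψ) (by have := hτ1 ψ; linarith)
    have h2 : ∑ ψ, w ψ * (1 - τ ψ) = 1 - ∑ ψ, w ψ * τ ψ := by
      simp_rw [mul_sub, mul_one]
      rw [sum_sub_distrib, hwsum]
    rw [← mul_sum] at h1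
    linarith
  -- characters of the large spectrum
  have hbig : ∀ ψ ∉ O, ‖ψ x - 1‖ ≤ η := by
    intro ψ hψ
    rw [hO, mem_filter] at hψ
    have h1 : (T.card : ℝ) / 2 ≤ ‖∑ t ∈ T, ψ t‖ := by
      by_contra hcon
      exact hψ ⟨mem_univ _, hcon⟩
    obtain ⟨ε, hε, he⟩ := hspan ψ h1
    rw [he]
    refine (norm_sum_sub_one _ _ _).trans ?_
    calc ∑ a ∈ Λ, ‖(ε a • a) x - 1‖ ≤ ∑ a ∈ Λ, η / ((Λ.card : ℝ) + 1) := by
          refine sum_le_sum fun a ha => ?_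
          refine (norm_zsmul_sub_one _ _ _).trans ?_
          have h2 : |((ε a : ℤ) : ℝ)| ≤ 1 := by exact_mod_cast hε a
          calc |((ε a : ℤ) : ℝ)| * ‖a x - 1‖ ≤ 1 * (η / ((Λ.card : ℝ) + 1)) :=
                mul_le_mul h2 (hx a ha) (norm_nonneg _) zero_le_one
            _ = _ := one_mul _
      _ = Λ.card * (η / ((Λ.card : ℝ) + 1)) := by
          rw [sum_const, nsmul_eq_mul]
      _ ≤ η := by
          rw [mul_div_assoc', div_le_iff₀ (by positivity)]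
          linarith
  have hdiff : |R x - R 0| ≤ 5 / 3 * η := by
    have e1 : ((R x - R 0 : ℝ) : ℂ) = ∑ ψ, ((w ψ * τ ψ : ℝ) : ℂ) * (ψ x - 1) := by
      rw [Complex.ofReal_sub, hexp x, hexp 0, ← sum_sub_distrib]
      refine sum_congr rfl fun ψ _ => ?_
      rw [AddChar.map_zero_eq_one]; ring
    rw [← Real.norm_eq_abs, ← Complex.norm_real, e1]
    refine (norm_sum_le _ _).trans ?_
    have e2 : ∀ ψ, ‖((w ψ * τ ψ : ℝ) : ℂ) * (ψ x - 1)‖ ≤ η * w ψ + (if ψ ∈ O then 1 / 2 * w ψ else 0) := by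
      intro ψ
      rw [norm_mul, Complex.norm_real, Real.norm_eq_abs, abs_of_nonneg (mul_nonneg (hw0 ψ) (hτ0 ψ))]
      split_ifs with hψ
      · have h1 : ‖ψ x - 1‖ ≤ 2 := by
          calc ‖ψ x - 1‖ ≤ ‖ψ x‖ + ‖(1 : ℂ)‖ := norm_sub_le _ _
            _ = 2 := by rw [AddChar.norm_apply, norm_one]; norm_num
        have h2 : w ψ * τ ψ ≤ w ψ * (1 / 4) := mul_le_mul_of_nonneg_left (hτO ψ hψ) (hw0 ψ)
        have h3 : w ψ * τ ψ * ‖ψ x - 1‖ ≤ w ψ * (1 / 4) * 2 :=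
          mul_le_mul h2 h1 (norm_nonneg _) (mul_nonneg (hw0 ψ) (by norm_num))
        have h4 := mul_nonneg hη.le (hw0 ψ)
        linarith [hw0 ψ]
      · have h1 := hbig ψ hψ
        have h2 : w ψ * τ ψ ≤ w ψ * 1 := mul_le_mul_of_nonneg_left (hτ1 ψ) (hw0 ψ)
        have h3 : w ψ * τ ψ * ‖ψ x - 1‖ ≤ w ψ * 1 * η :=
          mul_le_mul h2 h1 (norm_nonneg _) (mul_nonneg (hw0 ψ) (by norm_num))
        linarith
    refine (sum_le_sum fun ψ _ => e2 ψ).trans ?_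
    rw [sum_add_distrib, ← mul_sum, hwsum, ← sum_filter, filter_mem_eq_inter, univ_inter, ← mul_sum]
    linarith
  have hRx : 1 - 8 / 3 * η ≤ R x := by
    have h1 := (abs_le.1 hdiff).1
    linarith
  -- conclusion
  obtain ⟨p, hp, hpx⟩ : ∃ p ∈ T ×ˢ T, (1 - 8 / 3 * η) * (L.card : ℝ) ≤ ∑ z ∈ L, ind L (z + ((p.1 - p.2) + x)) := by
    by_contra hcon
    push Not at hcon
    have h1 : R x < 1 - 8 / 3 * η := by
      rw [hR]
      simp only
      rw [div_lt_iff₀ (by positivity)]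
      calc _ < ∑ p ∈ T ×ˢ T, (1 - 8 / 3 * η) * (L.card : ℝ) :=
            sum_lt_sum_of_nonempty (hT.product hT) hcon
        _ = _ := by
            rw [sum_const, card_product, nsmul_eq_mul]
            push_cast
            ring
    linarith
  rw [four_count] at hpx
  rw [mem_product] at hp
  have h1 := h p.1 hp.1 p.2 hp.2
  obtain ⟨v, hv⟩ : ∃ v : G, v = p.1 - p.2 := ⟨_, rfl⟩
  rw [← hv] at hpx h1
  -- both
  have h2 : ((L.filter fun z => z + v ∈ L).card : ℝ) + (L.filter fun z => z + (v + x) ∈ L).card ≤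
      L.card + (L.filter fun z => z + v ∈ L ∧ z + (v + x) ∈ L).card := by
    have e1 := card_union_add_card_inter (L.filter fun z => z + v ∈ L) (L.filter fun z => z + (v + x) ∈ L)
    rw [← filter_and] at e1
    have e2 : ((L.filter fun z => z + v ∈ L) ∪ (L.filter fun z => z + (v + x) ∈ L)).card ≤ L.card :=
      card_le_card (union_subset (filter_subset _ _) (filter_subset _ _))
    exact_mod_cast (show (L.filter fun z => z + v ∈ L).card + (L.filter fun z => z + (v + x) ∈ L).card ≤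
      L.card + (L.filter fun z => z + v ∈ L ∧ z + (v + x) ∈ L).card by omega)
  have h3 : ((L.filter fun z => z + v ∈ L ∧ z + (v + x) ∈ L).card : ℝ) ≤ (L.filter fun z => z + x ∈ L).card := by
    have : (L.filter fun z => z + v ∈ L ∧ z + (v + x) ∈ L).card ≤ (L.filter fun z => z + x ∈ L).card := by
      refine card_le_card_of_injOn (fun z => z + v) ?_ ?_
      · intro z hz
        rw [mem_coe, mem_filter] at hz
        rw [mem_coe, mem_filter]
        refine ⟨hz.2.1, ?_⟩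
        rw [add_assoc]
        exact hz.2.2
      · intro z _ z' _ hzz
        exact add_right_cancel hzz
    exact_mod_cast this
  have h4 : 0 ≤ η * (L.card : ℝ) := by positivity
  linarith

end Pool.Agent.H89.LV
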