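import Pool.Agent.H89.LV.Main
import Pool.Agent.H89.LV.Fourg

/-!
# The general form of the main theorem
-/

set_option autoImplicit false
set_option linter.unusedSectionVars false
set_option linter.unusedVariables false

namespace Pool.Agent.H89.LV

open Finset Pool.Agent.K4H60.BZ Pool.Agent.H89.EN
open scoped Pointwise BigOperators ComplexConjugate

theorem logM_gen (p η : ℝ) (hp : 1 ≤ p) (hη : 0 < η) (hη1 : η ≤ 1 / 2) (R : ℕ) (h1 : (2 : ℝ) ^ R ≤ 2 * p)
    (h2 : (R : ℝ) + 1 ≤ 2 * (1 + Real.log p)) :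
    ((2 * R + 2 : ℕ) : ℝ) * Real.log (8 * ((2 * R + 2 : ℕ) : ℝ) / η) ≤ 20 / η * p := by
  have hM : (0 : ℝ) < ((2 * R + 2 : ℕ) : ℝ) := by positivity
  rw [Real.log_div (by positivity) hη.ne', mul_sub]
  have h3 := logM p hp R h1
  have h4 : -Real.log η ≤ 1 / η - 1 := by
    rw [← Real.log_inv, ← one_div]
    exact Real.log_le_sub_one_of_pos (by positivity)
  have h5 : ((2 * R + 2 : ℕ) : ℝ) ≤ 4 * p := by
    have h6 := Real.log_le_sub_one_of_pos (show 0 < p by linarith)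
    push_cast
    linarith
  have h7 : (1 : ℝ) ≤ 1 / η - 1 := by
    have : 2 ≤ 1 / η := by
      rw [le_div_iff₀ hη]
      linarith
    linarith
  have h8 : ((2 * R + 2 : ℕ) : ℝ) * (-Real.log η) ≤ 4 * p * (1 / η - 1) :=
    mul_le_mul h5 h4 (by
      have := Real.log_nonpos hη.le (by linarith)
      linarith) (by linarith)
  have h9 : 20 / η * p = 16 * p * (1 / η) + 4 * p * (1 / η) := by ring
  have h10 : 16 * p ≤ 16 * p * (1 / η) := by nlinarith
  have h11 : 4 * p * (1 / η - 1) ≤ 4 * p * (1 / η) := by nlinarith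
  linarith

theorem cost_one (p q lam x η : ℝ) (R : ℕ) (hp : 1 ≤ p) (hpq : p ≤ q) (hlam : 1 ≤ lam) (hR : (R : ℝ) + 1 ≤ 2 * x)
    (hη : 0 < η) (bY bL a : ℝ) (ha : a = η / (8 * ((2 * R + 2 : ℕ) : ℝ))) (hbY : bY ≤ 21 / η * p)
    (hbL : bL ≤ 21 / η * q) (hbY1 : 1 ≤ bY) (hbL1 : 1 ≤ bL) :
    (bL * bY * lam / a ^ 2) * ((R : ℝ) + 1) ≤ 10 ^ 6 / η ^ 4 * (q * p * x ^ 3 * lam) := by
  have hR1 : (1 : ℝ) ≤ (R : ℝ) + 1 := by
    have : (0 : ℝ) ≤ R := Nat.cast_nonneg R
    linarith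
  have hx0 : 0 ≤ x := by linarith
  have hq0 : 0 ≤ q := by linarith
  have hp0 : 0 ≤ p := by linarith
  have hlam0 : 0 ≤ lam := by linarith
  have h1 : bL * bY * lam / a ^ 2 = bL * bY * lam * (256 * ((R : ℝ) + 1) ^ 2) / η ^ 2 := by
    rw [ha]
    push_cast
    have : (R : ℝ) + 1 ≠ 0 := by positivity
    field_simp
    ring
  have h2 : bL * bY ≤ 441 / η ^ 2 * (q * p) := by
    calc bL * bY ≤ (21 / η * q) * (21 / η * p) := mul_le_mul hbL hbY (by linarith) (by positivity)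
      _ = _ := by
        field_simp
        ring
  have h3 : ((R : ℝ) + 1) ^ 3 ≤ 8 * x ^ 3 := by
    calc ((R : ℝ) + 1) ^ 3 ≤ (2 * x) ^ 3 := pow_le_pow_left₀ (by linarith) hR 3
      _ = _ := by ring
  have h4 : (bL * bY * lam / a ^ 2) * ((R : ℝ) + 1) = 256 * lam / η ^ 2 * ((bL * bY) * ((R : ℝ) + 1) ^ 3) := by
    rw [h1]; ring
  rw [h4]
  have h5 : (bL * bY) * ((R : ℝ) + 1) ^ 3 ≤ (441 / η ^ 2 * (q * p)) * (8 * x ^ 3) :=
    mul_le_mul h2 h3 (by positivity) (by positivity)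
  calc 256 * lam / η ^ 2 * ((bL * bY) * ((R : ℝ) + 1) ^ 3) ≤
        256 * lam / η ^ 2 * ((441 / η ^ 2 * (q * p)) * (8 * x ^ 3)) :=
        mul_le_mul_of_nonneg_left h5 (by positivity)
    _ = 903168 / η ^ 4 * (q * p * x ^ 3 * lam) := by
        field_simp
        ring
    _ ≤ _ := by
        apply mul_le_mul_of_nonneg_right _ (by positivity)
        apply div_le_div_of_nonneg_right (by norm_num) (by positivity)

theorem cost_two (p q x η K : ℝ) (R : ℕ) (hp : 1 ≤ p) (hpq : p ≤ q) (hx1 : 1 ≤ x) (hR : (R : ℝ) + 1 ≤ 2 * x)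
    (hη : 0 < η) (hη1 : η ≤ 1 / 2) (bY bL a nn : ℝ) (ha : a = η / (8 * ((2 * R + 2 : ℕ) : ℝ))) (hbY : bY ≤ 21 / η * p)
    (hbL : bL ≤ 21 / η * q) (hbY1 : 1 ≤ bY) (hbYL : bY ≤ bL) (hK0 : 0 ≤ K) (hK : K ≤ 17 / η * bY)
    (hn0 : 0 ≤ nn) (hn : nn ≤ (54 * K * bY + 9 * K ^ 2 * (32 / η)) / a ^ 2) :
    2 * nn * (1 + bL / p) ≤ 2 * 10 ^ 12 / η ^ 8 * (q * p * x ^ 3) := by
  have hR1 : (1 : ℝ) ≤ (R : ℝ) + 1 := by
    have : (0 : ℝ) ≤ R := Nat.cast_nonneg R
    linarith
  have hx0 : 0 ≤ x := by linarith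
  have hq0 : 0 ≤ q := by linarith
  have hp0 : 0 ≤ p := by linarith
  have hη2 : 2 ≤ 1 / η := by
    rw [le_div_iff₀ hη]
    linarith
  have hb0 : 0 ≤ bL := by linarith
  have hbY0 : 0 ≤ bY := by linarith
  have h1 : (1 : ℝ) / a ^ 2 = 256 * ((R : ℝ) + 1) ^ 2 / η ^ 2 := by
    rw [ha]
    push_cast
    have : (R : ℝ) + 1 ≠ 0 := by positivity
    field_simp
    ring
  have h2 : 54 * K * bY + 9 * K ^ 2 * (32 / η) ≤ 84150 / η ^ 3 * (bY * bY) := by
    have e1 : K * bY ≤ 17 / η * bY * bY := mul_le_mul_of_nonneg_right hK hbY0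
    have e2 : K ^ 2 ≤ (17 / η * bY) ^ 2 := pow_le_pow_left₀ hK0 hK 2
    have e3 : 9 * K ^ 2 * (32 / η) ≤ 9 * (17 / η * bY) ^ 2 * (32 / η) := by gcongr
    have e4 : 9 * (17 / η * bY) ^ 2 * (32 / η) = 83232 / η ^ 3 * (bY * bY) := by
      field_simp
      ring
    have e5 : 54 * (17 / η * bY * bY) ≤ 918 / η ^ 3 * (bY * bY) := by
      have f1 : 54 * (17 / η * bY * bY) = 918 / η * (bY * bY) := by ring
      rw [f1]
      apply mul_le_mul_of_nonneg_right _ (by positivity)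
      apply div_le_div_of_nonneg_left (by norm_num) (by positivity)
      calc η ^ 3 = η * η ^ 2 := by ring
        _ ≤ η * 1 := mul_le_mul_of_nonneg_left (pow_le_one₀ hη.le (by linarith)) hη.le
        _ = η := mul_one η
    have e6 : 84150 / η ^ 3 * (bY * bY) = 918 / η ^ 3 * (bY * bY) + 83232 / η ^ 3 * (bY * bY) := by ring
    linarith
  have h3 : bY * bY * (1 + bL / p) ≤ 22 / η * (bL * bY) := by
    have e1 : bY / p ≤ 21 / η := by
      rw [div_le_iff₀ (by linarith)]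
      exact hbY
    have e2 : bY * bY * (1 + bL / p) = bY * bY + (bY / p) * (bL * bY) := by
      have : p ≠ 0 := by linarith
      field_simp
    have e3 : bY * bY ≤ bL * bY := mul_le_mul_of_nonneg_right hbYL hbY0
    have e4 : (bY / p) * (bL * bY) ≤ 21 / η * (bL * bY) := mul_le_mul_of_nonneg_right e1 (by positivity)
    have e5 : bL * bY ≤ 1 / η * (bL * bY) := by
      have : 0 ≤ bL * bY := by positivity
      nlinarith
    have e6 : 22 / η * (bL * bY) = 1 / η * (bL * bY) + 21 / η * (bL * bY) := by ring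
    linarith
  have h4 : bL * bY ≤ 441 / η ^ 2 * (q * p) := by
    calc bL * bY ≤ (21 / η * q) * (21 / η * p) := mul_le_mul hbL hbY (by linarith) (by positivity)
      _ = _ := by
        field_simp
        ring
  have h5 : ((R : ℝ) + 1) ^ 2 ≤ 4 * x ^ 3 := by
    calc ((R : ℝ) + 1) ^ 2 ≤ (2 * x) ^ 2 := pow_le_pow_left₀ (by linarith) hR 2
      _ = 4 * (x ^ 2 * 1) := by ring
      _ ≤ 4 * (x ^ 2 * x) := by gcongr
      _ = _ := by ring
  have h6 : nn * (1 + bL / p) ≤ (84150 / η ^ 3 * (bY * bY)) * (1 / a ^ 2) * (1 + bL / p) := by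
    apply mul_le_mul_of_nonneg_right _ (by positivity)
    refine hn.trans ?_
    rw [← div_eq_mul_one_div]
    exact div_le_div_of_nonneg_right h2 (by positivity)
  calc 2 * nn * (1 + bL / p) = 2 * (nn * (1 + bL / p)) := by ring
    _ ≤ 2 * ((84150 / η ^ 3 * (bY * bY)) * (1 / a ^ 2) * (1 + bL / p)) := by linarith
    _ = 168300 / η ^ 3 * (1 / a ^ 2) * (bY * bY * (1 + bL / p)) := by ring
    _ ≤ 168300 / η ^ 3 * (1 / a ^ 2) * (22 / η * (bL * bY)) := by
        apply mul_le_mul_of_nonneg_left h3 (by positivity)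
    _ ≤ 168300 / η ^ 3 * (1 / a ^ 2) * (22 / η * (441 / η ^ 2 * (q * p))) := by
        apply mul_le_mul_of_nonneg_left _ (by positivity)
        exact mul_le_mul_of_nonneg_left h4 (by positivity)
    _ = 168300 / η ^ 3 * (256 * ((R : ℝ) + 1) ^ 2 / η ^ 2) * (22 / η * (441 / η ^ 2 * (q * p))) := by rw [h1]
    _ ≤ 168300 / η ^ 3 * (256 * (4 * x ^ 3) / η ^ 2) * (22 / η * (441 / η ^ 2 * (q * p))) := by gcongr
    _ = 1672034918400 / η ^ 8 * (q * p * x ^ 3) := by
        field_simp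
        ring
    _ ≤ _ := by
        apply mul_le_mul_of_nonneg_right _ (by positivity)
        apply div_le_div_of_nonneg_right (by norm_num) (by positivity)


variable {G : Type*} [AddCommGroup G] [Fintype G] [DecidableEq G]

/-- **The last step.** -/
theorem last_gen (L Y S₀ : Finset G) (hL : L.Nonempty) (hY : Y.Nonempty) (r M : ℕ) (hr : r + 1 ≤ M)
    (a θ κ c : ℝ) (ha : 0 < a) (ha1 : a ≤ 1) (hθ : 1 / 2 + 2 * a ≤ θ) (η : ℝ) (hη : 0 < η)
    (hη1 : η ≤ 1 / 2) (hθ' : 1 - η + 3 / 2 * a ≤ θ)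
    (h : Sta L Y S₀ r a θ κ c) (K : ℕ) (hK : 8 ≤ K)
    (b : ℝ) (hb0 : 0 < b) (hb : 4 * ((L + Y).card : ℝ) ≤ Real.exp b * (a ^ M * Y.card)) (hbK : 16 * b ≤ η * K)
    (n : ℕ) (hn : 8 * K ^ 2 / a ^ 2 * (6 * b / K + Real.log (8 / (η / 4))) ≤ n) :
    ∃ P L' T : Finset G, P.Nonempty ∧ L'.Nonempty ∧ T.Nonempty ∧
      Real.log (Fintype.card G / T.card) ≤ c + 2 + 2 * ((n : ℝ) + 1) * κ ∧
      (∀ t ∈ T, ∀ t' ∈ T, (1 - η) * (L'.card : ℝ) ≤ ((L'.filter fun z => z + (t - t') ∈ L').card : ℝ)) ∧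
      ∀ z ∈ L', 1 - η ≤ hm (uni P) (L + Y) z := by
  classical
  obtain ⟨P, Q, S, hP, hQ, hS, hSS, hPL, hQY, hPc, hQc, hθP, hκ, hc⟩ := h
  have hYpos : (0 : ℝ) < Y.card := by exact_mod_cast hY.card_pos
  have hW : (L + Y).Nonempty := hL.add hY
  have hKpos : (0 : ℝ) < K := by exact_mod_cast (show 0 < K by omega)
  have har : a ^ M ≤ a ^ (r + 1) := pow_le_pow_of_le_one ha.le ha1 hr
  have h1 : a ^ (r + 1) * Y.card ≤ ((lev (L + Y) P (θ - a)).card : ℝ) := by
    have h2 := lev_large P Q (L + Y) hP hQ θ a ha hθP (by linarith)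
    calc a ^ (r + 1) * Y.card = a * (a ^ r * Y.card) := by ring
      _ ≤ a * Q.card := mul_le_mul_of_nonneg_left hQc ha.le
      _ ≤ _ := h2
  have h1' : a ^ M * Y.card ≤ ((lev (L + Y) P (θ - a)).card : ℝ) :=
    (mul_le_mul_of_nonneg_right har hYpos.le).trans h1
  have hlevpos : (0 : ℝ) < ((lev (L + Y) P (θ - a)).card : ℝ) :=
    lt_of_lt_of_le (by positivity) h1
  have hne : (lev (L + Y) P (θ - a)).Nonempty := by
    rw [← card_pos]
    exact_mod_cast hlevpos
  have hb' : 4 * ((L + Y).card : ℝ) ≤ Real.exp b * (lev (L + Y) P (θ - a)).card :=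
    hb.trans (mul_le_mul_of_nonneg_left h1' (Real.exp_pos _).le)
  obtain ⟨θ', hθ1, hθ2, T, Qs, L'', hTS, hT, hTc, hLL, hLc, hq1, hq2⟩ :=
    level_step (L + Y) P S hP hS hW κ hκ K hK a (θ - a) ha ha1 (by linarith) hne b hb0 hb' (η / 4) (by positivity)
      (by linarith) n hn
  have hmono := lev_mono (L + Y) P (θ - a) θ' hθ2
  have hPne : (lev (L + Y) P θ').Nonempty := hne.mono hmono
  have hcard : ((lev (L + Y) P (θ - a)).card : ℝ) ≤ (lev (L + Y) P θ').card := by
    exact_mod_cast card_le_card hmono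
  have hlev'pos : (0 : ℝ) < ((lev (L + Y) P θ').card : ℝ) := lt_of_lt_of_le hlevpos hcard
  refine ⟨P, lev (L + Y) P θ', T, hP, hPne, hT, ?_, ?_, ?_⟩
  · have hTpos : (0 : ℝ) < T.card := by exact_mod_cast hT.card_pos
    have hSpos : (0 : ℝ) < S.card := by exact_mod_cast hS.card_pos
    have hGpos : (0 : ℝ) < Fintype.card G := by
      have : Nonempty G := ⟨0⟩
      exact_mod_cast Fintype.card_pos
    have e1 : Real.log S.card ≤ Real.log 4 + 2 * ((n : ℝ) + 1) * κ + Real.log T.card := by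
      have := Real.log_le_log hSpos hTc
      rw [Real.log_mul (by positivity) hTpos.ne', Real.log_mul (by norm_num) (Real.exp_pos _).ne', Real.log_exp] at this
      exact this
    have e2 := log_four_le
    rw [Real.log_div hGpos.ne' hTpos.ne']
    rw [Real.log_div hGpos.ne' hSpos.ne'] at hc
    linarith
  · intro t ht t' ht'
    obtain ⟨l, hl⟩ : ∃ l : ℝ, l = (lev (L + Y) P θ').card := ⟨_, rfl⟩
    obtain ⟨V, hV⟩ : ∃ V : Finset G, V = lev (L + Y) P θ' := ⟨_, rfl⟩
    rw [← hV] at hq1 hq2 hLL hLc hlev'pos ⊢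
    have e0 : Real.exp (4 * b / K) ≤ 1 + 3 / 10 * η := by
      have f1 : 4 * b / K ≤ η / 4 := by
        rw [div_le_iff₀ hKpos]
        linarith
      have f2 : Real.exp (4 * b / K) ≤ Real.exp (η / 4) := Real.exp_le_exp.2 f1
      have f3 := Real.exp_bound_div_one_sub_of_interval (x := (η / 4 : ℝ)) (by positivity) (by linarith)
      have f4 : (1 : ℝ) / (1 - η / 4) ≤ 1 + 3 / 10 * η := by
        rw [div_le_iff₀ (by linarith)]
        nlinarith
      linarith
    have e1 := hq1 t' ht'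
    have e2 := hq2 t ht
    -- the exceptional elements
    have e3 : ((V.filter fun z => ¬ z + (t - t') ∈ V).card : ℝ) ≤
        (V.filter fun z => z - t' ∉ Qs).card + ((Qs.filter fun v => v + t ∉ L'').card + (L'' \ V).card) := by
      have g1 : (V.filter fun z => ¬ z + (t - t') ∈ V) ⊆ (V.filter fun z => z - t' ∉ Qs) ∪
          (((Qs.filter fun v => v + t ∉ L'').image fun v => v + t') ∪ ((L'' \ V).image fun u => u - (t - t'))) := by
        intro z hz
        rw [mem_filter] at hz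
        rw [mem_union, mem_union, mem_image, mem_image]
        by_cases k1 : z - t' ∈ Qs
        · right
          by_cases k2 : z - t' + t ∈ L''
          · right
            refine ⟨z + (t - t'), ?_, by abel⟩
            rw [mem_sdiff]
            refine ⟨?_, hz.2⟩
            have : z + (t - t') = z - t' + t := by abel
            rw [this]
            exact k2
          · left
            refine ⟨z - t', ?_, by abel⟩
            rw [mem_filter]
            exact ⟨k1, k2⟩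
        · left
          rw [mem_filter]
          exact ⟨hz.1, k1⟩
      have g2 := card_le_card g1
      have g3 := card_union_le (V.filter fun z => z - t' ∉ Qs)
        (((Qs.filter fun v => v + t ∉ L'').image fun v => v + t') ∪ ((L'' \ V).image fun u => u - (t - t')))
      have g4 := card_union_le ((Qs.filter fun v => v + t ∉ L'').image fun v => v + t')
        ((L'' \ V).image fun u => u - (t - t'))
      have g5 := card_image_le (s := Qs.filter fun v => v + t ∉ L'') (f := fun v => v + t')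
      have g6 := card_image_le (s := L'' \ V) (f := fun u => u - (t - t'))
      exact_mod_cast (show (V.filter fun z => ¬ z + (t - t') ∈ V).card ≤
        (V.filter fun z => z - t' ∉ Qs).card + ((Qs.filter fun v => v + t ∉ L'').card + (L'' \ V).card) by omega)
    have e4 : ((L'' \ V).card : ℝ) = L''.card - V.card := by
      rw [cast_card_sdiff hLL]
    have e5 : (V.card : ℝ) = (V.filter fun z => z + (t - t') ∈ V).card + (V.filter fun z => ¬ z + (t - t') ∈ V).card := by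
      have := card_filter_add_card_filter_not (s := V) (fun z => z + (t - t') ∈ V)
      exact_mod_cast this.symm
    have e6 : (L''.card : ℝ) ≤ (1 + 3 / 10 * η) * V.card :=
      hLc.trans (mul_le_mul_of_nonneg_right e0 hlev'pos.le)
    have e7 : 0 ≤ η * (V.card : ℝ) := by positivity
    linarith
  · intro z hz
    rw [mem_lev] at hz
    linarith


/-- **The loop.** -/
theorem loop_gen (L Y S₀ S₁ : Finset G) (hL : L.Nonempty) (hY : Y.Nonempty) (hS₀ : -S₀ = S₀) (hS₁ : S₁ ⊆ S₀)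
    (hS₁n : S₁.Nonempty) (R M : ℕ)
    (hM : 2 * R ≤ M) (a bY bL B lam : ℝ) (ha : 0 < a) (ha1 : a ≤ 1) (hθ : 4 * a + 3 * a * R ≤ 1 / 2)
    (hKb : (8 * 2 ^ R : ℝ) ≤ 16 * bY) (hb1 : 1 ≤ bY) (hbb : bY ≤ bL)
    (hbY : 4 * ((L + Y).card : ℝ) ≤ Real.exp bY * (a ^ M * Y.card))
    (hbL : 4 * ((L + Y).card : ℝ) ≤ Real.exp bL * (a ^ M * L.card)) (hB0 : 0 ≤ B)
    (hBY : ((Y + ms (dif L Y) M + S₀).card : ℝ) ≤ Real.exp B * (a ^ M * Y.card))
    (hBL : ((L + ms (dif L Y) M + S₀).card : ℝ) ≤ Real.exp B * (a ^ M * L.card))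
    (hlam : lam = Real.log (8 / (1 / (100 * (1 + B)))))
    (hκ : ent (cv (uni L) S₁) - ent (uni L) ≤ 1 + bL) (i : ℕ) (hi : i ≤ R) :
    Sta L Y S₀ (2 * i) a (1 - 3 * a * i) (1 + 8 * bL / ((8 * 2 ^ i : ℕ) : ℝ))
      (Real.log (Fintype.card G / S₁.card) + 17500 * (bL * bY * lam / a ^ 2) * i) := by
  induction i with
  | zero =>
    refine ⟨L, Y, S₁, hL, hY, hS₁n, hS₁, ?_, ?_, ?_, ?_, ?_, ?_, ?_⟩
    · intro x hx
      exact mem_add.2 ⟨x, hx, 0, mem_singleton_self 0, add_zero x⟩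
    · intro x hx
      exact mem_add.2 ⟨x, hx, 0, mem_singleton_self 0, add_zero x⟩
    · simp
    · simp
    · intro p hp
      have hYpos : (0 : ℝ) < Y.card := by exact_mod_cast hY.card_pos
      rw [hm_uni_eq]
      have : ∑ y ∈ Y, ind (L + Y) (y + p) = Y.card := by
        rw [sum_congr rfl (g := fun _ => (1 : ℝ)) (fun y hy => ?_), sum_const, nsmul_eq_mul, mul_one]
        unfold ind
        rw [if_pos]
        rw [add_comm y p]
        exact add_mem_add hp hy
      rw [this, div_self hYpos.ne']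
      simp
    · refine hκ.trans (le_of_eq ?_)
      norm_num
    · simp
  | succ i ih =>
    have h1 := ih (by omega)
    have hiR : ((i : ℝ) + 1) ≤ R := by exact_mod_cast hi
    have hK : (8 * 2 ^ i : ℝ) ≤ 16 * bY := by
      refine le_trans ?_ hKb
      have : (2 : ℝ) ^ i ≤ 2 ^ R := pow_le_pow_right₀ (by norm_num) (by omega)
      linarith
    have h2 := double_step L Y S₀ hL hY hS₀ (2 * i) M (by omega) a (1 - 3 * a * i) _ bY bL B lam ha ha1
      (by
        have : 3 * a * ((i : ℝ) + 1) ≤ 3 * a * R := mul_le_mul_of_nonneg_left hiR (by linarith)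
        have e : 3 * a * ((i : ℝ) + 1) = 3 * a * i + 3 * a := by ring
        linarith) (8 * 2 ^ i)
      (by have : 1 ≤ 2 ^ i := Nat.one_le_two_pow; omega) (by push_cast; exact hK) hb1 hbb hbY hbL hB0 hBY hBL hlam h1
    have e1 : 2 * (i + 1) = 2 * i + 2 := by ring
    have e2 : 8 * 2 ^ (i + 1) = 2 * (8 * 2 ^ i) := by ring
    rw [e1, e2]
    refine h2.mono (le_of_eq ?_) le_rfl (le_of_eq ?_)
    · push_cast
      ring
    · push_cast
      ring


end Pool.Agent.H89.LV
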