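import Pool.Agent.H89.LV.Gen

/-!
# The general form of the main theorem
-/

set_option autoImplicit false
set_option linter.unusedSectionVars false
set_option linter.unusedVariables false

namespace Pool.Agent.H89.LV

open Finset Pool.Agent.K4H60.BZ Pool.Agent.H89.EN
open scoped Pointwise BigOperators ComplexConjugate

variable {G : Type*} [AddCommGroup G] [Fintype G] [DecidableEq G]

theorem ent_cv_le (L S₁ : Finset G) (hL : L.Nonempty) (hS₁ : S₁.Nonempty) (q : ℝ)
    (hκ : ((L + S₁).card : ℝ) ≤ Real.exp q * L.card) : ent (cv (uni L) S₁) - ent (uni L) ≤ q := by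
  have h1 : ent (cv (uni L) S₁) ≤ Real.log (L + S₁).card := by
    refine ent_le_log _ (cv_prob (uni_prob hL) hS₁) (L + S₁) ?_
    intro x hx
    by_contra hcon
    apply hx
    unfold cv
    rw [sum_eq_zero, zero_div]
    intro s hs
    by_contra h2
    apply hcon
    have h3 := uni_supp L _ h2
    have h4 : x = (x - s) + s := by abel
    rw [h4]
    exact add_mem_add h3 hs
  have hLpos : (0 : ℝ) < L.card := by exact_mod_cast hL.card_pos
  have h2 : Real.log (L + S₁).card ≤ q + Real.log L.card := by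
    have h3 : (0 : ℝ) < (L + S₁).card := by exact_mod_cast (hL.add hS₁).card_pos
    have := Real.log_le_log h3 hκ
    rw [Real.log_mul (Real.exp_pos _).ne' hLpos.ne', Real.log_exp] at this
    exact this
  rw [ent_uni hL]
  linarith

/-- **The main theorem**, general form: a large set `T` moves at most the proportion `η` of a set `L'` out of `L'`, and
`y + z ∈ L + Y` for nearly all `y ∈ P`, for all `z ∈ L'`. -/
theorem main_gen (L Y S₀ S₁ : Finset G) (hL : L.Nonempty) (hY : Y.Nonempty) (hS₀ : -S₀ = S₀) (hS₁ : S₁ ⊆ S₀)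
    (hS₁n : S₁.Nonempty) (η : ℝ) (hη : 0 < η) (hη1 : η ≤ 1 / 4)
    (p q B₀ : ℝ) (hp1 : 1 ≤ p) (hpq : p ≤ q) (hB₀ : 0 ≤ B₀) (hp : 4 * ((L + Y).card : ℝ) ≤ Real.exp p * Y.card)
    (hq : 4 * ((L + Y).card : ℝ) ≤ Real.exp q * L.card) (hκ : ((L + S₁).card : ℝ) ≤ Real.exp q * L.card)
    (hBY : ∀ m : ℕ, (m : ℝ) ≤ 4 * (1 + Real.log p) →
      ((Y + ms (dif L Y) m + S₀).card : ℝ) ≤ Real.exp B₀ * Y.card)
    (hBL : ∀ m : ℕ, (m : ℝ) ≤ 4 * (1 + Real.log p) →
      ((L + ms (dif L Y) m + S₀).card : ℝ) ≤ Real.exp B₀ * L.card) :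
    ∃ P L' T : Finset G, P.Nonempty ∧ L'.Nonempty ∧ T.Nonempty ∧
      Real.log (Fintype.card G / T.card) ≤ Real.log (Fintype.card G / S₁.card) +
        10 ^ 14 / η ^ 8 * (q * p * (1 + Real.log p) ^ 3 * Real.log (2 + B₀ + p)) ∧
      (∀ t ∈ T, ∀ t' ∈ T, (1 - η) * (L'.card : ℝ) ≤ ((L'.filter fun z => z + (t - t') ∈ L').card : ℝ)) ∧
      ∀ z ∈ L', 1 - η ≤ hm (uni P) (L + Y) z := by
  classical
  obtain ⟨R, hR1, hR2, hR3⟩ := steps p hp1
  obtain ⟨M, hM⟩ : ∃ M : ℕ, M = 2 * R + 2 := ⟨_, rfl⟩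
  have hMR : (M : ℝ) = 2 * ((R : ℝ) + 1) := by rw [hM]; push_cast; ring
  have hRn : (0 : ℝ) ≤ R := Nat.cast_nonneg R
  have hMpos : (0 : ℝ) < M := by rw [hMR]; positivity
  have hM2 : (2 : ℝ) ≤ M := by rw [hMR]; linarith
  obtain ⟨a, ha⟩ : ∃ a : ℝ, a = η / (8 * (M : ℝ)) := ⟨_, rfl⟩
  have ha0 : 0 < a := by rw [ha]; positivity
  have haM : a * M = η / 8 := by
    rw [ha]
    field_simp
  have haM' : a * ((R : ℝ) + 1) = η / 16 := by
    rw [hMR] at haM
    linarith
  have haR : a + a * R = η / 16 := by linarith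
  have haR0 : 0 ≤ a * R := by positivity
  have ha1 : a ≤ η / 16 := by linarith
  obtain ⟨u, hu⟩ : ∃ u : ℝ, u = (M : ℝ) * Real.log (8 * (M : ℝ) / η) := ⟨_, rfl⟩
  have hu1 : u ≤ 20 / η * p := by
    rw [hu, hM]
    exact logM_gen p η hp1 hη (by linarith) R hR2 hR3
  have hu0 : 0 ≤ u := by
    rw [hu]
    apply mul_nonneg hMpos.le
    apply Real.log_nonneg
    rw [le_div_iff₀ hη]
    linarith
  have hau : Real.exp u * a ^ M = 1 := by
    rw [hu, Real.exp_nat_mul, Real.exp_log (by positivity), ← mul_pow, ha]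
    have : 8 * (M : ℝ) / η * (η / (8 * (M : ℝ))) = 1 := by
      field_simp
    rw [this, one_pow]
  have hconv : ∀ (X Z : Finset G) (s : ℝ) (t : ℝ), t * (X.card : ℝ) ≤ Real.exp s * Z.card →
      t * (X.card : ℝ) ≤ Real.exp (s + u) * (a ^ M * Z.card) := by
    intro X Z s t h
    refine h.trans (le_of_eq ?_)
    rw [Real.exp_add]
    calc Real.exp s * (Z.card : ℝ) = Real.exp s * Z.card * (Real.exp u * a ^ M) := by rw [hau, mul_one]
      _ = _ := by ring
  have hM4 : (M : ℝ) ≤ 4 * (1 + Real.log p) := by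
    rw [hMR]
    linarith
  have hlogp : 0 ≤ Real.log p := Real.log_nonneg hp1
  have hη2 : 4 ≤ 1 / η := by
    rw [le_div_iff₀ hη]
    linarith
  have hpη : p ≤ 1 / η * p := by nlinarith
  have hqη : q ≤ 1 / η * q := by nlinarith
  have hbY21 : p + u ≤ 21 / η * p := by
    have : 21 / η * p = 1 / η * p + 20 / η * p := by ring
    linarith
  have hbL21 : q + u ≤ 21 / η * q := by
    have e1 : 21 / η * q = 1 / η * q + 20 / η * q := by ring
    have e2 : 20 / η * p ≤ 20 / η * q := by gcongr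
    linarith
  obtain ⟨B, hB⟩ : ∃ B : ℝ, B = B₀ + u := ⟨_, rfl⟩
  obtain ⟨lam, hlam⟩ : ∃ lam : ℝ, lam = Real.log (8 / (1 / (100 * (1 + B)))) := ⟨_, rfl⟩
  have hB0 : 0 ≤ B := by rw [hB]; positivity
  have hlam1 : 1 ≤ lam := by rw [hlam]; exact (log_eps B hB0).1
  obtain ⟨V, hV⟩ : ∃ V : ℝ, V = (q + u) * (p + u) * lam / a ^ 2 := ⟨_, rfl⟩
  have hent : ent (cv (uni L) S₁) - ent (uni L) ≤ 1 + (q + u) := by
    have := ent_cv_le L S₁ hL hS₁n q hκ
    linarith
  have hbY : 4 * ((L + Y).card : ℝ) ≤ Real.exp (p + u) * (a ^ M * Y.card) := hconv _ _ _ _ hp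
  have hbL : 4 * ((L + Y).card : ℝ) ≤ Real.exp (q + u) * (a ^ M * L.card) := hconv _ _ _ _ hq
  have h1 := loop_gen L Y S₀ S₁ hL hY hS₀ hS₁ hS₁n R M (by omega) a (p + u) (q + u) B lam ha0 (by linarith)
    (by linarith) (by linarith) (by linarith) (by linarith) hbY hbL
    hB0 (by
      have := hconv (Y + ms (dif L Y) M + S₀) Y B₀ 1 (by rw [one_mul]; exact hBY M hM4)
      rw [one_mul] at this
      rw [hB]
      exact this) (by
      have := hconv (L + ms (dif L Y) M + S₀) L B₀ 1 (by rw [one_mul]; exact hBL M hM4)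
      rw [one_mul] at this
      rw [hB]
      exact this) hlam hent R le_rfl
  rw [← hV] at h1
  -- the last step
  obtain ⟨K, hK⟩ : ∃ K : ℕ, K = ⌈16 / η * (p + u)⌉₊ := ⟨_, rfl⟩
  have hpu : 1 ≤ p + u := by linarith
  have hpuη : 4 ≤ 1 / η * (p + u) := by nlinarith
  have hK1 : 16 / η * (p + u) ≤ K := by rw [hK]; exact Nat.le_ceil _
  have hK2 : (K : ℝ) ≤ 17 / η * (p + u) := by
    have := Nat.ceil_lt_add_one (show 0 ≤ 16 / η * (p + u) by positivity)
    rw [← hK] at this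
    have e : 17 / η * (p + u) = 16 / η * (p + u) + 1 / η * (p + u) := by ring
    linarith
  have hK16 : 16 / η * (p + u) = 16 * (1 / η * (p + u)) := by ring
  have hK8 : 8 ≤ K := by
    have : (8 : ℝ) ≤ K := by linarith
    exact_mod_cast this
  have hlamf : 1 ≤ Real.log (8 / (η / 4)) := by
    rw [Real.le_log_iff_exp_le (by positivity), le_div_iff₀ (by positivity)]
    have := Real.exp_one_lt_d9
    nlinarith
  have hlamf' : Real.log (8 / (η / 4)) ≤ 32 / η := by
    have e : 8 / (η / 4) = 32 / η := by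
      field_simp
      norm_num
    rw [e]
    have := Real.log_le_sub_one_of_pos (show 0 < 32 / η by positivity)
    linarith
  obtain ⟨n, hn1, hn2⟩ := samples K hK8 a (p + u) (Real.log (8 / (η / 4))) ha0 (by linarith) (by linarith) hlamf
  obtain ⟨P, L', T, hP, hL', hT, hTc, h09, hsub⟩ := last_gen L Y S₀ hL hY (2 * R) M (by omega) a _ _ _ ha0 (by linarith)
    (by linarith) η hη (by linarith) (by linarith) h1 K hK8 (p + u) (by linarith) hbY
    (by
      have e : η * (16 / η * (p + u)) = 16 * (p + u) := by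
        field_simp
      have := mul_le_mul_of_nonneg_left hK1 hη.le
      linarith) n hn1
  refine ⟨P, L', T, hP, hL', hT, hTc.trans ?_, h09, hsub⟩
  have e1 : 1 + 8 * (q + u) / ((8 * 2 ^ R : ℕ) : ℝ) ≤ 1 + (q + u) / p := by
    push_cast
    have : 8 * (q + u) / (8 * 2 ^ R : ℝ) = (q + u) / 2 ^ R := by
      field_simp
    rw [this]
    have : (q + u) / 2 ^ R ≤ (q + u) / p := div_le_div_of_nonneg_left (by linarith) (by linarith) hR1
    linarith
  have hx1 : 1 ≤ 1 + Real.log p := by linarith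
  have e2 := cost_two p q (1 + Real.log p) η K R hp1 hpq hx1 hR3 hη (by linarith) (p + u) (q + u) a ((n : ℝ) + 1)
    (by rw [ha, hM]) hbY21 hbL21 hpu (by linarith) (by positivity) hK2 (by positivity)
    (hn2.trans (by
      apply div_le_div_of_nonneg_right _ (by positivity)
      have : 9 * (K : ℝ) ^ 2 * Real.log (8 / (η / 4)) ≤ 9 * (K : ℝ) ^ 2 * (32 / η) :=
        mul_le_mul_of_nonneg_left hlamf' (by positivity)
      linarith))
  have e3 := cost_one p q lam (1 + Real.log p) η R hp1 hpq hlam1 hR3 hη (p + u) (q + u) a (by rw [ha, hM]) hbY21 hbL21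
    hpu (by linarith)
  rw [← hV] at e3
  obtain ⟨Z, hZ⟩ : ∃ Z : ℝ, Z = q * p * (1 + Real.log p) ^ 3 := ⟨_, rfl⟩
  rw [← hZ] at e2 e3 ⊢
  have hq0 : 0 ≤ q := by linarith
  have hZ1 : 1 ≤ Z := by
    rw [hZ]
    have g1 : 1 ≤ q * p := by nlinarith
    have g2 : 1 ≤ (1 + Real.log p) ^ 3 := one_le_pow₀ hx1
    nlinarith
  obtain ⟨y, hy⟩ : ∃ y : ℝ, y = 2 + B₀ + p := ⟨_, rfl⟩
  have hy3 : 3 ≤ y := by linarith
  have hlogy : 1 ≤ Real.log y := by
    rw [Real.le_log_iff_exp_le (by linarith)]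
    have := Real.exp_one_lt_d9
    linarith
  have e7 : lam ≤ 11 / η * Real.log y := by
    have g1 : (8 : ℝ) / (1 / (100 * (1 + B))) = 800 * (1 + B) := by
      rw [div_div_eq_mul_div, div_one]
      ring
    have g2 : 800 * (1 + B) ≤ y ^ 10 / η := by
      have k1 : 800 * (1 + B) ≤ 16000 / η * y := by
        have k2 : 1 + B₀ ≤ 1 / η * (1 + B₀) := by nlinarith
        have k3 : 16000 / η * y = 16000 * (1 / η * (2 + B₀ + p)) := by rw [hy]; ring
        have k4 : 20 / η * p = 20 * (1 / η * p) := by ring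
        have k5 : 1 / η * (2 + B₀ + p) = 1 / η * (1 + B₀) + 1 / η + 1 / η * p := by ring
        rw [k3, k5, hB]
        have k6 : 0 ≤ 1 / η * p := by positivity
        linarith
      have k2 : (3 : ℝ) ^ 9 ≤ y ^ 9 := pow_le_pow_left₀ (by norm_num) hy3 9
      have k3 : y ^ 10 / η = y ^ 9 / η * y := by ring
      rw [k3]
      refine k1.trans (mul_le_mul_of_nonneg_right ?_ (by linarith))
      apply div_le_div_of_nonneg_right _ hη.le
      refine le_trans ?_ k2
      norm_num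
    rw [hlam, g1]
    calc Real.log (800 * (1 + B)) ≤ Real.log (y ^ 10 / η) := Real.log_le_log (by positivity) g2
      _ = 10 * Real.log y + Real.log (1 / η) := by
        rw [div_eq_mul_one_div, Real.log_mul (by positivity) (by positivity), Real.log_pow]
        norm_num
      _ ≤ 10 * Real.log y + 1 / η := by
        have := Real.log_le_sub_one_of_pos (show 0 < 1 / η by positivity)
        linarith
      _ ≤ 11 / η * Real.log y := by
        have k1 : 10 * Real.log y ≤ 10 * (1 / η * Real.log y) := by nlinarith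
        have k2 : 1 / η ≤ 1 / η * Real.log y := by
          have : 0 ≤ 1 / η := by positivity
          nlinarith
        have k3 : 11 / η * Real.log y = 10 * (1 / η * Real.log y) + 1 / η * Real.log y := by ring
        linarith
  rw [← hy]
  have hη8 : 0 < η ^ 8 := by positivity
  have f1 : 10 ^ 6 / η ^ 4 * (Z * lam) ≤ 10 ^ 8 / η ^ 8 * (Z * Real.log y) := by
    have g1 : Z * lam ≤ Z * (11 / η * Real.log y) := mul_le_mul_of_nonneg_left e7 (by linarith)
    calc 10 ^ 6 / η ^ 4 * (Z * lam) ≤ 10 ^ 6 / η ^ 4 * (Z * (11 / η * Real.log y)) := by gcongr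
      _ = 11 * 10 ^ 6 / η ^ 5 * (Z * Real.log y) := by
          field_simp
      _ ≤ 10 ^ 8 / η ^ 8 * (Z * Real.log y) := by
          apply mul_le_mul_of_nonneg_right _ (by positivity)
          have k1 : η ^ 8 ≤ η ^ 5 := pow_le_pow_of_le_one hη.le (by linarith) (by norm_num)
          calc 11 * 10 ^ 6 / η ^ 5 ≤ 11 * 10 ^ 6 / η ^ 8 := div_le_div_of_nonneg_left (by norm_num) hη8 k1
            _ ≤ _ := div_le_div_of_nonneg_right (by norm_num) hη8.le
  have f2 : 2 * 10 ^ 12 / η ^ 8 * Z ≤ 2 * 10 ^ 12 / η ^ 8 * (Z * Real.log y) := by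
    apply mul_le_mul_of_nonneg_left _ (by positivity)
    nlinarith
  have f3 : 2 * ((n : ℝ) + 1) * (1 + 8 * (q + u) / ((8 * 2 ^ R : ℕ) : ℝ)) ≤ 2 * ((n : ℝ) + 1) * (1 + (q + u) / p) :=
    mul_le_mul_of_nonneg_left e1 (by positivity)
  have f4 : 17500 * V * R ≤ 17500 * (V * ((R : ℝ) + 1)) := by
    have : 0 ≤ V := by rw [hV]; have : 0 ≤ q + u := by linarith
                       positivity
    linarith
  have f5 : 17500 * (V * ((R : ℝ) + 1)) ≤ 17500 * (10 ^ 8 / η ^ 8 * (Z * Real.log y)) := by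
    have := e3.trans f1
    linarith
  have f6 : 2 ≤ 2 / η ^ 8 * (Z * Real.log y) := by
    have k1 : 1 ≤ 1 / η ^ 8 := by
      rw [le_div_iff₀ hη8, one_mul]
      exact pow_le_one₀ hη.le (by linarith)
    have k2 : 1 ≤ Z * Real.log y := by nlinarith
    have k3 : 1 ≤ 1 / η ^ 8 * (Z * Real.log y) := by nlinarith
    have k4 : 2 / η ^ 8 * (Z * Real.log y) = 2 * (1 / η ^ 8 * (Z * Real.log y)) := by ring
    linarith
  have f7 : 10 ^ 14 / η ^ 8 * (Z * Real.log y) = 17500 * (10 ^ 8 / η ^ 8 * (Z * Real.log y)) +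
      2 * 10 ^ 12 / η ^ 8 * (Z * Real.log y) + 2 / η ^ 8 * (Z * Real.log y) +
      (10 ^ 14 - 17500 * 10 ^ 8 - 2 * 10 ^ 12 - 2) / η ^ 8 * (Z * Real.log y) := by ring
  have f8 : 0 ≤ (10 ^ 14 - 17500 * 10 ^ 8 - 2 * 10 ^ 12 - 2) / η ^ 8 * (Z * Real.log y) := by
    apply mul_nonneg _ (by positivity)
    apply div_nonneg _ hη8.le
    norm_num
  rw [f7]
  linarith

end Pool.Agent.H89.LV
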