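import Pool.Agent.H89.LV.GenMain
import Pool.Graph.R_pool_sql_team_seeded_c8625f6e.K4H60.BZ.ZN

/-!
# Almost all of a translate
-/

set_option autoImplicit false
set_option linter.unusedSectionVars false
set_option linter.unusedVariables false

namespace Pool.Agent.H89.LV

open Finset Pool.Agent.K4H60.BZ Pool.Agent.H89.EN
open scoped Pointwise BigOperators ComplexConjugate

section general

variable {G : Type*} [AddCommGroup G] [Fintype G] [DecidableEq G]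

/-- almost all of a translate of `B` is in `W` -/
theorem translate_of_inv (W P L' B : Finset G) (hP : P.Nonempty) (hL' : L'.Nonempty) (hB : B.Nonempty) (η : ℝ)
    (hη : 0 < η) (hη1 : η ≤ 1 / 4) (h1 : ∀ x ∈ B, (1 - 4 * η) * (L'.card : ℝ) ≤ ((L'.filter fun z => z + x ∈ L').card : ℝ))
    (h2 : ∀ z ∈ L', 1 - η ≤ hm (uni P) W z) :
    ∃ t : G, (1 - 5 * η) * (B.card : ℝ) ≤ ((B.filter fun x => t + x ∈ W).card : ℝ) := by
  classical
  have hPpos : (0 : ℝ) < P.card := by exact_mod_cast hP.card_pos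
  have hLpos : (0 : ℝ) < L'.card := by exact_mod_cast hL'.card_pos
  have hBpos : (0 : ℝ) < B.card := by exact_mod_cast hB.card_pos
  by_contra hcon
  push Not at hcon
  -- the sum over `y ∈ P`, `z ∈ L'`, `x ∈ B`
  have e1 : ∀ t : G, ((B.filter fun x => t + x ∈ W).card : ℝ) = ∑ x ∈ B, ind W (t + x) := by
    intro t
    unfold ind
    rw [sum_ite, sum_const_zero, add_zero, sum_const, nsmul_eq_mul, mul_one]
  have e2 : ∑ z ∈ L', ∑ y ∈ P, ∑ x ∈ B, ind W (z + y + x) < (1 - 5 * η) * B.card * P.card * L'.card := by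
    calc ∑ z ∈ L', ∑ y ∈ P, ∑ x ∈ B, ind W (z + y + x) < ∑ z ∈ L', ∑ y ∈ P, (1 - 5 * η) * (B.card : ℝ) := by
          refine sum_lt_sum_of_nonempty hL' fun z _ => sum_lt_sum_of_nonempty hP fun y _ => ?_
          rw [← e1]
          exact hcon _
      _ = _ := by
          simp only [sum_const, nsmul_eq_mul]
          ring
  have e3 : ∀ x ∈ B, (1 - 5 * η) * L'.card * P.card ≤ ∑ z ∈ L', ∑ y ∈ P, ind W (z + y + x) := by
    intro x hx
    have f1 : ∀ z ∈ L', (if z + x ∈ L' then (1 - η) * (P.card : ℝ) else 0) ≤ ∑ y ∈ P, ind W (z + y + x) := by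
      intro z _
      split_ifs with hz
      · have g1 := h2 _ hz
        rw [hm_uni_eq, le_div_iff₀ hPpos] at g1
        refine g1.trans (le_of_eq (sum_congr rfl fun y _ => ?_))
        congr 1
        abel
      · exact sum_nonneg fun y _ => ind_nonneg _ _
    calc (1 - 5 * η) * L'.card * P.card ≤ (1 - η) * P.card * ((1 - 4 * η) * L'.card) := by
          have g1 : (1 - 5 * η) ≤ (1 - η) * (1 - 4 * η) := by nlinarith
          have g2 : 0 ≤ (L'.card : ℝ) * P.card := by positivity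
          nlinarith
      _ ≤ (1 - η) * P.card * ((L'.filter fun z => z + x ∈ L').card : ℝ) := by
          apply mul_le_mul_of_nonneg_left (h1 x hx)
          apply mul_nonneg (by linarith) hPpos.le
      _ = ∑ z ∈ L', (if z + x ∈ L' then (1 - η) * (P.card : ℝ) else 0) := by
          rw [← sum_filter, sum_const, nsmul_eq_mul]
          ring
      _ ≤ _ := sum_le_sum f1
  have e4 : (1 - 5 * η) * B.card * P.card * L'.card ≤ ∑ z ∈ L', ∑ y ∈ P, ∑ x ∈ B, ind W (z + y + x) := by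
    calc (1 - 5 * η) * B.card * P.card * L'.card = ∑ x ∈ B, (1 - 5 * η) * L'.card * P.card := by
          rw [sum_const, nsmul_eq_mul]
          ring
      _ ≤ ∑ x ∈ B, ∑ z ∈ L', ∑ y ∈ P, ind W (z + y + x) := sum_le_sum e3
      _ = ∑ z ∈ L', ∑ y ∈ P, ∑ x ∈ B, ind W (z + y + x) := by
          rw [sum_comm]
          refine sum_congr rfl fun z _ => ?_
          rw [sum_comm]
  linarith

/-- differences -/
theorem diff_of_inv (W P L' : Finset G) (hP : P.Nonempty) (hL' : L'.Nonempty) (η : ℝ)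
    (hη : 0 < η) (hη1 : η < 1 / 4) (x : G) (h1 : (1 - 4 * η) * (L'.card : ℝ) ≤ ((L'.filter fun z => z + x ∈ L').card : ℝ))
    (h2 : ∀ z ∈ L', 1 - η ≤ hm (uni P) W z) : ∃ w₁ ∈ W, ∃ w₂ ∈ W, x = w₁ - w₂ := by
  have hLpos : (0 : ℝ) < L'.card := by exact_mod_cast hL'.card_pos
  have h3 : (0 : ℝ) < ((L'.filter fun z => z + x ∈ L').card : ℝ) := lt_of_lt_of_le (by nlinarith) h1
  have h4 : 0 < (L'.filter fun z => z + x ∈ L').card := by exact_mod_cast h3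
  obtain ⟨z, hz⟩ := card_pos.1 h4
  rw [mem_filter] at hz
  have h5 := sub_of_lev W P hP (3 / 4) le_rfl z (z + x) (by rw [mem_lev]; linarith [h2 z hz.1])
    (by rw [mem_lev]; linarith [h2 _ hz.2])
  rw [add_sub_cancel_left] at h5
  obtain ⟨w₁, hw₁, w₂, hw₂, hw⟩ := mem_sub.1 h5
  exact ⟨w₁, hw₁, w₂, hw₂, hw.symm⟩

/-- **The main theorem** in a finite abelian group: almost all of a translate. -/
theorem gen_group (L Y S₀ S₁ : Finset G) (hL : L.Nonempty) (hY : Y.Nonempty) (hS₀ : -S₀ = S₀) (hS₁ : S₁ ⊆ S₀)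
    (hS₁n : S₁.Nonempty) (η : ℝ) (hη : 0 < η) (hη1 : η < 1 / 4)
    (p q B₀ : ℝ) (hp1 : 1 ≤ p) (hpq : p ≤ q) (hB₀ : 0 ≤ B₀) (hp : 4 * ((L + Y).card : ℝ) ≤ Real.exp p * Y.card)
    (hq : 4 * ((L + Y).card : ℝ) ≤ Real.exp q * L.card) (hκ : ((L + S₁).card : ℝ) ≤ Real.exp q * L.card)
    (hBY : ∀ m : ℕ, (m : ℝ) ≤ 4 * (1 + Real.log p) →
      ((Y + ms (dif L Y) m + S₀).card : ℝ) ≤ Real.exp B₀ * Y.card)
    (hBL : ∀ m : ℕ, (m : ℝ) ≤ 4 * (1 + Real.log p) →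
      ((L + ms (dif L Y) m + S₀).card : ℝ) ≤ Real.exp B₀ * L.card) :
    ∃ Λ : Finset (AddChar G ℂ),
      (Λ.card : ℝ) ≤ 8 * (Real.log (Fintype.card G / S₁.card) +
        10 ^ 14 / η ^ 8 * (q * p * (1 + Real.log p) ^ 3 * Real.log (2 + B₀ + p))) ∧
      (∀ x : G, (∀ ψ ∈ Λ, ‖ψ x - 1‖ ≤ η / ((Λ.card : ℝ) + 1)) → ∃ w₁ ∈ L + Y, ∃ w₂ ∈ L + Y, x = w₁ - w₂) ∧
      ∀ B : Finset G, B.Nonempty → (∀ x ∈ B, ∀ ψ ∈ Λ, ‖ψ x - 1‖ ≤ η / ((Λ.card : ℝ) + 1)) →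
        ∃ t : G, (1 - 5 * η) * (B.card : ℝ) ≤ ((B.filter fun x => t + x ∈ L + Y).card : ℝ) := by
  obtain ⟨P, L', T, hP, hL', hT, hTc, hinv, hhm⟩ := main_gen L Y S₀ S₁ hL hY hS₀ hS₁ hS₁n η hη hη1.le p q B₀ hp1 hpq
    hB₀ hp hq hκ hBY hBL
  obtain ⟨Λ, hΛ, hmain⟩ := fourg L' T hL' hT η hη hinv
  refine ⟨Λ, hΛ.trans (by linarith), fun x hx => ?_, fun B hB hBx => ?_⟩
  · exact diff_of_inv (L + Y) P L' hP hL' η hη hη1 x (hmain x hx) hhm
  · exact translate_of_inv (L + Y) P L' B hP hL' hB η hη hη1.le (fun x hx => hmain x (hBx x hx)) hhm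

end general

/-- **The main theorem** for `ℤ/N`. -/
theorem gen_ZN {N : ℕ} [NeZero N] (L Y S₀ S₁ : Finset (ZMod N)) (hL : L.Nonempty) (hY : Y.Nonempty) (hS₀ : -S₀ = S₀)
    (hS₁ : S₁ ⊆ S₀) (hS₁n : S₁.Nonempty) (η : ℝ) (hη : 0 < η) (hη1 : η < 1 / 4)
    (p q B₀ : ℝ) (hp1 : 1 ≤ p) (hpq : p ≤ q) (hB₀ : 0 ≤ B₀)
    (hB₀' : B₀ ≤ 2 * (1 + Real.log (N / S₁.card) + q) ^ 2)
    (hp : 4 * ((L + Y).card : ℝ) ≤ Real.exp p * Y.card)
    (hq : 4 * ((L + Y).card : ℝ) ≤ Real.exp q * L.card) (hκ : ((L + S₁).card : ℝ) ≤ Real.exp q * L.card)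
    (hBY : ∀ m : ℕ, (m : ℝ) ≤ 4 * (1 + Real.log p) →
      ((Y + ms (dif L Y) m + S₀).card : ℝ) ≤ Real.exp B₀ * Y.card)
    (hBL : ∀ m : ℕ, (m : ℝ) ≤ 4 * (1 + Real.log p) →
      ((L + ms (dif L Y) m + S₀).card : ℝ) ≤ Real.exp B₀ * L.card) :
    ∃ Γ : Finset (ZMod N),
      (Γ.card : ℝ) ≤ 10 ^ 16 / η ^ 8 * (Real.log (N / S₁.card) +
        q * p * (1 + Real.log p) ^ 3 * Real.log (2 + B₀ + p)) ∧
      (∀ x : ZMod N, (∀ γ ∈ Γ, nint (((γ * x).val : ℝ) / N) ≤ η / (10 ^ 4 * (1 + Real.log (N / S₁.card) + q))) →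
        ∃ w₁ ∈ L + Y, ∃ w₂ ∈ L + Y, x = w₁ - w₂) ∧
      ∀ B : Finset (ZMod N), B.Nonempty →
        (∀ x ∈ B, ∀ γ ∈ Γ, nint (((γ * x).val : ℝ) / N) ≤ η / (10 ^ 4 * (1 + Real.log (N / S₁.card) + q))) →
        ∃ t : ZMod N, (1 - 5 * η) * (B.card : ℝ) ≤ ((B.filter fun x => t + x ∈ L + Y).card : ℝ) := by
  obtain ⟨Λ, hΛ, hm1, hm2⟩ := gen_group L Y S₀ S₁ hL hY hS₀ hS₁ hS₁n η hη hη1 p q B₀ hp1 hpq hB₀ hp hq hκ hBY hBL
  rw [ZMod.card] at hΛ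
  obtain ⟨s, hs⟩ : ∃ s : ℝ, s = Real.log ((N : ℝ) / S₁.card) := ⟨_, rfl⟩
  have hs0 : 0 ≤ s := by
    rw [hs]
    apply Real.log_nonneg
    rw [le_div_iff₀ (by exact_mod_cast hS₁n.card_pos), one_mul]
    have := card_le_univ S₁
    rw [ZMod.card] at this
    exact_mod_cast this
  rw [← hs] at hΛ hB₀' ⊢
  obtain ⟨v, hv⟩ : ∃ v : ℝ, v = 1 + s + q := ⟨_, rfl⟩
  have hv1 : 1 ≤ v := by rw [hv]; linarith
  have hpv : p ≤ v := by linarith
  have hqv : q ≤ v := by linarith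
  have hsv : s ≤ v := by linarith
  rw [← hv] at hB₀' ⊢
  have hlogp : 0 ≤ Real.log p := Real.log_nonneg hp1
  have hlogp' : 1 + Real.log p ≤ v := by
    have := Real.log_le_sub_one_of_pos (show 0 < p by linarith)
    linarith
  have hlogB : 0 ≤ Real.log (2 + B₀ + p) := Real.log_nonneg (by linarith)
  have hv2 : v ≤ v ^ 2 := le_self_pow₀ hv1 (by norm_num)
  have hv21 : 1 ≤ v ^ 2 := one_le_pow₀ hv1
  have hlogB' : Real.log (2 + B₀ + p) ≤ 4 * v ^ 2 := by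
    have := Real.log_le_sub_one_of_pos (show 0 < 2 + B₀ + p by linarith)
    linarith
  obtain ⟨X, hX⟩ : ∃ X : ℝ, X = q * p * (1 + Real.log p) ^ 3 * Real.log (2 + B₀ + p) := ⟨_, rfl⟩
  rw [← hX] at hΛ ⊢
  have hq0 : 0 ≤ q := by linarith
  have hX0 : 0 ≤ X := by rw [hX]; positivity
  have hXv : X ≤ 4 * v ^ 7 := by
    calc X = q * p * (1 + Real.log p) ^ 3 * Real.log (2 + B₀ + p) := hX
      _ ≤ v * v * v ^ 3 * (4 * v ^ 2) := by gcongr
      _ = 4 * v ^ 7 := by ring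
  have hη8 : 0 < η ^ 8 := by positivity
  have hηinv : 1 ≤ 1 / η ^ 8 := by
    rw [le_div_iff₀ hη8, one_mul]
    exact pow_le_one₀ hη.le (by linarith)
  obtain ⟨R, hR⟩ : ∃ R : ℕ, R = ⌈10 ^ 3 * v / η⌉₊ := ⟨_, rfl⟩
  have hR1 : 10 ^ 3 * v / η ≤ R := by rw [hR]; exact Nat.le_ceil _
  have hR2 : (R : ℝ) ≤ 10 ^ 3 * v / η + 1 := by
    rw [hR]
    exact (Nat.ceil_lt_add_one (by positivity)).le
  have hvη : 1 ≤ v / η := by
    rw [le_div_iff₀ hη]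
    linarith
  have hR10 : 10 ^ 3 * v / η = 10 ^ 3 * (v / η) := by ring
  have hR0 : 1 ≤ R := by
    have : (1 : ℝ) ≤ R := by linarith
    exact_mod_cast this
  have hRpos : (0 : ℝ) < R := by exact_mod_cast hR0
  obtain ⟨Γ, hΓ, htr⟩ := transfer Λ R 9 hR0
  have hΛv : (Λ.card : ℝ) + 1 ≤ 10 ^ 16 * v ^ 7 / η ^ 8 := by
    have h6 : 1 ≤ v ^ 7 := one_le_pow₀ hv1
    have h7 : v ≤ v ^ 7 := le_self_pow₀ hv1 (by norm_num)
    have h8 : 10 ^ 14 / η ^ 8 * X ≤ 10 ^ 14 / η ^ 8 * (4 * v ^ 7) := mul_le_mul_of_nonneg_left hXv (by positivity)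
    have h9 : v ^ 7 ≤ v ^ 7 / η ^ 8 := by
      rw [div_eq_mul_one_div]
      nlinarith
    have h10 : 10 ^ 14 / η ^ 8 * (4 * v ^ 7) = 4 * 10 ^ 14 * (v ^ 7 / η ^ 8) := by ring
    have h11 : 10 ^ 16 * v ^ 7 / η ^ 8 = 10 ^ 16 * (v ^ 7 / η ^ 8) := by ring
    rw [h11]
    linarith
  have hkey : ∀ x : ZMod N, (∀ γ ∈ Γ, nint (((γ * x).val : ℝ) / N) ≤ η / (10 ^ 4 * v)) →
      ∀ ψ ∈ Λ, ‖ψ x - 1‖ ≤ η / ((Λ.card : ℝ) + 1) := by
    intro x hx ψ hψ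
    refine (htr x ?_ ψ hψ).trans ?_
    · intro γ hγ
      refine (hx γ hγ).trans ?_
      rw [div_le_div_iff₀ (by positivity) (by positivity)]
      have h1 : η * (4 * (R : ℝ)) ≤ η * (4 * (10 ^ 3 * v / η + 1)) := by gcongr
      have h2 : η * (4 * (10 ^ 3 * v / η + 1)) = 4 * 10 ^ 3 * v + 4 * η := by
        field_simp
      linarith
    · have hpi : Real.pi ≤ 4 := Real.pi_le_four
      have h4 : ((Λ.card : ℝ) + 1) / η ≤ (R : ℝ) ^ 10 / 2 := by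
        calc ((Λ.card : ℝ) + 1) / η ≤ (10 ^ 16 * v ^ 7 / η ^ 8) / η := by gcongr
          _ = 10 ^ 16 * (v ^ 7 / η ^ 9) := by
            field_simp
          _ ≤ 10 ^ 16 * (v ^ 10 / η ^ 10) := by
            have h5 : v ^ 7 ≤ v ^ 10 := pow_le_pow_right₀ hv1 (by norm_num)
            have h6 : η ^ 10 ≤ η ^ 9 := pow_le_pow_of_le_one hη.le (by linarith) (by norm_num)
            gcongr
          _ ≤ (10 ^ 3 * v / η) ^ 10 / 2 := by
            have h5 : (10 ^ 3 * v / η) ^ 10 = 10 ^ 30 * (v ^ 10 / η ^ 10) := by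
              rw [div_pow]
              ring
            have h6 : 0 ≤ v ^ 10 / η ^ 10 := by positivity
            rw [h5]
            nlinarith
          _ ≤ (R : ℝ) ^ 10 / 2 := by gcongr
      have h5 : 2 * Real.pi * (1 / (4 * (R : ℝ) ^ (9 + 1))) ≤ 2 / (R : ℝ) ^ 10 := by
        have e : 2 * Real.pi * (1 / (4 * (R : ℝ) ^ (9 + 1))) = (Real.pi / 2) / (R : ℝ) ^ 10 := by
          norm_num
          ring
        rw [e]
        gcongr
        linarith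
      refine h5.trans ?_
      rw [div_le_iff₀ hη] at h4
      rw [div_le_div_iff₀ (by positivity) (by positivity)]
      linarith
  refine ⟨Γ, ?_, fun x hx => hm1 x (hkey x hx), fun B hB hBx => hm2 B hB fun x hx => hkey x (hBx x hx)⟩
  have h4 : (Γ.card : ℝ) ≤ 10 * Λ.card := by
    have : ((Γ.card : ℕ) : ℝ) ≤ (((9 + 1) * Λ.card : ℕ) : ℝ) := by exact_mod_cast hΓ
    push_cast at this
    linarith
  have h5 : s ≤ 1 / η ^ 8 * s := by nlinarith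
  have h6 : 10 ^ 16 / η ^ 8 * (s + X) = 10 ^ 16 * (1 / η ^ 8 * s) + 10 ^ 16 * (1 / η ^ 8 * X) := by ring
  have h7 : 10 ^ 14 / η ^ 8 * X = 10 ^ 14 * (1 / η ^ 8 * X) := by ring
  have h8 : 0 ≤ 1 / η ^ 8 * X := by positivity
  rw [h6]
  linarith

end Pool.Agent.H89.LV
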