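import Pool.Agent.H89.EN.Defs

/-!
# Hoeffding's inequality for product measures
-/

set_option autoImplicit false
set_option linter.unusedSectionVars false

namespace Pool.Agent.H89.LV

open Finset Pool.Agent.K4H60.BZ Pool.Agent.H89.EN
open scoped Pointwise BigOperators ComplexConjugate

/-- the exponential moment -/
theorem hoeff_exp {Ω : Type*} [Fintype Ω] [DecidableEq Ω] (μ : Ω → ℝ) (hμ : IsProb μ) (ξ : Ω → ℝ)
    (hξ : ∀ x, 0 ≤ ξ x ∧ ξ x ≤ 1) (f : ℝ) (hf : f = ∑ x, μ x * ξ x) (n : ℕ) (s : ℝ) :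
    ∑ z : Fin n → Ω, (∏ i, μ (z i)) * Real.exp (s * ∑ i, (ξ (z i) - f)) ≤ Real.exp (n * (s ^ 2 / 2)) := by
  have hf0 : 0 ≤ f := by
    rw [hf]
    exact sum_nonneg fun x _ => mul_nonneg (hμ.1 x) (hξ x).1
  have hf1 : f ≤ 1 := by
    rw [hf, ← hμ.2]
    apply sum_le_sum
    intro x _
    have := mul_le_mul_of_nonneg_left (hξ x).2 (hμ.1 x)
    linarith
  have h1 : ∀ z : Fin n → Ω, (∏ i, μ (z i)) * Real.exp (s * ∑ i, (ξ (z i) - f)) =
      ∏ i, (μ (z i) * Real.exp (s * (ξ (z i) - f))) := by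
    intro z
    rw [prod_mul_distrib, mul_sum, Real.exp_sum]
  simp_rw [h1]
  rw [← Fintype.sum_pow (fun x => μ x * Real.exp (s * (ξ x - f))) n, Real.exp_nat_mul]
  have h4 : ∑ x, μ x * Real.exp (s * (ξ x - f)) ≤ Real.exp (s ^ 2 / 2) := by
    have h2 : ∀ x, μ x * Real.exp (s * (ξ x - f)) ≤ μ x * (Real.cosh s + (ξ x - f) * Real.sinh s) := by
      intro x
      refine mul_le_mul_of_nonneg_left ?_ (hμ.1 x)
      have hx : |ξ x - f| ≤ 1 := by
        rw [abs_le]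
        constructor <;> linarith [(hξ x).1, (hξ x).2]
      rw [mul_comm s]
      exact Real.exp_mul_le_cosh_add_mul_sinh hx s
    have h3 : ∑ x, μ x * (Real.cosh s + (ξ x - f) * Real.sinh s) = Real.cosh s := by
      have e : ∀ x, μ x * (Real.cosh s + (ξ x - f) * Real.sinh s) =
          μ x * (Real.cosh s - f * Real.sinh s) + (μ x * ξ x) * Real.sinh s := fun x => by ring
      rw [sum_congr rfl fun x _ => e x, sum_add_distrib, ← sum_mul, ← sum_mul, hμ.2, ← hf]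
      ring
    calc ∑ x, μ x * Real.exp (s * (ξ x - f)) ≤ _ := sum_le_sum fun x _ => h2 x
      _ = Real.cosh s := h3
      _ ≤ Real.exp (s ^ 2 / 2) := Real.cosh_le_exp_half_sq s
  have h5 : 0 ≤ ∑ x, μ x * Real.exp (s * (ξ x - f)) :=
    sum_nonneg fun x _ => mul_nonneg (hμ.1 x) (Real.exp_pos _).le
  exact pow_le_pow_left₀ h5 h4 n

/-- Markov's inequality for the exponential moment -/
theorem hoeff_aux {Ω : Type*} [Fintype Ω] [DecidableEq Ω] (μ : Ω → ℝ) (hμ : IsProb μ) (ξ : Ω → ℝ)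
    (hξ : ∀ x, 0 ≤ ξ x ∧ ξ x ≤ 1) (f : ℝ) (hf : f = ∑ x, μ x * ξ x) (n : ℕ) (t s : ℝ) (hs : s ^ 2 = t ^ 2)
    (E : Finset (Fin n → Ω)) (hE : ∀ z ∈ E, n * t ^ 2 ≤ s * ∑ i, (ξ (z i) - f)) :
    (∑ z ∈ E, ∏ i, μ (z i)) ≤ Real.exp (-(n * t ^ 2 / 2)) := by
  have h0 : ∀ z : Fin n → Ω, 0 ≤ ∏ i, μ (z i) := fun z => prod_nonneg fun i _ => hμ.1 _
  have h1 : (∑ z ∈ E, ∏ i, μ (z i)) ≤
      ∑ z ∈ E, Real.exp (-(n * t ^ 2)) * ((∏ i, μ (z i)) * Real.exp (s * ∑ i, (ξ (z i) - f))) := by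
    apply sum_le_sum
    intro z hz
    have h2 : 1 ≤ Real.exp (-(n * t ^ 2)) * Real.exp (s * ∑ i, (ξ (z i) - f)) := by
      rw [← Real.exp_add, ← Real.exp_zero]
      apply Real.exp_le_exp.2
      have := hE z hz
      linarith
    calc ∏ i, μ (z i) = (∏ i, μ (z i)) * 1 := (mul_one _).symm
      _ ≤ (∏ i, μ (z i)) * (Real.exp (-(n * t ^ 2)) * Real.exp (s * ∑ i, (ξ (z i) - f))) :=
          mul_le_mul_of_nonneg_left h2 (h0 z)
      _ = _ := by ring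
  refine h1.trans ?_
  rw [← mul_sum]
  have h3 : ∑ z ∈ E, (∏ i, μ (z i)) * Real.exp (s * ∑ i, (ξ (z i) - f)) ≤
      ∑ z : Fin n → Ω, (∏ i, μ (z i)) * Real.exp (s * ∑ i, (ξ (z i) - f)) :=
    sum_le_sum_of_subset_of_nonneg (subset_univ _) fun z _ _ => mul_nonneg (h0 z) (Real.exp_pos _).le
  calc Real.exp (-(n * t ^ 2)) * ∑ z ∈ E, (∏ i, μ (z i)) * Real.exp (s * ∑ i, (ξ (z i) - f)) ≤
        Real.exp (-(n * t ^ 2)) * Real.exp (n * (s ^ 2 / 2)) :=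
        mul_le_mul_of_nonneg_left (h3.trans (hoeff_exp μ hμ ξ hξ f hf n s)) (Real.exp_pos _).le
    _ = Real.exp (-(n * t ^ 2 / 2)) := by
        rw [← Real.exp_add, hs]
        congr 1
        ring

/-- Hoeffding's inequality for product measures, with the constant `1/2`. -/
theorem hoeff {Ω : Type*} [Fintype Ω] [DecidableEq Ω] (μ : Ω → ℝ) (hμ : IsProb μ) (ξ : Ω → ℝ)
    (hξ : ∀ x, 0 ≤ ξ x ∧ ξ x ≤ 1) (f : ℝ) (hf : f = ∑ x, μ x * ξ x) (n : ℕ) (t : ℝ) (ht : 0 ≤ t) :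
    (∑ z ∈ (univ : Finset (Fin n → Ω)).filter (fun z => n * t ≤ ∑ i, (ξ (z i) - f)), ∏ i, μ (z i)) ≤
      Real.exp (-(n * t ^ 2 / 2)) ∧
    (∑ z ∈ (univ : Finset (Fin n → Ω)).filter (fun z => ∑ i, (ξ (z i) - f) ≤ -(n * t)), ∏ i, μ (z i)) ≤
      Real.exp (-(n * t ^ 2 / 2)) := by
  constructor
  · refine hoeff_aux μ hμ ξ hξ f hf n t t rfl _ fun z hz => ?_
    rw [mem_filter] at hz
    have := mul_le_mul_of_nonneg_left hz.2 ht
    calc (n : ℝ) * t ^ 2 = t * (n * t) := by ring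
      _ ≤ _ := this
  · refine hoeff_aux μ hμ ξ hξ f hf n t (-t) (by ring) _ fun z hz => ?_
    rw [mem_filter] at hz
    have := mul_le_mul_of_nonneg_left hz.2 ht
    calc (n : ℝ) * t ^ 2 = -(t * (-(n * t))) := by ring
      _ ≤ -(t * ∑ i, (ξ (z i) - f)) := by linarith
      _ = _ := by ring

/-- splitting off one coordinate -/
theorem split_coord {Ω : Type*} [Fintype Ω] [DecidableEq Ω] (n : ℕ) (i : Fin (n + 1)) (g : (Fin (n + 1) → Ω) → ℝ) :
    ∑ z : Fin (n + 1) → Ω, g z = ∑ x : Ω, ∑ y : Fin n → Ω, g (i.insertNth x y) := by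
  rw [← (Fin.insertNthEquiv (fun _ : Fin (n + 1) => Ω) i).sum_comp, Fintype.sum_prod_type]
  rfl

/-- Hoeffding's inequality with the mean `f` in front -/
theorem hoeffg {Ω : Type*} [Fintype Ω] [DecidableEq Ω] (μ : Ω → ℝ) (hμ : IsProb μ) (ξ : Ω → ℝ)
    (hξ : ∀ x, 0 ≤ ξ x ∧ ξ x ≤ 1) (f : ℝ) (hf : f = ∑ x, μ x * ξ x) (n : ℕ) (u t : ℝ) (hu : 1 / 2 ≤ u) (ht : 0 ≤ t)
    (hgap : f + 2 * t ≤ u) (hn : 1 ≤ 2 * (n * t)) :
    (∑ z ∈ (univ : Finset (Fin (n + 1) → Ω)).filter (fun z => u * (n + 1) ≤ ∑ i, ξ (z i)), ∏ i, μ (z i)) ≤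
      2 * f * Real.exp (-(n * t ^ 2 / 2)) := by
  classical
  have h0 : ∀ (m : ℕ) (z : Fin m → Ω), 0 ≤ ∏ i, μ (z i) := fun m z => prod_nonneg fun i _ => hμ.1 _
  have hn1 : (0 : ℝ) < (n : ℝ) + 1 := by positivity
  have hupos : 0 < u := by linarith
  have hf0 : 0 ≤ f := by
    rw [hf]
    exact sum_nonneg fun x _ => mul_nonneg (hμ.1 x) (hξ x).1
  obtain ⟨F, hF⟩ : ∃ F : Finset (Fin n → Ω), F = univ.filter (fun z => n * t ≤ ∑ i, (ξ (z i) - f)) := ⟨_, rfl⟩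
  have hFb : (∑ z ∈ F, ∏ i, μ (z i)) ≤ Real.exp (-(n * t ^ 2 / 2)) := by
    rw [hF]
    exact (hoeff μ hμ ξ hξ f hf n t ht).1
  obtain ⟨E, hE⟩ : ∃ E : Finset (Fin (n + 1) → Ω), E = univ.filter (fun z => u * (n + 1) ≤ ∑ i, ξ (z i)) := ⟨_, rfl⟩
  rw [← hE]
  -- each coordinate
  have hone : ∀ i : Fin (n + 1), ∑ z ∈ E, (∏ j, μ (z j)) * ξ (z i) ≤ f * Real.exp (-(n * t ^ 2 / 2)) := by
    intro i
    have h1 : ∑ z ∈ E, (∏ j, μ (z j)) * ξ (z i) =
        ∑ z : Fin (n + 1) → Ω, if z ∈ E then (∏ j, μ (z j)) * ξ (z i) else 0 := by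
      rw [← sum_filter]
      congr 1
      ext z
      simp
    rw [h1, split_coord n i]
    have h2 : ∀ (x : Ω) (y : Fin n → Ω), (if i.insertNth x y ∈ E then
        (∏ j, μ ((i.insertNth x y : Fin (n + 1) → Ω) j)) * ξ ((i.insertNth x y : Fin (n + 1) → Ω) i) else 0) ≤
        (μ x * ξ x) * (if y ∈ F then ∏ j, μ (y j) else 0) := by
      intro x y
      have hprod : (∏ j, μ ((i.insertNth x y : Fin (n + 1) → Ω) j)) = μ x * ∏ j, μ (y j) := by
        rw [Fin.prod_univ_succAbove _ i]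
        simp
      have hsum : (∑ j, ξ ((i.insertNth x y : Fin (n + 1) → Ω) j)) = ξ x + ∑ j, ξ (y j) := by
        rw [Fin.sum_univ_succAbove _ i]
        simp
      have hval : ξ ((i.insertNth x y : Fin (n + 1) → Ω) i) = ξ x := by simp
      rw [hprod, hval]
      by_cases hz : i.insertNth x y ∈ E
      · rw [if_pos hz]
        have hy : y ∈ F := by
          rw [hE, mem_filter, hsum] at hz
          rw [hF, mem_filter]
          refine ⟨mem_univ _, ?_⟩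
          rw [sum_sub_distrib, sum_const, card_univ, Fintype.card_fin, nsmul_eq_mul]
          have h3 := hz.2
          have h4 := (hξ x).2
          have h5 : n * (f + 2 * t) ≤ n * u := mul_le_mul_of_nonneg_left hgap (Nat.cast_nonneg n)
          have h6 : (n : ℝ) * (f + 2 * t) = n * f + 2 * (n * t) := by ring
          have h7 : u * ((n : ℝ) + 1) = n * u + u := by ring
          linarith
        rw [if_pos hy]
        apply le_of_eq
        ring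
      · rw [if_neg hz]
        refine mul_nonneg (mul_nonneg (hμ.1 x) (hξ x).1) ?_
        split_ifs
        · exact h0 n y
        · exact le_rfl
    calc ∑ x : Ω, ∑ y : Fin n → Ω, (if i.insertNth x y ∈ E then
        (∏ j, μ ((i.insertNth x y : Fin (n + 1) → Ω) j)) * ξ ((i.insertNth x y : Fin (n + 1) → Ω) i) else 0) ≤
        ∑ x : Ω, ∑ y : Fin n → Ω, (μ x * ξ x) * (if y ∈ F then ∏ j, μ (y j) else 0) :=
          sum_le_sum fun x _ => sum_le_sum fun y _ => h2 x y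
      _ = f * ∑ y ∈ F, ∏ j, μ (y j) := by
          have e1 : ∑ y : Fin n → Ω, (if y ∈ F then ∏ j, μ (y j) else 0) = ∑ y ∈ F, ∏ j, μ (y j) := by
            rw [← sum_filter]
            congr 1
            ext z
            simp
          simp_rw [← mul_sum]
          rw [← sum_mul, ← hf, e1]
      _ ≤ f * Real.exp (-(n * t ^ 2 / 2)) := mul_le_mul_of_nonneg_left hFb hf0
  have hsumE : (∑ z ∈ E, ∏ i, μ (z i)) * (u * (n + 1)) ≤ ((n : ℝ) + 1) * (f * Real.exp (-(n * t ^ 2 / 2))) := by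
    calc (∑ z ∈ E, ∏ i, μ (z i)) * (u * (n + 1)) = ∑ z ∈ E, (∏ i, μ (z i)) * (u * (n + 1)) := by rw [sum_mul]
      _ ≤ ∑ z ∈ E, (∏ i, μ (z i)) * ∑ i, ξ (z i) := by
          apply sum_le_sum
          intro z hz
          rw [hE, mem_filter] at hz
          exact mul_le_mul_of_nonneg_left hz.2 (h0 _ z)
      _ = ∑ i, ∑ z ∈ E, (∏ j, μ (z j)) * ξ (z i) := by
          simp_rw [mul_sum]
          rw [sum_comm]
      _ ≤ ∑ i : Fin (n + 1), f * Real.exp (-(n * t ^ 2 / 2)) := sum_le_sum fun i _ => hone i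
      _ = _ := by
          rw [sum_const, card_univ, Fintype.card_fin, nsmul_eq_mul]
          push_cast
          ring
  have hX : 0 ≤ f * Real.exp (-(n * t ^ 2 / 2)) := mul_nonneg hf0 (Real.exp_pos _).le
  have hA : 0 ≤ ∑ z ∈ E, ∏ i, μ (z i) := sum_nonneg fun z _ => h0 _ z
  have h8 : (∑ z ∈ E, ∏ i, μ (z i)) * u ≤ f * Real.exp (-(n * t ^ 2 / 2)) := by
    have h9 : ((∑ z ∈ E, ∏ i, μ (z i)) * u) * ((n : ℝ) + 1) ≤ (f * Real.exp (-(n * t ^ 2 / 2))) * ((n : ℝ) + 1) := by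
      calc _ = (∑ z ∈ E, ∏ i, μ (z i)) * (u * (n + 1)) := by ring
        _ ≤ _ := hsumE
        _ = _ := by ring
    exact le_of_mul_le_mul_right h9 hn1
  have h10 : (∑ z ∈ E, ∏ i, μ (z i)) * (1 / 2) ≤ (∑ z ∈ E, ∏ i, μ (z i)) * u := mul_le_mul_of_nonneg_left hu hA
  linarith

end Pool.Agent.H89.LV
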