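import Pool.Agent.H89.LV.One

/-!
# The last step
-/

set_option autoImplicit false
set_option linter.unusedSectionVars false
set_option linter.unusedVariables false

namespace Pool.Agent.H89.LV

open Finset Pool.Agent.K4H60.BZ Pool.Agent.H89.EN
open scoped Pointwise BigOperators ComplexConjugate

variable {G : Type*} [AddCommGroup G] [Fintype G] [DecidableEq G]

/-- two elements of the level set `3/4` differ by an element of `W - W` -/
theorem sub_of_lev (W P : Finset G) (hP : P.Nonempty) (θ : ℝ) (hθ : 3 / 4 ≤ θ) (z z' : G) (hz : z ∈ lev W P θ)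
    (hz' : z' ∈ lev W P θ) : z' - z ∈ W - W := by
  classical
  have hPpos : (0 : ℝ) < P.card := by exact_mod_cast hP.card_pos
  rw [mem_lev, hm_uni_eq, le_div_iff₀ hPpos] at hz hz'
  by_contra hcon
  have h1 : ∀ p ∈ P, ind W (p + z) + ind W (p + z') ≤ 1 := by
    intro p hp
    by_cases h : p + z ∈ W
    · have h' : p + z' ∉ W := by
        intro h'
        apply hcon
        have : z' - z = (p + z') - (p + z) := by abel
        rw [this]
        exact sub_mem_sub h' h
      have e : ind W (p + z') = 0 := by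
        unfold ind
        rw [if_neg h']
      rw [e, add_zero]
      exact ind_le_one _ _
    · have e : ind W (p + z) = 0 := by
        unfold ind
        rw [if_neg h]
      rw [e, zero_add]
      exact ind_le_one _ _
  have h2 : ∑ p ∈ P, (ind W (p + z) + ind W (p + z')) ≤ P.card := by
    calc ∑ p ∈ P, (ind W (p + z) + ind W (p + z')) ≤ ∑ p ∈ P, (1 : ℝ) := sum_le_sum h1
      _ = P.card := by rw [sum_const, nsmul_eq_mul, mul_one]
  rw [sum_add_distrib] at h2
  nlinarith

/-- **The last step.** -/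
theorem last_step (L Y S₀ : Finset G) (hL : L.Nonempty) (hY : Y.Nonempty) (r M : ℕ) (hr : r + 1 ≤ M)
    (a θ κ c : ℝ) (ha : 0 < a) (ha1 : a ≤ 1) (hθ : 1 / 2 + 2 * a ≤ θ) (hθ' : 3 / 4 + 3 / 2 * a ≤ θ)
    (h : Sta L Y S₀ r a θ κ c) (K : ℕ) (hK : 8 ≤ K)
    (b : ℝ) (hb0 : 0 < b) (hb : 4 * ((L + Y).card : ℝ) ≤ Real.exp b * (a ^ M * Y.card)) (hbK : 400 * b ≤ K)
    (n : ℕ) (hn : 8 * K ^ 2 / a ^ 2 * (6 * b / K + Real.log (8 / (1 / 100))) ≤ n) :
    ∃ L' T : Finset G, L'.Nonempty ∧ T.Nonempty ∧ Real.log (Fintype.card G / T.card) ≤ c + 2 + 2 * ((n : ℝ) + 1) * κ ∧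
      (∀ t ∈ T, ∀ t' ∈ T, 9 / 10 * (L'.card : ℝ) ≤ ((L'.filter fun z => z + (t - t') ∈ L').card : ℝ)) ∧
      ∀ z ∈ L', ∀ z' ∈ L', z' - z ∈ (L + Y) - (L + Y) := by
  classical
  obtain ⟨P, Q, S, hP, hQ, hS, hSS, hPL, hQY, hPc, hQc, hθP, hκ, hc⟩ := h
  have hYpos : (0 : ℝ) < Y.card := by exact_mod_cast hY.card_pos
  have hW : (L + Y).Nonempty := hL.add hY
  have hKpos : (0 : ℝ) < K := by exact_mod_cast (show 0 < K by omega)
  have har : a ^ M ≤ a ^ (r + 1) := pow_le_pow_of_le_one ha.le ha1 hr
  have h1 : a ^ (r + 1) * Y.card ≤ ((lev (L + Y) P (θ - a)).card : ℝ) := by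
    have h2 := lev_large P Q (L + Y) hP hQ θ a ha hθP (by linarith)
    calc a ^ (r + 1) * Y.card = a * (a ^ r * Y.card) := by ring
      _ ≤ a * Q.card := mul_le_mul_of_nonneg_left hQc ha.le
      _ ≤ _ := h2
  have h1' : a ^ M * Y.card ≤ ((lev (L + Y) P (θ - a)).card : ℝ) :=
    (mul_le_mul_of_nonneg_right har hYpos.le).trans h1
  have hlevpos : (0 : ℝ) < ((lev (L + Y) P (θ - a)).card : ℝ) :=
    lt_of_lt_of_le (by positivity) h1
  have hne : (lev (L + Y) P (θ - a)).Nonempty := by
    rw [← card_pos]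
    exact_mod_cast hlevpos
  have hb' : 4 * ((L + Y).card : ℝ) ≤ Real.exp b * (lev (L + Y) P (θ - a)).card :=
    hb.trans (mul_le_mul_of_nonneg_left h1' (Real.exp_pos _).le)
  obtain ⟨θ', hθ1, hθ2, T, Qs, L'', hTS, hT, hTc, hLL, hLc, hq1, hq2⟩ :=
    level_step (L + Y) P S hP hS hW κ hκ K hK a (θ - a) ha ha1 (by linarith) hne b hb0 hb' (1 / 100) (by norm_num)
      (by norm_num) n hn
  have hmono := lev_mono (L + Y) P (θ - a) θ' hθ2
  have hPne : (lev (L + Y) P θ').Nonempty := hne.mono hmono
  have hcard : ((lev (L + Y) P (θ - a)).card : ℝ) ≤ (lev (L + Y) P θ').card := by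
    exact_mod_cast card_le_card hmono
  have hlev'pos : (0 : ℝ) < ((lev (L + Y) P θ').card : ℝ) := lt_of_lt_of_le hlevpos hcard
  refine ⟨lev (L + Y) P θ', T, hPne, hT, ?_, ?_, ?_⟩
  · have hTpos : (0 : ℝ) < T.card := by exact_mod_cast hT.card_pos
    have hSpos : (0 : ℝ) < S.card := by exact_mod_cast hS.card_pos
    have hGpos : (0 : ℝ) < Fintype.card G := by
      have : Nonempty G := ⟨0⟩
      exact_mod_cast Fintype.card_pos
    have e1 : Real.log S.card ≤ Real.log 4 + 2 * ((n : ℝ) + 1) * κ + Real.log T.card := by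
      have := Real.log_le_log hSpos hTc
      rw [Real.log_mul (by positivity) hTpos.ne', Real.log_mul (by norm_num) (Real.exp_pos _).ne', Real.log_exp] at this
      exact this
    have e2 := log_four_le
    rw [Real.log_div hGpos.ne' hTpos.ne']
    rw [Real.log_div hGpos.ne' hSpos.ne'] at hc
    linarith
  · intro t ht t' ht'
    obtain ⟨l, hl⟩ : ∃ l : ℝ, l = (lev (L + Y) P θ').card := ⟨_, rfl⟩
    obtain ⟨V, hV⟩ : ∃ V : Finset G, V = lev (L + Y) P θ' := ⟨_, rfl⟩
    rw [← hV] at hq1 hq2 hLL hLc hlev'pos ⊢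
    have e0 : Real.exp (4 * b / K) ≤ 1 + 11 / 1000 := by
      have f1 : 4 * b / K ≤ 1 / 100 := by
        rw [div_le_iff₀ hKpos]
        linarith
      have f2 : Real.exp (4 * b / K) ≤ Real.exp (1 / 100) := Real.exp_le_exp.2 f1
      have f3 := Real.exp_bound_div_one_sub_of_interval (x := (1 / 100 : ℝ)) (by norm_num) (by norm_num)
      have f4 : (1 : ℝ) / (1 - 1 / 100) ≤ 1 + 11 / 1000 := by norm_num
      linarith
    have e1 := hq1 t' ht'
    have e2 := hq2 t ht
    -- the exceptional elements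
    have e3 : ((V.filter fun z => ¬ z + (t - t') ∈ V).card : ℝ) ≤
        (V.filter fun z => z - t' ∉ Qs).card + ((Qs.filter fun v => v + t ∉ L'').card + (L'' \ V).card) := by
      have g1 : (V.filter fun z => ¬ z + (t - t') ∈ V) ⊆ (V.filter fun z => z - t' ∉ Qs) ∪
          (((Qs.filter fun v => v + t ∉ L'').image fun v => v + t') ∪ ((L'' \ V).image fun u => u - (t - t'))) := by
        intro z hz
        rw [mem_filter] at hz
        rw [mem_union, mem_union, mem_image, mem_image]
        by_cases k1 : z - t' ∈ Qs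
        · right
          by_cases k2 : z - t' + t ∈ L''
          · right
            refine ⟨z + (t - t'), ?_, by abel⟩
            rw [mem_sdiff]
            refine ⟨?_, hz.2⟩
            have : z + (t - t') = z - t' + t := by abel
            rw [this]
            exact k2
          · left
            refine ⟨z - t', ?_, by abel⟩
            rw [mem_filter]
            exact ⟨k1, k2⟩
        · left
          rw [mem_filter]
          exact ⟨hz.1, k1⟩
      have g2 := card_le_card g1
      have g3 := card_union_le (V.filter fun z => z - t' ∉ Qs)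
        (((Qs.filter fun v => v + t ∉ L'').image fun v => v + t') ∪ ((L'' \ V).image fun u => u - (t - t')))
      have g4 := card_union_le ((Qs.filter fun v => v + t ∉ L'').image fun v => v + t')
        ((L'' \ V).image fun u => u - (t - t'))
      have g5 := card_image_le (s := Qs.filter fun v => v + t ∉ L'') (f := fun v => v + t')
      have g6 := card_image_le (s := L'' \ V) (f := fun u => u - (t - t'))
      exact_mod_cast (show (V.filter fun z => ¬ z + (t - t') ∈ V).card ≤
        (V.filter fun z => z - t' ∉ Qs).card + ((Qs.filter fun v => v + t ∉ L'').card + (L'' \ V).card) by omega)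
    have e4 : ((L'' \ V).card : ℝ) = L''.card - V.card := by
      rw [cast_card_sdiff hLL]
    have e5 : (V.card : ℝ) = (V.filter fun z => z + (t - t') ∈ V).card + (V.filter fun z => ¬ z + (t - t') ∈ V).card := by
      have := card_filter_add_card_filter_not (s := V) (fun z => z + (t - t') ∈ V)
      exact_mod_cast this.symm
    have e6 : (L''.card : ℝ) ≤ (1 + 11 / 1000) * V.card :=
      hLc.trans (mul_le_mul_of_nonneg_right e0 hlev'pos.le)
    linarith
  · intro z hz z' hz'
    exact sub_of_lev (L + Y) P hP θ' (by linarith) z z' hz hz'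

end Pool.Agent.H89.LV
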