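import Pool.Agent.H89.LV.Last

/-!
# The iteration
-/

set_option autoImplicit false
set_option linter.unusedSectionVars false
set_option linter.unusedVariables false

namespace Pool.Agent.H89.LV

open Finset Pool.Agent.K4H60.BZ Pool.Agent.H89.EN
open scoped Pointwise BigOperators ComplexConjugate

/-- the number of samples -/
theorem samples (K : ℕ) (hK : 8 ≤ K) (a b lam : ℝ) (ha : 0 < a) (ha1 : a ≤ 1) (hb : 0 ≤ b) (hlam : 1 ≤ lam) :
    ∃ n : ℕ, 8 * (K : ℝ) ^ 2 / a ^ 2 * (6 * b / K + lam) ≤ n ∧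
      (n : ℝ) + 1 ≤ (54 * K * b + 9 * (K : ℝ) ^ 2 * lam) / a ^ 2 := by
  have hKpos : (8 : ℝ) ≤ K := by exact_mod_cast hK
  have ha2 : 0 < a ^ 2 := by positivity
  have ha2' : a ^ 2 ≤ 1 := pow_le_one₀ ha.le ha1
  refine ⟨⌈8 * (K : ℝ) ^ 2 / a ^ 2 * (6 * b / K + lam)⌉₊, Nat.le_ceil _, ?_⟩
  have h1 := Nat.ceil_lt_add_one (show 0 ≤ 8 * (K : ℝ) ^ 2 / a ^ 2 * (6 * b / K + lam) by positivity)
  have h2 : 8 * (K : ℝ) ^ 2 / a ^ 2 * (6 * b / K + lam) = (48 * K * b + 8 * (K : ℝ) ^ 2 * lam) / a ^ 2 := by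
    have : (K : ℝ) ≠ 0 := by positivity
    field_simp
    ring
  have h3 : 2 ≤ ((K : ℝ) ^ 2 * lam) / a ^ 2 := by
    rw [le_div_iff₀ ha2]
    have : (64 : ℝ) ≤ (K : ℝ) ^ 2 := by nlinarith
    nlinarith
  have h4 : 0 ≤ 6 * (K : ℝ) * b / a ^ 2 := by positivity
  have h5 : (54 * K * b + 9 * (K : ℝ) ^ 2 * lam) / a ^ 2 = (48 * K * b + 8 * (K : ℝ) ^ 2 * lam) / a ^ 2 +
      ((K : ℝ) ^ 2 * lam) / a ^ 2 + 6 * (K : ℝ) * b / a ^ 2 := by
    rw [← add_div, ← add_div]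
    congr 1
    ring
  rw [h5]
  linarith

theorem log_eps (B : ℝ) (hB : 0 ≤ B) : 1 ≤ Real.log (8 / (1 / (100 * (1 + B)))) ∧
    Real.log (8 / (1 / 100)) ≤ Real.log (8 / (1 / (100 * (1 + B)))) := by
  have h1 : (8 : ℝ) / (1 / (100 * (1 + B))) = 800 * (1 + B) := by
    rw [div_div_eq_mul_div, div_one]
    ring
  have h2 : (8 : ℝ) / (1 / 100) = 800 := by norm_num
  rw [h1, h2]
  constructor
  · rw [Real.le_log_iff_exp_le (by positivity)]
    have := Real.exp_one_lt_d9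
    nlinarith
  · apply Real.log_le_log (by norm_num)
    nlinarith

variable {G : Type*} [AddCommGroup G] [Fintype G] [DecidableEq G]

/-- **Two steps.** -/
theorem double_step (L Y S₀ : Finset G) (hL : L.Nonempty) (hY : Y.Nonempty) (hS₀ : -S₀ = S₀) (r M : ℕ)
    (hr : r + 2 ≤ M) (a θ c bY bL B lam : ℝ) (ha : 0 < a) (ha1 : a ≤ 1) (hθ : 1 / 2 + 4 * a ≤ θ) (K : ℕ) (hK : 8 ≤ K)
    (hKb : (K : ℝ) ≤ 16 * bY) (hb1 : 1 ≤ bY) (hbb : bY ≤ bL)
    (hbY : 4 * ((L + Y).card : ℝ) ≤ Real.exp bY * (a ^ M * Y.card))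
    (hbL : 4 * ((L + Y).card : ℝ) ≤ Real.exp bL * (a ^ M * L.card)) (hB0 : 0 ≤ B)
    (hBY : ((Y + ms (dif L Y) M + S₀).card : ℝ) ≤ Real.exp B * (a ^ M * Y.card))
    (hBL : ((L + ms (dif L Y) M + S₀).card : ℝ) ≤ Real.exp B * (a ^ M * L.card))
    (hlam : lam = Real.log (8 / (1 / (100 * (1 + B)))))
    (h : Sta L Y S₀ r a θ (1 + 8 * bL / K) c) :
    Sta L Y S₀ (r + 2) a (θ - 3 * a) (1 + 8 * bL / ((2 * K : ℕ) : ℝ)) (c + 17500 * (bL * bY * lam / a ^ 2)) := by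
  obtain ⟨ε, hε⟩ : ∃ ε : ℝ, ε = 1 / (100 * (1 + B)) := ⟨_, rfl⟩
  have hε0 : 0 < ε := by rw [hε]; positivity
  have hεB : ε + ε * B = 1 / 100 := by
    rw [hε]
    have : (1 : ℝ) + B ≠ 0 := by positivity
    field_simp
  have hε1 : ε ≤ 1 := by nlinarith [mul_nonneg hε0.le hB0]
  have hlam1 : 1 ≤ lam := by rw [hlam]; exact (log_eps B hB0).1
  have hlam' : lam = Real.log (8 / ε) := by rw [hlam, hε]
  have hKpos : (8 : ℝ) ≤ K := by exact_mod_cast hK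
  have hK0 : (0 : ℝ) < K := by linarith
  have hbL1 : 1 ≤ bL := hb1.trans hbb
  have ha2 : 0 < a ^ 2 := by positivity
  have ha2' : a ^ 2 ≤ 1 := pow_le_one₀ ha.le ha1
  have hlog2 := Real.log_two_lt_d9
  -- the first step
  obtain ⟨n₁, hn₁, hn₁'⟩ := samples K hK a bY lam ha ha1 (by linarith) hlam1
  obtain ⟨θ₁, hθ₁, h1⟩ := one_step L Y S₀ hL hY hS₀ r M (by omega) a θ (1 + 8 * bL / K) c ha ha1 (by linarith) h K hK bY
    (by linarith) hbY ε hε0 hε1 B hB0 hBY n₁ (by rw [← hlam']; exact hn₁) (by positivity)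
  -- the second step
  obtain ⟨n₂, hn₂, hn₂'⟩ := samples K hK a bL lam ha ha1 (by linarith) hlam1
  have h1' : Sta Y L S₀ (r + 1) a θ₁ (1 + 4 * bY / K) (c + 2 + 2 * ((n₁ : ℝ) + 1) * (1 + 8 * bL / K)) :=
    h1.mono le_rfl (by linarith) le_rfl
  obtain ⟨θ₂, hθ₂, h2⟩ := one_step Y L S₀ hY hL hS₀ (r + 1) M (by omega) a θ₁ (1 + 4 * bY / K) _ ha ha1 (by linarith)
    h1' K hK bL (by linarith) (by rw [add_comm Y L]; exact hbL) ε hε0 hε1 B hB0 (by rw [dif_comm L Y]; exact hBL) n₂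
    (by rw [← hlam']; exact hn₂) (by positivity)
  refine h2.mono (by linarith) ?_ ?_
  · have e1 : 8 * bL / ((2 * K : ℕ) : ℝ) = 4 * bL / K := by
      push_cast
      have : (K : ℝ) ≠ 0 := hK0.ne'
      field_simp
      ring
    rw [e1]
    linarith
  · -- the cost
    obtain ⟨V, hV⟩ : ∃ V : ℝ, V = bL * bY * lam / a ^ 2 := ⟨_, rfl⟩
    rw [← hV]
    have hbLY : 1 ≤ bL * bY := by nlinarith
    have hbLYlam : 1 ≤ bL * bY * lam := by nlinarith
    have hV1 : 1 ≤ V := by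
      rw [hV, le_div_iff₀ ha2]
      linarith
    have hYY : bY * bY ≤ bL * bY := mul_le_mul_of_nonneg_right hbb (by linarith)
    have hKY : (K : ℝ) * bY ≤ 16 * (bL * bY) := by nlinarith
    have hKL : (K : ℝ) * bL ≤ 16 * (bL * bY) := by nlinarith
    have hKK : (K : ℝ) ^ 2 ≤ 256 * (bL * bY) := by nlinarith
    have hx : bL * bY ≤ bL * bY * lam := by nlinarith
    have f1 : 2 * ((n₁ : ℝ) + 1) * (1 + 8 * bL / K) ≤ 9504 * V := by
      have e1 : (0 : ℝ) ≤ 1 + 8 * bL / K := by positivity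
      have e2 : ((n₁ : ℝ) + 1) * (1 + 8 * bL / K) ≤
          ((54 * K * bY + 9 * (K : ℝ) ^ 2 * lam) / a ^ 2) * (1 + 8 * bL / K) := mul_le_mul_of_nonneg_right hn₁' e1
      have e3 : ((54 * K * bY + 9 * (K : ℝ) ^ 2 * lam) / a ^ 2) * (1 + 8 * bL / K) =
          (54 * (K * bY) + 432 * (bL * bY) + 9 * ((K : ℝ) ^ 2 * lam) + 72 * ((K * bL) * lam)) / a ^ 2 := by
        have : (K : ℝ) ≠ 0 := hK0.ne'
        field_simp
        ring
      have e4 : (K : ℝ) ^ 2 * lam ≤ 256 * (bL * bY) * lam := mul_le_mul_of_nonneg_right hKK (by linarith)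
      have e5 : (K : ℝ) * bL * lam ≤ 16 * (bL * bY) * lam := mul_le_mul_of_nonneg_right hKL (by linarith)
      have e6 : (54 * (K * bY) + 432 * (bL * bY) + 9 * ((K : ℝ) ^ 2 * lam) + 72 * ((K * bL) * lam)) ≤
          4752 * (bL * bY * lam) := by linarith
      have e7 : (54 * (K * bY) + 432 * (bL * bY) + 9 * ((K : ℝ) ^ 2 * lam) + 72 * ((K * bL) * lam)) / a ^ 2 ≤
          4752 * V := by
        rw [hV, mul_div_assoc']
        exact div_le_div_of_nonneg_right e6 ha2.le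
      linarith
    have f2 : 2 * ((n₂ : ℝ) + 1) * (1 + 4 * bY / K) ≤ 7920 * V := by
      have e1 : (0 : ℝ) ≤ 1 + 4 * bY / K := by positivity
      have e2 : ((n₂ : ℝ) + 1) * (1 + 4 * bY / K) ≤
          ((54 * K * bL + 9 * (K : ℝ) ^ 2 * lam) / a ^ 2) * (1 + 4 * bY / K) := mul_le_mul_of_nonneg_right hn₂' e1
      have e3 : ((54 * K * bL + 9 * (K : ℝ) ^ 2 * lam) / a ^ 2) * (1 + 4 * bY / K) =
          (54 * (K * bL) + 216 * (bL * bY) + 9 * ((K : ℝ) ^ 2 * lam) + 36 * ((K * bY) * lam)) / a ^ 2 := by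
        have : (K : ℝ) ≠ 0 := hK0.ne'
        field_simp
        ring
      have e4 : (K : ℝ) ^ 2 * lam ≤ 256 * (bL * bY) * lam := mul_le_mul_of_nonneg_right hKK (by linarith)
      have e5 : (K : ℝ) * bY * lam ≤ 16 * (bL * bY) * lam := mul_le_mul_of_nonneg_right hKY (by linarith)
      have e6 : (54 * (K * bL) + 216 * (bL * bY) + 9 * ((K : ℝ) ^ 2 * lam) + 36 * ((K * bY) * lam)) ≤
          3960 * (bL * bY * lam) := by linarith
      have e7 : (54 * (K * bL) + 216 * (bL * bY) + 9 * ((K : ℝ) ^ 2 * lam) + 36 * ((K * bY) * lam)) / a ^ 2 ≤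
          3960 * V := by
        rw [hV, mul_div_assoc']
        exact div_le_div_of_nonneg_right e6 ha2.le
      linarith
    linarith

/-- **The loop.** -/
theorem loop (L Y S₀ : Finset G) (hL : L.Nonempty) (hY : Y.Nonempty) (hS₀ : -S₀ = S₀) (hS₀n : S₀.Nonempty) (R M : ℕ)
    (hM : 2 * R ≤ M) (a bY bL B lam : ℝ) (ha : 0 < a) (ha1 : a ≤ 1) (hθ : 4 * a + 3 * a * R ≤ 1 / 2)
    (hKb : (8 * 2 ^ R : ℝ) ≤ 16 * bY) (hb1 : 1 ≤ bY) (hbb : bY ≤ bL)
    (hbY : 4 * ((L + Y).card : ℝ) ≤ Real.exp bY * (a ^ M * Y.card))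
    (hbL : 4 * ((L + Y).card : ℝ) ≤ Real.exp bL * (a ^ M * L.card)) (hB0 : 0 ≤ B)
    (hBY : ((Y + ms (dif L Y) M + S₀).card : ℝ) ≤ Real.exp B * (a ^ M * Y.card))
    (hBL : ((L + ms (dif L Y) M + S₀).card : ℝ) ≤ Real.exp B * (a ^ M * L.card))
    (hlam : lam = Real.log (8 / (1 / (100 * (1 + B)))))
    (hκ : ent (cv (uni L) S₀) - ent (uni L) ≤ 1 + bL) (i : ℕ) (hi : i ≤ R) :
    Sta L Y S₀ (2 * i) a (1 - 3 * a * i) (1 + 8 * bL / ((8 * 2 ^ i : ℕ) : ℝ))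
      (Real.log (Fintype.card G / S₀.card) + 17500 * (bL * bY * lam / a ^ 2) * i) := by
  induction i with
  | zero =>
    refine ⟨L, Y, S₀, hL, hY, hS₀n, Subset.rfl, ?_, ?_, ?_, ?_, ?_, ?_, ?_⟩
    · intro x hx
      exact mem_add.2 ⟨x, hx, 0, mem_singleton_self 0, add_zero x⟩
    · intro x hx
      exact mem_add.2 ⟨x, hx, 0, mem_singleton_self 0, add_zero x⟩
    · simp
    · simp
    · intro p hp
      have hYpos : (0 : ℝ) < Y.card := by exact_mod_cast hY.card_pos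
      rw [hm_uni_eq]
      have : ∑ y ∈ Y, ind (L + Y) (y + p) = Y.card := by
        rw [sum_congr rfl (g := fun _ => (1 : ℝ)) (fun y hy => ?_), sum_const, nsmul_eq_mul, mul_one]
        unfold ind
        rw [if_pos]
        rw [add_comm y p]
        exact add_mem_add hp hy
      rw [this, div_self hYpos.ne']
      simp
    · refine hκ.trans (le_of_eq ?_)
      norm_num
    · simp
  | succ i ih =>
    have h1 := ih (by omega)
    have hiR : ((i : ℝ) + 1) ≤ R := by exact_mod_cast hi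
    have hK : (8 * 2 ^ i : ℝ) ≤ 16 * bY := by
      refine le_trans ?_ hKb
      have : (2 : ℝ) ^ i ≤ 2 ^ R := pow_le_pow_right₀ (by norm_num) (by omega)
      linarith
    have h2 := double_step L Y S₀ hL hY hS₀ (2 * i) M (by omega) a (1 - 3 * a * i) _ bY bL B lam ha ha1
      (by
        have : 3 * a * ((i : ℝ) + 1) ≤ 3 * a * R := mul_le_mul_of_nonneg_left hiR (by linarith)
        have e : 3 * a * ((i : ℝ) + 1) = 3 * a * i + 3 * a := by ring
        linarith) (8 * 2 ^ i)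
      (by have : 1 ≤ 2 ^ i := Nat.one_le_two_pow; omega) (by push_cast; exact hK) hb1 hbb hbY hbL hB0 hBY hBL hlam h1
    have e1 : 2 * (i + 1) = 2 * i + 2 := by ring
    have e2 : 8 * 2 ^ (i + 1) = 2 * (8 * 2 ^ i) := by ring
    rw [e1, e2]
    refine h2.mono (le_of_eq ?_) le_rfl (le_of_eq ?_)
    · push_cast
      ring
    · push_cast
      ring

end Pool.Agent.H89.LV
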