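import Pool.Agent.H89.LV.Loop
import Pool.Agent.H89.LV.Four

/-!
# The main theorem
-/

set_option autoImplicit false
set_option linter.unusedSectionVars false
set_option linter.unusedVariables false

namespace Pool.Agent.H89.LV

open Finset Pool.Agent.K4H60.BZ Pool.Agent.H89.EN
open scoped Pointwise BigOperators ComplexConjugate

theorem poly_two (R : ℕ) : ((R : ℝ) + 1) * (R + 3) ≤ 4 * 2 ^ R := by
  induction R with
  | zero => norm_num
  | succ R ih =>
    rcases Nat.eq_zero_or_pos R with h | h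
    · rw [h]; norm_num
    · have hR : (1 : ℝ) ≤ R := by exact_mod_cast h
      push_cast
      rw [pow_succ]
      rcases Nat.lt_or_ge R 2 with h2 | h2
      · have : R = 1 := by omega
        rw [this]; norm_num
      · have hR2 : (2 : ℝ) ≤ R := by exact_mod_cast h2
        nlinarith

/-- the number of steps -/
theorem steps (p : ℝ) (hp : 1 ≤ p) : ∃ R : ℕ, p ≤ 2 ^ R ∧ (2 : ℝ) ^ R ≤ 2 * p ∧ (R : ℝ) + 1 ≤ 2 * (1 + Real.log p) := by
  obtain ⟨R, hR⟩ : ∃ R : ℕ, R = Nat.clog 2 ⌈p⌉₊ := ⟨_, rfl⟩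
  have h1 : p ≤ 2 ^ R := by
    have h2 : ⌈p⌉₊ ≤ 2 ^ R := by rw [hR]; exact Nat.le_pow_clog (by norm_num) _
    calc p ≤ ⌈p⌉₊ := Nat.le_ceil _
      _ ≤ _ := by exact_mod_cast h2
  have h2 : (2 : ℝ) ^ R ≤ 2 * p := by
    rcases Nat.eq_zero_or_pos R with h | h
    · rw [h]
      norm_num
      linarith
    · have h3 : 1 < ⌈p⌉₊ := by
        by_contra hcon
        have : Nat.clog 2 ⌈p⌉₊ = 0 := Nat.clog_of_right_le_one (not_lt.1 hcon) 2
        omega
      have h4 := Nat.pow_pred_clog_lt_self (b := 2) (by norm_num) h3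
      rw [← hR] at h4
      have h5 : ((2 ^ R.pred : ℕ) : ℝ) < p := by
        have := Nat.lt_ceil.1 h4
        exact this
      have h6 : (2 : ℝ) ^ R = 2 * 2 ^ R.pred := by
        rw [← pow_succ']
        congr 1
        exact (Nat.succ_pred_eq_of_pos h).symm
      rw [h6]
      push_cast at h5
      linarith
  refine ⟨R, h1, h2, ?_⟩
  have h3 : (R : ℝ) * Real.log 2 ≤ Real.log 2 + Real.log p := by
    rw [← Real.log_mul (by norm_num) (by linarith), ← Real.log_pow]
    exact Real.log_le_log (by positivity) h2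
  have h4 := Real.log_two_gt_d9
  have h5 : 0 ≤ Real.log p := Real.log_nonneg hp
  nlinarith

theorem logM (p : ℝ) (hp : 1 ≤ p) (R : ℕ) (h1 : (2 : ℝ) ^ R ≤ 2 * p) :
    ((2 * R + 2 : ℕ) : ℝ) * Real.log (8 * ((2 * R + 2 : ℕ) : ℝ)) ≤ 16 * p := by
  have h2 : Real.log (8 * ((2 * R + 2 : ℕ) : ℝ)) ≤ (R : ℝ) + 3 := by
    have e : (8 : ℝ) * ((2 * R + 2 : ℕ) : ℝ) = 2 ^ 4 * (R + 1) := by push_cast; ring
    rw [e, Real.log_mul (by norm_num) (by positivity), Real.log_pow]
    have h3 : Real.log ((R : ℝ) + 1) ≤ R := by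
      have := Real.log_le_sub_one_of_pos (show (0 : ℝ) < (R : ℝ) + 1 by positivity)
      linarith
    have := Real.log_two_lt_d9
    push_cast
    linarith
  have h3 := poly_two R
  have h4 : (0 : ℝ) ≤ ((2 * R + 2 : ℕ) : ℝ) := by positivity
  calc ((2 * R + 2 : ℕ) : ℝ) * Real.log (8 * ((2 * R + 2 : ℕ) : ℝ)) ≤ ((2 * R + 2 : ℕ) : ℝ) * ((R : ℝ) + 3) :=
        mul_le_mul_of_nonneg_left h2 h4
    _ = 2 * (((R : ℝ) + 1) * (R + 3)) := by push_cast; ring
    _ ≤ 2 * (4 * 2 ^ R) := by linarith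
    _ ≤ 16 * p := by linarith

/-- the final numbers -/
theorem final_cost (p q lam x : ℝ) (R : ℕ) (hp : 1 ≤ p) (hpq : p ≤ q) (hlam : 1 ≤ lam) (hR : (R : ℝ) + 1 ≤ 2 * x)
    (bY bL a V : ℝ) (ha : a = 1 / (8 * ((2 * R + 2 : ℕ) : ℝ))) (hbY : bY ≤ 17 * p) (hbL : bL ≤ 17 * q) (hbY1 : 1 ≤ bY)
    (hbL1 : 1 ≤ bL) (hV : V = bL * bY * lam / a ^ 2) :
    V * ((R : ℝ) + 1) ≤ 600000 * (q * p * x ^ 3 * lam) := by
  have hR1 : (1 : ℝ) ≤ (R : ℝ) + 1 := by
    have : (0 : ℝ) ≤ R := Nat.cast_nonneg R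
    linarith
  have hx : 1 / 2 ≤ x := by linarith
  have hx0 : 0 ≤ x := by linarith
  have hq0 : 0 ≤ q := by linarith
  have hp0 : 0 ≤ p := by linarith
  have hlam0 : 0 ≤ lam := by linarith
  have h1 : V = bL * bY * lam * (256 * ((R : ℝ) + 1) ^ 2) := by
    rw [hV, ha]
    push_cast
    have : (R : ℝ) + 1 ≠ 0 := by positivity
    field_simp
    ring
  have h2 : bL * bY ≤ 289 * (q * p) := by
    calc bL * bY ≤ (17 * q) * (17 * p) := mul_le_mul hbL hbY (by linarith) (by linarith)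
      _ = _ := by ring
  have h3 : ((R : ℝ) + 1) ^ 3 ≤ 8 * x ^ 3 := by
    calc ((R : ℝ) + 1) ^ 3 ≤ (2 * x) ^ 3 := pow_le_pow_left₀ (by linarith) hR 3
      _ = _ := by ring
  have h4 : V * ((R : ℝ) + 1) = 256 * lam * ((bL * bY) * ((R : ℝ) + 1) ^ 3) := by rw [h1]; ring
  rw [h4]
  have h5 : (bL * bY) * ((R : ℝ) + 1) ^ 3 ≤ (289 * (q * p)) * (8 * x ^ 3) :=
    mul_le_mul h2 h3 (by positivity) (by positivity)
  calc 256 * lam * ((bL * bY) * ((R : ℝ) + 1) ^ 3) ≤ 256 * lam * ((289 * (q * p)) * (8 * x ^ 3)) :=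
        mul_le_mul_of_nonneg_left h5 (by linarith)
    _ = 591872 * (q * p * x ^ 3 * lam) := by ring
    _ ≤ _ := by
        have : 0 ≤ q * p * x ^ 3 * lam := by positivity
        linarith

variable {G : Type*} [AddCommGroup G] [Fintype G] [DecidableEq G]

/-- **The main theorem.** -/
theorem main (L Y S₀ : Finset G) (hL : L.Nonempty) (hY : Y.Nonempty) (hS₀ : -S₀ = S₀) (hS₀n : S₀.Nonempty)
    (p q B₀ : ℝ) (hp1 : 1 ≤ p) (hpq : p ≤ q) (hB₀ : 0 ≤ B₀) (hp : 4 * ((L + Y).card : ℝ) ≤ Real.exp p * Y.card)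
    (hq : 4 * ((L + Y).card : ℝ) ≤ Real.exp q * L.card) (hκ : ((L + S₀).card : ℝ) ≤ Real.exp q * L.card)
    (hBY : ∀ m : ℕ, (m : ℝ) ≤ 4 * (1 + Real.log p) →
      ((Y + ms (dif L Y) m + S₀).card : ℝ) ≤ Real.exp B₀ * Y.card)
    (hBL : ∀ m : ℕ, (m : ℝ) ≤ 4 * (1 + Real.log p) →
      ((L + ms (dif L Y) m + S₀).card : ℝ) ≤ Real.exp B₀ * L.card) :
    ∃ Λ : Finset (AddChar G ℂ),
      (Λ.card : ℝ) ≤ 8 * (Real.log (Fintype.card G / S₀.card) +
        10 ^ 15 * (q * p * (1 + Real.log p) ^ 3 * Real.log (2 + B₀ + p))) ∧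
      ∀ x : G, (∀ ψ ∈ Λ, ‖ψ x - 1‖ ≤ 1 / (40 * ((Λ.card : ℝ) + 1))) →
        ∃ w₁ ∈ L + Y, ∃ w₂ ∈ L + Y, x = w₁ - w₂ := by
  classical
  obtain ⟨R, hR1, hR2, hR3⟩ := steps p hp1
  obtain ⟨M, hM⟩ : ∃ M : ℕ, M = 2 * R + 2 := ⟨_, rfl⟩
  have hMR : (M : ℝ) = 2 * ((R : ℝ) + 1) := by rw [hM]; push_cast; ring
  have hRn : (0 : ℝ) ≤ R := Nat.cast_nonneg R
  have hMpos : (0 : ℝ) < M := by rw [hMR]; positivity
  obtain ⟨a, ha⟩ : ∃ a : ℝ, a = 1 / (8 * (M : ℝ)) := ⟨_, rfl⟩
  have ha0 : 0 < a := by rw [ha]; positivity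
  have haM : a * M = 1 / 8 := by
    rw [ha]
    field_simp
  have haM' : a * ((R : ℝ) + 1) = 1 / 16 := by
    rw [hMR] at haM
    linarith
  have haR : a + a * R = 1 / 16 := by linarith
  have haR0 : 0 ≤ a * R := by positivity
  have ha1 : a ≤ 1 / 16 := by linarith
  obtain ⟨u, hu⟩ : ∃ u : ℝ, u = (M : ℝ) * Real.log (8 * (M : ℝ)) := ⟨_, rfl⟩
  have hu1 : u ≤ 16 * p := by
    rw [hu, hM]
    exact logM p hp1 R hR2
  have hu0 : 0 ≤ u := by
    rw [hu]
    apply mul_nonneg hMpos.le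
    apply Real.log_nonneg
    rw [hMR]
    linarith
  have hau : Real.exp u * a ^ M = 1 := by
    rw [hu, Real.exp_nat_mul, Real.exp_log (by positivity), ← mul_pow, ha]
    rw [mul_one_div_cancel (by positivity), one_pow]
  have hconv : ∀ (X Z : Finset G) (s : ℝ) (t : ℝ), t * (X.card : ℝ) ≤ Real.exp s * Z.card →
      t * (X.card : ℝ) ≤ Real.exp (s + u) * (a ^ M * Z.card) := by
    intro X Z s t h
    refine h.trans (le_of_eq ?_)
    rw [Real.exp_add]
    calc Real.exp s * (Z.card : ℝ) = Real.exp s * Z.card * (Real.exp u * a ^ M) := by rw [hau, mul_one]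
      _ = _ := by ring
  have hM4 : (M : ℝ) ≤ 4 * (1 + Real.log p) := by
    rw [hMR]
    linarith
  have hlogp : 0 ≤ Real.log p := Real.log_nonneg hp1
  obtain ⟨B, hB⟩ : ∃ B : ℝ, B = B₀ + u := ⟨_, rfl⟩
  obtain ⟨lam, hlam⟩ : ∃ lam : ℝ, lam = Real.log (8 / (1 / (100 * (1 + B)))) := ⟨_, rfl⟩
  have hB0 : 0 ≤ B := by rw [hB]; positivity
  have hlam1 : 1 ≤ lam := by rw [hlam]; exact (log_eps B hB0).1
  obtain ⟨V, hV⟩ : ∃ V : ℝ, V = (q + u) * (p + u) * lam / a ^ 2 := ⟨_, rfl⟩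
  have hent : ent (cv (uni L) S₀) - ent (uni L) ≤ 1 + (q + u) := by
    have h1 : ent (cv (uni L) S₀) ≤ Real.log (L + S₀).card := by
      refine ent_le_log _ (cv_prob (uni_prob hL) hS₀n) (L + S₀) ?_
      intro x hx
      by_contra hcon
      apply hx
      unfold cv
      rw [sum_eq_zero, zero_div]
      intro s hs
      by_contra h2
      apply hcon
      have h3 := uni_supp L _ h2
      have h4 : x = (x - s) + s := by abel
      rw [h4]
      exact add_mem_add h3 hs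
    have hLpos : (0 : ℝ) < L.card := by exact_mod_cast hL.card_pos
    have h2 : Real.log (L + S₀).card ≤ q + Real.log L.card := by
      have h3 : (0 : ℝ) < (L + S₀).card := by exact_mod_cast (hL.add hS₀n).card_pos
      have := Real.log_le_log h3 hκ
      rw [Real.log_mul (Real.exp_pos _).ne' hLpos.ne', Real.log_exp] at this
      exact this
    rw [ent_uni hL]
    linarith
  have hbY : 4 * ((L + Y).card : ℝ) ≤ Real.exp (p + u) * (a ^ M * Y.card) := hconv _ _ _ _ hp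
  have hbL : 4 * ((L + Y).card : ℝ) ≤ Real.exp (q + u) * (a ^ M * L.card) := hconv _ _ _ _ hq
  have h1 := loop L Y S₀ hL hY hS₀ hS₀n R M (by omega) a (p + u) (q + u) B lam ha0 (by linarith)
    (by linarith) (by linarith) (by linarith) (by linarith) hbY hbL
    hB0 (by
      have := hconv (Y + ms (dif L Y) M + S₀) Y B₀ 1 (by rw [one_mul]; exact hBY M hM4)
      rw [one_mul] at this
      rw [hB]
      exact this) (by
      have := hconv (L + ms (dif L Y) M + S₀) L B₀ 1 (by rw [one_mul]; exact hBL M hM4)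
      rw [one_mul] at this
      rw [hB]
      exact this) hlam hent R le_rfl
  rw [← hV] at h1
  -- the last step
  obtain ⟨K, hK⟩ : ∃ K : ℕ, K = ⌈400 * (p + u)⌉₊ := ⟨_, rfl⟩
  have hK1 : 400 * (p + u) ≤ K := by rw [hK]; exact Nat.le_ceil _
  have hK2 : (K : ℝ) ≤ 401 * (p + u) := by
    have := Nat.ceil_lt_add_one (show 0 ≤ 400 * (p + u) by positivity)
    rw [← hK] at this
    linarith
  have hK8 : 8 ≤ K := by
    have : (8 : ℝ) ≤ K := by linarith
    exact_mod_cast this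
  obtain ⟨n, hn1, hn2⟩ := samples K hK8 a (p + u) lam ha0 (by linarith) (by linarith) hlam1
  have hn1' : 8 * (K : ℝ) ^ 2 / a ^ 2 * (6 * (p + u) / K + Real.log (8 / (1 / 100))) ≤ n := by
    refine le_trans ?_ hn1
    apply mul_le_mul_of_nonneg_left _ (by positivity)
    have := (log_eps B hB0).2
    rw [← hlam] at this
    linarith
  obtain ⟨L', T, hL', hT, hTc, h09, hsub⟩ := last_step L Y S₀ hL hY (2 * R) M (by omega) a _ _ _ ha0 (by linarith)
    (by linarith) (by linarith) h1 K hK8 (p + u) (by linarith) hbY (by linarith) n hn1'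
  obtain ⟨Λ, hΛ, hmain⟩ := four L' T hL' hT h09
  refine ⟨Λ, ?_, ?_⟩
  · have e1 : 1 + 8 * (q + u) / ((8 * 2 ^ R : ℕ) : ℝ) ≤ 1 + (q + u) / p := by
      push_cast
      have : 8 * (q + u) / (8 * 2 ^ R : ℝ) = (q + u) / 2 ^ R := by
        field_simp
      rw [this]
      have : (q + u) / 2 ^ R ≤ (q + u) / p := div_le_div_of_nonneg_left (by linarith) (by linarith) hR1
      linarith
    have ha2 : 0 < a ^ 2 := by positivity
    have hYY : (p + u) * (p + u) ≤ (q + u) * (p + u) := mul_le_mul_of_nonneg_right (by linarith) (by linarith)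
    have hYYlam : (p + u) * (p + u) ≤ (p + u) * (p + u) * lam := by
      have : 0 ≤ (p + u) * (p + u) := by positivity
      nlinarith
    have e2 : (n : ℝ) + 1 ≤ 1468863 * ((p + u) * (p + u) * lam) / a ^ 2 := by
      refine hn2.trans (div_le_div_of_nonneg_right ?_ ha2.le)
      have f1 : (K : ℝ) * (p + u) ≤ 401 * ((p + u) * (p + u)) := by nlinarith
      have f2 : (K : ℝ) ^ 2 ≤ 160801 * ((p + u) * (p + u)) := by nlinarith
      have f3 : (K : ℝ) ^ 2 * lam ≤ 160801 * ((p + u) * (p + u)) * lam := mul_le_mul_of_nonneg_right f2 (by linarith)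
      linarith
    have e3 : (p + u) * (p + u) * lam * (1 + (q + u) / p) ≤ 18 * ((q + u) * (p + u) * lam) := by
      have f1 : (p + u) / p ≤ 17 := by
        rw [div_le_iff₀ (by linarith)]
        linarith
      have f2 : (p + u) * (p + u) * lam * (1 + (q + u) / p) =
          (p + u) * (p + u) * lam + ((p + u) / p) * ((q + u) * (p + u) * lam) := by
        have : p ≠ 0 := by linarith
        field_simp
      have f3 : 0 ≤ (q + u) * (p + u) * lam := by
        have : 0 ≤ q + u := by linarith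
        positivity
      have f4 : (p + u) * (p + u) * lam ≤ (q + u) * (p + u) * lam := mul_le_mul_of_nonneg_right hYY (by linarith)
      have f5 : ((p + u) / p) * ((q + u) * (p + u) * lam) ≤ 17 * ((q + u) * (p + u) * lam) :=
        mul_le_mul_of_nonneg_right f1 f3
      rw [f2]
      linarith
    have hV1 : 1 ≤ V := by
      rw [hV, le_div_iff₀ ha2]
      have : a ^ 2 ≤ 1 := pow_le_one₀ ha0.le (by linarith)
      have g1 : 1 ≤ (q + u) * (p + u) := by nlinarith
      nlinarith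
    have e4 : 2 * ((n : ℝ) + 1) * (1 + 8 * (q + u) / ((8 * 2 ^ R : ℕ) : ℝ)) ≤ 52879068 * V := by
      have g0 : 0 ≤ 1 + (q + u) / p := by
        have : 0 ≤ q + u := by linarith
        positivity
      calc 2 * ((n : ℝ) + 1) * (1 + 8 * (q + u) / ((8 * 2 ^ R : ℕ) : ℝ)) ≤
            2 * ((n : ℝ) + 1) * (1 + (q + u) / p) := mul_le_mul_of_nonneg_left e1 (by positivity)
        _ ≤ 2 * (1468863 * ((p + u) * (p + u) * lam) / a ^ 2) * (1 + (q + u) / p) := by
            apply mul_le_mul_of_nonneg_right _ g0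
            linarith
        _ = 2937726 * ((p + u) * (p + u) * lam * (1 + (q + u) / p)) / a ^ 2 := by ring
        _ ≤ 2937726 * (18 * ((q + u) * (p + u) * lam)) / a ^ 2 := by
            apply div_le_div_of_nonneg_right _ ha2.le
            linarith
        _ = 52879068 * V := by rw [hV]; ring
    have e5 : Real.log (Fintype.card G / T.card) ≤ Real.log (Fintype.card G / S₀.card) +
        54000000 * (V * ((R : ℝ) + 1)) := by
      have g1 : 0 ≤ V * R := mul_nonneg (by linarith) hRn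
      linarith
    have e6 := final_cost p q lam (1 + Real.log p) R hp1 hpq hlam1 hR3 (p + u) (q + u) a V (by rw [ha, hM]) (by linarith)
      (by linarith) (by linarith) (by linarith) hV
    have e7 : lam ≤ 10 * Real.log (2 + B₀ + p) := by
      have g1 : (8 : ℝ) / (1 / (100 * (1 + B))) = 800 * (1 + B) := by
        rw [div_div_eq_mul_div, div_one]
        ring
      obtain ⟨y, hy⟩ : ∃ y : ℝ, y = 2 + B₀ + p := ⟨_, rfl⟩
      have hy3 : 3 ≤ y := by linarith
      have g2 : 800 * (1 + B) ≤ y ^ 10 := by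
        have k1 : 800 * (1 + B) ≤ 12800 * y := by
          rw [hB, hy]
          linarith
        have k2 : (3 : ℝ) ^ 9 ≤ y ^ 9 := pow_le_pow_left₀ (by norm_num) hy3 9
        have k3 : y ^ 10 = y ^ 9 * y := by ring
        rw [k3]
        have k4 : (12800 : ℝ) ≤ y ^ 9 := by
          refine le_trans ?_ k2
          norm_num
        exact k1.trans (mul_le_mul_of_nonneg_right k4 (by linarith))
      rw [hlam, g1, ← hy]
      calc Real.log (800 * (1 + B)) ≤ Real.log (y ^ 10) := Real.log_le_log (by positivity) g2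
        _ = 10 * Real.log y := by rw [Real.log_pow]; norm_num
    have e8 : q * p * (1 + Real.log p) ^ 3 * lam ≤ 10 * (q * p * (1 + Real.log p) ^ 3 * Real.log (2 + B₀ + p)) := by
      have g1 : 0 ≤ q * p * (1 + Real.log p) ^ 3 := by
        have : 0 ≤ q := by linarith
        positivity
      calc q * p * (1 + Real.log p) ^ 3 * lam ≤ q * p * (1 + Real.log p) ^ 3 * (10 * Real.log (2 + B₀ + p)) :=
            mul_le_mul_of_nonneg_left e7 g1
        _ = _ := by ring
    have e9 : 0 ≤ q * p * (1 + Real.log p) ^ 3 * Real.log (2 + B₀ + p) := by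
      have : 0 ≤ Real.log (2 + B₀ + p) := Real.log_nonneg (by linarith)
      have : 0 ≤ q := by linarith
      positivity
    linarith
  · intro x hx
    obtain ⟨z, hz, z', hz', hxz⟩ := hmain x hx
    obtain ⟨w₁, hw₁, w₂, hw₂, hw⟩ := mem_sub.1 (hsub z hz z' hz')
    exact ⟨w₁, hw₁, w₂, hw₂, by rw [hxz, hw]⟩

end Pool.Agent.H89.LV
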