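import Pool.Agent.H89.LV.Step
import Pool.Agent.H89.EN.Rec

/-!
# One step of the iteration
-/

set_option autoImplicit false
set_option linter.unusedSectionVars false
set_option linter.unusedVariables false

namespace Pool.Agent.H89.LV

open Finset Pool.Agent.K4H60.BZ Pool.Agent.H89.EN
open scoped Pointwise BigOperators ComplexConjugate

variable {G : Type*} [AddCommGroup G] [Fintype G] [DecidableEq G]

/-- the set of the sums of `r` elements of `D` -/
def ms (D : Finset G) : ℕ → Finset G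
  | 0 => {0}
  | r + 1 => ms D r + D

/-- the differences of the elements of `L + Y` -/
def dif (L Y : Finset G) : Finset G := (L + Y) - (L + Y)

theorem dif_comm (L Y : Finset G) : dif Y L = dif L Y := by
  unfold dif
  rw [add_comm]

theorem dif_neg (L Y : Finset G) : -dif L Y = dif L Y := by
  unfold dif
  rw [neg_sub]

theorem zero_mem_dif (L Y : Finset G) (hL : L.Nonempty) (hY : Y.Nonempty) : (0 : G) ∈ dif L Y := by
  obtain ⟨w, hw⟩ := hL.add hY
  unfold dif
  rw [mem_sub]
  exact ⟨w, hw, w, hw, sub_self w⟩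

theorem ms_neg (D : Finset G) (h : -D = D) (r : ℕ) : -ms D r = ms D r := by
  induction r with
  | zero =>
    show -({0} : Finset G) = {0}
    simp
  | succ r ih =>
    show -(ms D r + D) = ms D r + D
    rw [neg_add, ih, h]

theorem ms_mono (D : Finset G) (h : (0 : G) ∈ D) {r r' : ℕ} (hr : r ≤ r') : ms D r ⊆ ms D r' := by
  induction hr with
  | refl => exact Subset.rfl
  | step _ ih =>
    refine ih.trans ?_
    intro x hx
    show x ∈ ms D _ + D
    rw [mem_add]
    exact ⟨x, hx, 0, h, add_zero x⟩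

theorem hm_pos_imp (P W : Finset G) (z : G) (h : 0 < hm (uni P) W z) : ∃ p ∈ P, p + z ∈ W := by
  by_contra hcon
  push Not at hcon
  have h1 : hm (uni P) W z = 0 := by
    unfold hm
    apply sum_eq_zero
    intro x _
    by_cases hx : x ∈ P
    · have : ind W (x + z) = 0 := by
        unfold ind
        rw [if_neg (hcon x hx)]
      rw [this, mul_zero]
    · unfold uni
      rw [if_neg hx, zero_mul]
  linarith

theorem hm_uni_eq (P W : Finset G) (z : G) : hm (uni P) W z = (∑ p ∈ P, ind W (p + z)) / P.card := by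
  unfold hm uni
  rw [sum_div]
  rw [← sum_subset (subset_univ P)]
  · apply sum_congr rfl
    intro x hx
    rw [if_pos hx]
    ring
  · intro x _ hx
    rw [if_neg hx, zero_mul]

/-- the mean of `hm (uni P)` over `Q` is the mean of `hm (uni Q)` over `P` -/
theorem hm_swap (P Q W : Finset G) (hP : P.Nonempty) (hQ : Q.Nonempty) :
    (∑ q ∈ Q, hm (uni P) W q) * P.card = (∑ p ∈ P, hm (uni Q) W p) * Q.card := by
  have hPpos : (0 : ℝ) < P.card := by exact_mod_cast hP.card_pos
  have hQpos : (0 : ℝ) < Q.card := by exact_mod_cast hQ.card_pos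
  simp_rw [hm_uni_eq]
  rw [← sum_div, ← sum_div, div_mul_cancel₀ _ hPpos.ne', div_mul_cancel₀ _ hQpos.ne', sum_comm]
  apply sum_congr rfl
  intro p _
  apply sum_congr rfl
  intro q _
  rw [add_comm]

/-- many elements of `Q` are in the level set -/
theorem lev_large (P Q W : Finset G) (hP : P.Nonempty) (hQ : Q.Nonempty) (θ a : ℝ) (ha : 0 < a)
    (h : ∀ p ∈ P, θ ≤ hm (uni Q) W p) (hθ : a ≤ θ) : a * Q.card ≤ ((lev W P (θ - a)).card : ℝ) := by
  classical
  have hPpos : (0 : ℝ) < P.card := by exact_mod_cast hP.card_pos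
  have hQpos : (0 : ℝ) < Q.card := by exact_mod_cast hQ.card_pos
  have h1 : θ * Q.card ≤ ∑ q ∈ Q, hm (uni P) W q := by
    have h2 := hm_swap P Q W hP hQ
    have h3 : (P.card : ℝ) * θ ≤ ∑ p ∈ P, hm (uni Q) W p := by
      calc (P.card : ℝ) * θ = ∑ p ∈ P, θ := by rw [sum_const, nsmul_eq_mul]
        _ ≤ _ := sum_le_sum h
    have h4 : (θ * Q.card) * P.card ≤ (∑ q ∈ Q, hm (uni P) W q) * P.card := by
      rw [h2]
      calc (θ * Q.card) * P.card = (P.card * θ) * Q.card := by ring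
        _ ≤ _ := mul_le_mul_of_nonneg_right h3 hQpos.le
    exact le_of_mul_le_mul_right h4 hPpos
  obtain ⟨F, hF⟩ : ∃ F : Finset G, F = Q.filter fun q => θ - a ≤ hm (uni P) W q := ⟨_, rfl⟩
  have h2 : ∑ q ∈ Q, hm (uni P) W q ≤ F.card + (θ - a) * Q.card := by
    have h3 : ∀ q ∈ Q, hm (uni P) W q ≤ (if q ∈ F then 1 else 0) + (θ - a) := by
      intro q hq
      by_cases hqF : q ∈ F
      · rw [if_pos hqF]
        have := hm_le_one (uni_prob hP) W q
        linarith
      · rw [if_neg hqF, zero_add]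
        rw [hF, mem_filter, not_and] at hqF
        exact (not_le.1 (hqF hq)).le
    calc ∑ q ∈ Q, hm (uni P) W q ≤ ∑ q ∈ Q, ((if q ∈ F then 1 else 0) + (θ - a)) := sum_le_sum h3
      _ = (∑ q ∈ Q, (if q ∈ F then (1 : ℝ) else 0)) + (θ - a) * Q.card := by
          rw [sum_add_distrib, sum_const, nsmul_eq_mul]
          ring
      _ = _ := by
          congr 1
          rw [← sum_filter, sum_const, nsmul_eq_mul, mul_one]
          congr 2
          ext q
          rw [mem_filter]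
          constructor
          · exact fun h => h.2
          · intro h
            refine ⟨?_, h⟩
            rw [hF] at h
            exact (mem_filter.1 h).1
  have h3 : (F.card : ℝ) ≤ (lev W P (θ - a)).card := by
    have : F ⊆ lev W P (θ - a) := by
      intro q hq
      rw [hF, mem_filter] at hq
      rw [mem_lev]
      exact hq.2
    exact_mod_cast card_le_card this
  linarith

/-- the state -/
def Sta (L Y S₀ : Finset G) (r : ℕ) (a θ κ c : ℝ) : Prop :=
  ∃ P Q S : Finset G, P.Nonempty ∧ Q.Nonempty ∧ S.Nonempty ∧ S ⊆ S₀ ∧ P ⊆ L + ms (dif L Y) r ∧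
    Q ⊆ Y + ms (dif L Y) r ∧ a ^ r * L.card ≤ P.card ∧ a ^ r * Y.card ≤ Q.card ∧
    (∀ p ∈ P, θ ≤ hm (uni Q) (L + Y) p) ∧ ent (cv (uni P) S) - ent (uni P) ≤ κ ∧
    Real.log (Fintype.card G / S.card) ≤ c

theorem Sta.mono {L Y S₀ : Finset G} {r : ℕ} {a θ κ c θ' κ' c' : ℝ} (h : Sta L Y S₀ r a θ κ c) (h1 : θ' ≤ θ)
    (h2 : κ ≤ κ') (h3 : c ≤ c') : Sta L Y S₀ r a θ' κ' c' := by
  obtain ⟨P, Q, S, hP, hQ, hS, hSS, hPL, hQY, hPc, hQc, hθ, hκ, hc⟩ := h
  exact ⟨P, Q, S, hP, hQ, hS, hSS, hPL, hQY, hPc, hQc, fun p hp => h1.trans (hθ p hp), hκ.trans h2, hc.trans h3⟩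

/-- the level sets are near `Y` -/
theorem lev_subset (L Y P : Finset G) (hL : L.Nonempty) (hY : Y.Nonempty) (r : ℕ)
    (hPL : P ⊆ L + ms (dif L Y) r) (θ : ℝ) (hθ : 0 < θ) : lev (L + Y) P θ ⊆ Y + ms (dif L Y) (r + 1) := by
  intro z hz
  rw [mem_lev] at hz
  obtain ⟨p, hp, hpz⟩ := hm_pos_imp P (L + Y) z (lt_of_lt_of_le hθ hz)
  obtain ⟨l, hl, d, hd, hld⟩ := mem_add.1 (hPL hp)
  obtain ⟨y, hy⟩ := hY
  have h1 : -d ∈ ms (dif L Y) r := by
    rw [← ms_neg _ (dif_neg L Y) r, mem_neg]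
    exact ⟨d, hd, rfl⟩
  have h2 : (p + z) - (l + y) ∈ dif L Y := by
    unfold dif
    exact mem_sub.2 ⟨_, hpz, _, add_mem_add hl hy, rfl⟩
  have h3 : z = y + (-d + ((p + z) - (l + y))) := by
    rw [← hld]
    abel
  rw [h3]
  exact add_mem_add hy (add_mem_add h1 h2)

/-- **One step.** -/
theorem one_step (L Y S₀ : Finset G) (hL : L.Nonempty) (hY : Y.Nonempty) (hS₀ : -S₀ = S₀) (r M : ℕ) (hr : r + 1 ≤ M)
    (a θ κ c : ℝ) (ha : 0 < a) (ha1 : a ≤ 1) (hθ : 1 / 2 + 2 * a ≤ θ) (h : Sta L Y S₀ r a θ κ c) (K : ℕ) (hK : 8 ≤ K)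
    (b : ℝ) (hb0 : 0 < b) (hb : 4 * ((L + Y).card : ℝ) ≤ Real.exp b * (a ^ M * Y.card)) (ε : ℝ) (hε : 0 < ε)
    (hε1 : ε ≤ 1) (B : ℝ) (hB0 : 0 ≤ B) (hB : ((Y + ms (dif L Y) M + S₀).card : ℝ) ≤ Real.exp B * (a ^ M * Y.card))
    (n : ℕ) (hn : 8 * K ^ 2 / a ^ 2 * (6 * b / K + Real.log (8 / ε)) ≤ n) (hκ0 : 0 ≤ κ) :
    ∃ θ' : ℝ, θ - 3 / 2 * a ≤ θ' ∧ Sta Y L S₀ (r + 1) a θ' (Real.log 2 + (4 * b / K + ε) + ε * B)
      (c + 2 + 2 * ((n : ℝ) + 1) * κ) := by
  classical
  obtain ⟨P, Q, S, hP, hQ, hS, hSS, hPL, hQY, hPc, hQc, hθP, hκ, hc⟩ := h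
  have hYpos : (0 : ℝ) < Y.card := by exact_mod_cast hY.card_pos
  have hLpos : (0 : ℝ) < L.card := by exact_mod_cast hL.card_pos
  have hW : (L + Y).Nonempty := hL.add hY
  have hKpos : (0 : ℝ) < K := by exact_mod_cast (show 0 < K by omega)
  have har : a ^ M ≤ a ^ (r + 1) := pow_le_pow_of_le_one ha.le ha1 hr
  -- the level set is large
  have h1 : a ^ (r + 1) * Y.card ≤ ((lev (L + Y) P (θ - a)).card : ℝ) := by
    have h2 := lev_large P Q (L + Y) hP hQ θ a ha hθP (by linarith)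
    calc a ^ (r + 1) * Y.card = a * (a ^ r * Y.card) := by ring
      _ ≤ a * Q.card := mul_le_mul_of_nonneg_left hQc ha.le
      _ ≤ _ := h2
  have h1' : a ^ M * Y.card ≤ ((lev (L + Y) P (θ - a)).card : ℝ) :=
    (mul_le_mul_of_nonneg_right har hYpos.le).trans h1
  have hlevpos : (0 : ℝ) < ((lev (L + Y) P (θ - a)).card : ℝ) :=
    lt_of_lt_of_le (by positivity) h1
  have hne : (lev (L + Y) P (θ - a)).Nonempty := by
    rw [← card_pos]
    exact_mod_cast hlevpos
  have hb' : 4 * ((L + Y).card : ℝ) ≤ Real.exp b * (lev (L + Y) P (θ - a)).card :=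
    hb.trans (mul_le_mul_of_nonneg_left h1' (Real.exp_pos _).le)
  obtain ⟨θ', hθ1, hθ2, T, Qs, L'', hTS, hT, hTc, hLL, hLc, hq1, hq2⟩ :=
    level_step (L + Y) P S hP hS hW κ hκ K hK a (θ - a) ha ha1 (by linarith) hne b hb0 hb' ε hε hε1 n hn
  have hmono := lev_mono (L + Y) P (θ - a) θ' hθ2
  have hPne : (lev (L + Y) P θ').Nonempty := hne.mono hmono
  have hcard : ((lev (L + Y) P (θ - a)).card : ℝ) ≤ (lev (L + Y) P θ').card := by
    exact_mod_cast card_le_card hmono
  have hlev'pos : (0 : ℝ) < ((lev (L + Y) P θ').card : ℝ) := lt_of_lt_of_le hlevpos hcard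
  have hθ'pos : 0 < θ' := by linarith
  have hsub := lev_subset L Y P hL hY r hPL θ' hθ'pos
  have hdc : dif Y L = dif L Y := dif_comm L Y
  refine ⟨θ', by linarith, lev (L + Y) P θ', P, -T, hPne, hP, hT.neg, ?_, ?_, ?_, ?_, ?_, ?_, ?_, ?_⟩
  · rw [← hS₀]
    exact neg_subset_neg (hTS.trans hSS)
  · rw [hdc]
    exact hsub
  · rw [hdc]
    exact hPL.trans (add_subset_add_left (ms_mono _ (zero_mem_dif L Y hL hY) (Nat.le_succ r)))
  · exact h1.trans hcard
  · refine le_trans ?_ hPc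
    have : a ^ (r + 1) ≤ a ^ r := pow_le_pow_of_le_one ha.le ha1 (Nat.le_succ r)
    exact mul_le_mul_of_nonneg_right this hLpos.le
  · intro z hz
    rw [mem_lev] at hz
    rw [add_comm Y L]
    exact hz
  · -- the entropy
    have hQcard : (Qs.card : ℝ) ≤ Real.exp (4 * b / K + ε) * (lev (L + Y) P θ').card := by
      obtain ⟨s, hs⟩ := hT
      have e1 := hq2 s hs
      have e2 : ((Qs.filter fun v => v + s ∈ L'').card : ℝ) ≤ L''.card := by
        have : (Qs.filter fun v => v + s ∈ L'').card ≤ L''.card := by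
          refine card_le_card_of_injOn (fun v => v + s) ?_ ?_
          · intro v hv
            exact (mem_filter.1 hv).2
          · intro v _ v' _ hvv
            exact add_right_cancel hvv
        exact_mod_cast this
      have e3 : (Qs.card : ℝ) = (Qs.filter fun v => v + s ∈ L'').card + (Qs.filter fun v => ¬ v + s ∈ L'').card := by
        have := card_filter_add_card_filter_not (s := Qs) (fun v => v + s ∈ L'')
        exact_mod_cast this.symm
      have e4 : Real.exp (4 * b / K) + ε ≤ Real.exp (4 * b / K + ε) := by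
        rw [Real.exp_add]
        have f1 : 1 + ε ≤ Real.exp ε := by
          have := Real.add_one_le_exp ε
          linarith
        have f2 : 1 ≤ Real.exp (4 * b / K) := Real.one_le_exp (by positivity)
        nlinarith
      have e5 : (Real.exp (4 * b / K) + ε) * (lev (L + Y) P θ').card ≤
          Real.exp (4 * b / K + ε) * (lev (L + Y) P θ').card := mul_le_mul_of_nonneg_right e4 hlev'pos.le
      have e6 : (Qs.card : ℝ) ≤ (Real.exp (4 * b / K) + ε) * (lev (L + Y) P θ').card := by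
        rw [e3, add_mul]
        exact add_le_add (e2.trans hLc) e1
      exact e6.trans e5
    refine ent_growth (lev (L + Y) P θ') T Qs (Y + ms (dif L Y) M + S₀) hPne hT ε (4 * b / K + ε) B hε.le
      (by positivity) hB0 hq1 ?_ hQcard ?_
    · intro s hs z hz
      rw [sub_eq_add_neg]
      refine add_mem_add ?_ ?_
      · exact (hsub.trans (add_subset_add_left (ms_mono _ (zero_mem_dif L Y hL hY) hr))) hz
      · rw [← hS₀, mem_neg]
        exact ⟨s, hSS (hTS hs), rfl⟩
    · refine hB.trans (mul_le_mul_of_nonneg_left (h1'.trans hcard) (Real.exp_pos _).le)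
  · -- the density
    rw [card_neg]
    have hTpos : (0 : ℝ) < T.card := by exact_mod_cast hT.card_pos
    have hSpos : (0 : ℝ) < S.card := by exact_mod_cast hS.card_pos
    have hGpos : (0 : ℝ) < Fintype.card G := by
      have : Nonempty G := ⟨0⟩
      exact_mod_cast Fintype.card_pos
    have e1 : Real.log S.card ≤ Real.log 4 + 2 * ((n : ℝ) + 1) * κ + Real.log T.card := by
      have := Real.log_le_log hSpos hTc
      rw [Real.log_mul (by positivity) hTpos.ne', Real.log_mul (by norm_num) (Real.exp_pos _).ne', Real.log_exp] at this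
      exact this
    have e2 := log_four_le
    rw [Real.log_div hGpos.ne' hTpos.ne']
    rw [Real.log_div hGpos.ne' hSpos.ne'] at hc
    linarith

end Pool.Agent.H89.LV
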