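import Pool.Agent.H89.EN.Ent
import Pool.Agent.H89.EN.Chg
import Pool.Agent.H89.EN.Cs

/-!
# Many translates of one sample are good
-/

set_option autoImplicit false
set_option linter.unusedSectionVars false
set_option linter.unusedVariables false

namespace Pool.Agent.H89.LV

open Finset Pool.Agent.K4H60.BZ Pool.Agent.H89.EN
open scoped Pointwise BigOperators ComplexConjugate

variable {G : Type*} [AddCommGroup G] [Fintype G] [DecidableEq G]

theorem pick (μ : G → ℝ) (hμ : IsProb μ) (S : Finset G) (hS : S.Nonempty) (n : ℕ) (good : Finset (Fin n → G))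
    (hgoodmass : 1 / 2 ≤ ∑ z ∈ good, ∏ i, μ (z i)) (b : ℝ) (hb : ent (cv μ S) - ent μ ≤ b) :
    ∃ (w : Fin n → G) (T : Finset G), T ⊆ S ∧ T.Nonempty ∧ (S.card : ℝ) ≤ 4 * Real.exp (2 * n * b) * T.card ∧
      ∀ s ∈ T, (fun i => w i - s) ∈ good := by
  classical
  have hSpos : (0 : ℝ) < S.card := by exact_mod_cast hS.card_pos
  -- the change of measure
  obtain ⟨D, hD⟩ : ∃ D : G → ℝ, D = fun s => ∑ x, μ (x - s) * (Real.log (μ (x - s)) - Real.log (cv μ S x)) := ⟨_, rfl⟩
  have hkl : (∑ s ∈ S, D s) / S.card = ent (cv μ S) - ent μ := by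
    rw [hD]
    exact kl μ hμ S hS
  obtain ⟨Es, hEs⟩ : ∃ Es : G → Finset (Fin n → G), Es = fun s => univ.filter fun z => (fun i => z i - s) ∈ good := ⟨_, rfl⟩
  have hchg : ∀ s ∈ S, Real.exp (-(2 * n * D s)) / 4 ≤ ∑ z ∈ Es s, ∏ i, cv μ S (z i) := by
    intro s hs
    have h1 := chg (fun x => μ (x - s)) (cv μ S) (shift_prob hμ s) (cv_prob hμ hS)
      (fun x hx => cv_zero hμ hS x hx s hs) n (Es s) (by
        refine hgoodmass.trans (le_of_eq ?_)
        rw [hEs]
        refine (sum_nbij' (fun z i => z i - s) (fun z i => z i + s) ?_ ?_ ?_ ?_ ?_).symm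
        · intro z hz
          rw [mem_filter] at hz
          exact hz.2
        · intro z hz
          rw [mem_filter]
          refine ⟨mem_univ _, ?_⟩
          simp only [add_sub_cancel_right]
          exact hz
        · intro z _
          simp
        · intro z _
          simp
        · intro z _
          rfl)
    rw [hD]
    exact h1
  have hjen : (S.card : ℝ) * Real.exp (-(2 * n * b)) ≤ ∑ s ∈ S, Real.exp (-(2 * n * D s)) := by
    obtain ⟨c, hc⟩ : ∃ c : ℝ, c = ent (cv μ S) - ent μ := ⟨_, rfl⟩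
    have h1 : ∀ s ∈ S, Real.exp (-(2 * n * c)) * (1 - 2 * n * (D s - c)) ≤ Real.exp (-(2 * n * D s)) := by
      intro s _
      have h2 := Real.add_one_le_exp (-(2 * n * (D s - c)))
      calc Real.exp (-(2 * n * c)) * (1 - 2 * n * (D s - c))
          ≤ Real.exp (-(2 * n * c)) * Real.exp (-(2 * n * (D s - c))) := by
            gcongr
            linarith
        _ = _ := by
            rw [← Real.exp_add]
            congr 1
            ring
    have h2 := sum_le_sum h1
    rw [← mul_sum] at h2
    have h3 : ∑ s ∈ S, (1 - 2 * n * (D s - c)) = S.card := by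
      rw [sum_sub_distrib, ← mul_sum, sum_sub_distrib, sum_const, sum_const, nsmul_eq_mul, nsmul_eq_mul]
      rw [← hc, div_eq_iff hSpos.ne'] at hkl
      rw [hkl]
      ring
    rw [h3] at h2
    calc (S.card : ℝ) * Real.exp (-(2 * n * b)) ≤ S.card * Real.exp (-(2 * n * c)) := by
          gcongr
          rw [hc]
          exact hb
      _ = Real.exp (-(2 * n * c)) * S.card := mul_comm _ _
      _ ≤ _ := h2
  -- a good sample
  obtain ⟨T, hT⟩ : ∃ T : (Fin n → G) → Finset G, T = fun z => S.filter fun s => (fun i => z i - s) ∈ good := ⟨_, rfl⟩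
  obtain ⟨w, _, hw⟩ := exists_max_image (univ : Finset (Fin n → G)) (fun z => (T z).card) univ_nonempty
  have hcard : (S.card : ℝ) * Real.exp (-(2 * n * b)) / 4 ≤ (T w).card := by
    have h1 : ∑ s ∈ S, ∑ z ∈ Es s, ∏ i, cv μ S (z i) = ∑ z : Fin n → G, (∏ i, cv μ S (z i)) * (T z).card := by
      have e1 : ∀ s ∈ S, ∑ z ∈ Es s, ∏ i, cv μ S (z i) =
          ∑ z : Fin n → G, if (fun i => z i - s) ∈ good then ∏ i, cv μ S (z i) else 0 := by
        intro s _
        rw [hEs]
        simp only
        rw [sum_filter]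
      rw [sum_congr rfl e1, sum_comm]
      apply sum_congr rfl
      intro z _
      rw [hT]
      simp only
      rw [← sum_filter, sum_const, nsmul_eq_mul, mul_comm]
    have h2 : ∑ z : Fin n → G, (∏ i, cv μ S (z i)) * (T z).card ≤ (T w).card := by
      have hc0 : ∀ z : Fin n → G, 0 ≤ ∏ i, cv μ S (z i) := fun z => prod_nonneg fun i _ => cv_nonneg hμ S _
      calc _ ≤ ∑ z : Fin n → G, (∏ i, cv μ S (z i)) * ((T w).card : ℝ) := by
            apply sum_le_sum
            intro z _
            have := hw z (mem_univ z)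
            have h3 : ((T z).card : ℝ) ≤ (T w).card := by exact_mod_cast this
            exact mul_le_mul_of_nonneg_left h3 (hc0 z)
        _ = _ := by
            rw [← sum_mul, prod_total (cv_prob hμ hS), one_mul]
    have h3 := (sum_le_sum hchg).trans (h1.le.trans h2)
    rw [← sum_div] at h3
    linarith
  refine ⟨w, T w, by rw [hT]; exact filter_subset _ _, ?_, ?_, ?_⟩
  · rw [nonempty_iff_ne_empty]
    intro h0
    rw [h0, card_empty, Nat.cast_zero] at hcard
    have : 0 < (S.card : ℝ) * Real.exp (-(2 * n * b)) / 4 := by positivity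
    linarith
  · have h1 : (S.card : ℝ) = (S.card * Real.exp (-(2 * n * b)) / 4) * (4 * Real.exp (2 * n * b)) := by
      rw [Real.exp_neg]
      have := Real.exp_pos (2 * n * b)
      field_simp
    rw [h1]
    have h2 : 0 ≤ 4 * Real.exp (2 * n * b) := by positivity
    calc _ ≤ ((T w).card : ℝ) * (4 * Real.exp (2 * n * b)) := by gcongr
      _ = _ := by ring
  · intro s hs
    rw [hT] at hs
    simp only [mem_filter] at hs
    exact hs.2

/-- the entropy after a convolution, if nearly all the mass is in a small set -/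
theorem ent_growth (L T Q X : Finset G) (hL : L.Nonempty) (hT : T.Nonempty) (ε c B : ℝ) (hε : 0 ≤ ε) (hc : 0 ≤ c)
    (hB : 0 ≤ B) (hQ : ∀ s ∈ T, ((L.filter fun z => z - s ∉ Q).card : ℝ) ≤ ε * L.card)
    (hX : ∀ s ∈ T, ∀ z ∈ L, z - s ∈ X) (hQc : (Q.card : ℝ) ≤ Real.exp c * L.card)
    (hXc : (X.card : ℝ) ≤ Real.exp B * L.card) :
    ent (cv (uni L) (-T)) - ent (uni L) ≤ Real.log 2 + c + ε * B := by
  classical
  have hLpos : (0 : ℝ) < L.card := by exact_mod_cast hL.card_pos
  have hTpos : (0 : ℝ) < T.card := by exact_mod_cast hT.card_pos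
  have hTn : (-T).Nonempty := hT.neg
  obtain ⟨ν, hν⟩ : ∃ ν : G → ℝ, ν = cv (uni L) (-T) := ⟨_, rfl⟩
  rw [← hν]
  have hνp : IsProb ν := by rw [hν]; exact cv_prob (uni_prob hL) hTn
  have hνval : ∀ x, ν x = (∑ s ∈ T, uni L (x + s)) / T.card := by
    intro x
    rw [hν]
    unfold cv
    rw [card_neg]
    congr 1
    refine sum_nbij' (fun s => -s) (fun s => -s) ?_ ?_ ?_ ?_ ?_
    · intro s hs
      exact mem_neg'.1 hs
    · intro s hs
      exact neg_mem_neg hs
    · intro s _
      exact neg_neg s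
    · intro s _
      exact neg_neg s
    · intro s _
      rw [sub_eq_add_neg]
  -- the support
  have hsupp : ∀ x, ν x ≠ 0 → x ∈ X := by
    intro x hx
    rw [hνval] at hx
    have h1 : ∃ s ∈ T, uni L (x + s) ≠ 0 := by
      by_contra hcon
      push Not at hcon
      apply hx
      rw [sum_eq_zero hcon, zero_div]
    obtain ⟨s, hs, h2⟩ := h1
    have h3 : x + s ∈ L := by
      by_contra h
      apply h2
      unfold uni
      rw [if_neg h]
    have := hX s hs _ h3
    rwa [add_sub_cancel_right] at this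
  have hXne : X.Nonempty := by
    obtain ⟨z, hz⟩ := hL
    obtain ⟨s, hs⟩ := hT
    exact ⟨_, hX s hs z hz⟩
  have hXpos : (0 : ℝ) < X.card := by exact_mod_cast hXne.card_pos
  -- the mass outside of `Q`
  have hout : ∑ x ∈ univ.filter (fun x => x ∉ Q), ν x ≤ ε := by
    have e1 : ∑ x ∈ univ.filter (fun x => x ∉ Q), ν x =
        (∑ s ∈ T, ((L.filter fun z => z - s ∉ Q).card : ℝ) / L.card) / T.card := by
      simp_rw [hνval]
      rw [← sum_div, sum_comm]
      congr 1
      apply sum_congr rfl
      intro s _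
      rw [sum_filter]
      have e2 := Equiv.sum_comp (Equiv.addRight s) (fun z => if z - s ∉ Q then uni L z else 0)
      simp only [Equiv.coe_addRight, add_sub_cancel_right] at e2
      rw [e2]
      have e3 : ∀ z ∈ (univ : Finset G), (if z - s ∉ Q then uni L z else 0) =
          if z ∈ L.filter (fun z => z - s ∉ Q) then 1 / (L.card : ℝ) else 0 := by
        intro z _
        unfold uni
        by_cases h1 : z ∈ L <;> by_cases h2 : z - s ∈ Q <;> simp [h1, h2]
      rw [sum_congr rfl e3, sum_ite_mem, univ_inter, sum_const, nsmul_eq_mul]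
      ring
    rw [e1, div_le_iff₀ hTpos]
    calc ∑ s ∈ T, ((L.filter fun z => z - s ∉ Q).card : ℝ) / L.card ≤ ∑ s ∈ T, ε := by
          apply sum_le_sum
          intro s hs
          rw [div_le_iff₀ hLpos]
          exact hQ s hs
      _ = ε * T.card := by rw [sum_const, nsmul_eq_mul, mul_comm]
  -- Gibbs
  obtain ⟨π, hπ⟩ : ∃ π : G → ℝ, π = fun x => uni Q x / 2 + uni X x / 2 := ⟨_, rfl⟩
  have huni0 : ∀ (Z : Finset G) (x : G), 0 ≤ uni Z x := by
    intro Z x
    unfold uni
    split_ifs
    · positivity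
    · exact le_rfl
  have huni1 : ∀ Z : Finset G, ∑ x, uni Z x ≤ 1 := by
    intro Z
    unfold uni
    rw [sum_ite_mem, univ_inter, sum_const, nsmul_eq_mul]
    rcases Z.eq_empty_or_nonempty with h | h
    · rw [h]; simp
    · have : (0 : ℝ) < Z.card := by exact_mod_cast h.card_pos
      field_simp
      exact le_rfl
  have hπ0 : ∀ x, 0 ≤ π x := by
    intro x
    rw [hπ]
    have := huni0 Q x
    have := huni0 X x
    positivity
  have hπX : ∀ x ∈ X, 1 / (2 * (X.card : ℝ)) ≤ π x := by
    intro x hx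
    rw [hπ]
    simp only
    have h1 := huni0 Q x
    have h2 : uni X x = 1 / (X.card : ℝ) := by unfold uni; rw [if_pos hx]
    rw [h2]
    have : 1 / (2 * (X.card : ℝ)) = 1 / (X.card : ℝ) / 2 := by field_simp
    rw [this]
    linarith
  have hπQ : ∀ x ∈ Q, 1 / (2 * (Q.card : ℝ)) ≤ π x := by
    intro x hx
    rw [hπ]
    simp only
    have h1 := huni0 X x
    have hQpos : (0 : ℝ) < Q.card := by exact_mod_cast card_pos.2 ⟨x, hx⟩
    have h2 : uni Q x = 1 / (Q.card : ℝ) := by unfold uni; rw [if_pos hx]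
    rw [h2]
    have : 1 / (2 * (Q.card : ℝ)) = 1 / (Q.card : ℝ) / 2 := by field_simp
    rw [this]
    linarith
  have hg := gibbs ν π hνp hπ0 (by
    rw [hπ]
    simp only
    rw [sum_add_distrib, ← sum_div, ← sum_div]
    linarith [huni1 Q, huni1 X]) (by
    intro x hx
    by_contra h
    have h1 := hπX x (hsupp x h)
    rw [hx] at h1
    have : 0 < 1 / (2 * (X.card : ℝ)) := by positivity
    linarith)
  have hent : ent ν ≤ ∑ x, ν x * (- Real.log (π x)) := by
    have e1 : ∑ x, ν x * (Real.log (ν x) - Real.log (π x)) = - ent ν + ∑ x, ν x * (- Real.log (π x)) := by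
      unfold ent Real.negMulLog
      rw [← sum_neg_distrib, ← sum_add_distrib]
      apply sum_congr rfl
      intro x _
      ring
    rw [e1] at hg
    linarith
  have hpt : ∀ x ∈ (univ : Finset G), ν x * (- Real.log (π x)) ≤
      ν x * (Real.log 2 + Real.log L.card + c) + (if x ∉ Q then ν x else 0) * B := by
    intro x _
    have hν0 := hνp.1 x
    by_cases hx : ν x = 0
    · rw [hx]; simp
    by_cases hxQ : x ∈ Q
    · rw [if_neg (not_not.2 hxQ), zero_mul, add_zero]
      have hQpos : (0 : ℝ) < Q.card := by exact_mod_cast card_pos.2 ⟨x, hxQ⟩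
      have h1 := Real.log_le_log (by positivity) (hπQ x hxQ)
      rw [one_div, Real.log_inv, Real.log_mul (by norm_num) hQpos.ne'] at h1
      have h2 := Real.log_le_log hQpos hQc
      rw [Real.log_mul (Real.exp_pos _).ne' hLpos.ne', Real.log_exp] at h2
      exact mul_le_mul_of_nonneg_left (by linarith) hν0
    · rw [if_pos hxQ, ← mul_add]
      have h1 := Real.log_le_log (by positivity) (hπX x (hsupp x hx))
      rw [one_div, Real.log_inv, Real.log_mul (by norm_num) hXpos.ne'] at h1
      have h2 := Real.log_le_log hXpos hXc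
      rw [Real.log_mul (Real.exp_pos _).ne' hLpos.ne', Real.log_exp] at h2
      exact mul_le_mul_of_nonneg_left (by linarith) hν0
  have h4 := hent.trans (sum_le_sum hpt)
  rw [sum_add_distrib, ← sum_mul, ← sum_mul, hνp.2, ← sum_filter] at h4
  have h5 : (∑ x ∈ univ.filter (fun x => x ∉ Q), ν x) * B ≤ ε * B := by gcongr
  rw [ent_uni hL]
  linarith

end Pool.Agent.H89.LV
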