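import Pool.Agent.H89.LV.Pick
import Pool.Agent.H89.LV.Hoeff

/-!
# One step: sampling and level sets
-/

set_option autoImplicit false
set_option linter.unusedSectionVars false
set_option linter.unusedVariables false

namespace Pool.Agent.H89.LV

open Finset Pool.Agent.K4H60.BZ Pool.Agent.H89.EN
open scoped Pointwise BigOperators ComplexConjugate

/-- choice of a level -/
theorem choose_level (a : ℕ → ℝ) (K : ℕ) (hK : 0 < K) (b : ℝ) (hb0 : 0 < b) (hb : a K - a 0 ≤ b)
    (hmono : ∀ i ≤ K, a i ≤ a K) :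
    ∃ i ≤ K, 2 * (i : ℝ) ≤ K ∧ ∀ j ≤ K, a j ≤ a i + (2 * b / K) * ((j : ℝ) - i) := by
  have hKpos : (0 : ℝ) < K := by exact_mod_cast hK
  obtain ⟨i, hi, hmax⟩ := exists_max_image (range (K + 1)) (fun i => a i - (2 * b / K) * i) ⟨0, by simp⟩
  rw [mem_range] at hi
  refine ⟨i, by omega, ?_, ?_⟩
  · have h1 := hmax 0 (by simp)
    simp only [Nat.cast_zero, mul_zero, sub_zero] at h1
    have h2 := hmono i (by omega)
    have h3 : (2 * b / K) * i ≤ b := by linarith
    rw [div_mul_eq_mul_div, div_le_iff₀ hKpos] at h3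
    have h4 : b * (2 * i) ≤ b * K := by linarith
    exact le_of_mul_le_mul_left h4 hb0
  · intro j hj
    have h1 : a j - (2 * b / K) * (j : ℝ) ≤ a i - (2 * b / K) * i := hmax j (by rw [mem_range]; omega)
    linarith

theorem geom_bound (r : ℝ) (hr0 : 0 ≤ r) (hr : r ≤ 1 / 2) (m : ℕ) : ∑ k ∈ Ico 1 (m + 1), r ^ k ≤ 2 * r := by
  have h : ∀ m : ℕ, ∑ k ∈ Ico 1 (m + 1), r ^ k ≤ 2 * r - 2 * (r * r ^ m) := by
    intro m
    induction m with
    | zero => simp
    | succ m ih =>
      rw [sum_Ico_succ_top (by omega)]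
      have h0 : 0 ≤ r ^ m := by positivity
      have h1 : r ^ (m + 1) = r * r ^ m := by rw [pow_succ]; ring
      rw [h1]
      have h2 : r * (r * r ^ m) ≤ (1 / 2) * (r * r ^ m) := by
        have : 0 ≤ r * r ^ m := by positivity
        gcongr
      linarith
  have h1 := h m
  have h2 : 0 ≤ r * r ^ m := by positivity
  linarith

theorem markov {Ω : Type*} [Fintype Ω] (w f : Ω → ℝ) (hw : ∀ x, 0 ≤ w x) (hf : ∀ x, 0 ≤ f x) (M : ℝ) (hM : 0 < M)
    (h : ∑ x, w x * f x ≤ M / 4) [DecidablePred fun x => ¬ f x ≤ M] :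
    ∑ x ∈ univ.filter (fun x => ¬ f x ≤ M), w x ≤ 1 / 4 := by
  have h1 : (∑ x ∈ univ.filter (fun x => ¬ f x ≤ M), w x) * M ≤ M / 4 := by
    refine le_trans ?_ h
    rw [sum_mul]
    refine (sum_le_sum (g := fun x => w x * f x) ?_).trans
      (sum_le_sum_of_subset_of_nonneg (filter_subset _ _) fun x _ _ => mul_nonneg (hw x) (hf x))
    intro x hx
    rw [mem_filter, not_le] at hx
    exact mul_le_mul_of_nonneg_left hx.2.le (hw x)
  have h2 : (∑ x ∈ univ.filter (fun x => ¬ f x ≤ M), w x) * M ≤ (1 / 4) * M := by linarith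
  exact le_of_mul_le_mul_right h2 hM

variable {G : Type*} [AddCommGroup G] [Fintype G] [DecidableEq G]

open Classical in
/-- the level sets of `z ↦ P_{y ∈ P} (y + z ∈ W)` -/
noncomputable def lev (W P : Finset G) (θ : ℝ) : Finset G := univ.filter fun z => θ ≤ hm (uni P) W z

theorem mem_lev (W P : Finset G) (θ : ℝ) (z : G) : z ∈ lev W P θ ↔ θ ≤ hm (uni P) W z := by
  unfold lev
  simp

theorem lev_mono (W P : Finset G) (θ θ' : ℝ) (h : θ' ≤ θ) : lev W P θ ⊆ lev W P θ' := by
  intro z hz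
  rw [mem_lev] at hz ⊢
  linarith

/-- the number of the points of the sample `y` with `y i + z ∈ W` -/
noncomputable def cnt {n : ℕ} (W : Finset G) (y : Fin n → G) (z : G) : ℝ := ∑ i, ind W (y i + z)

theorem exists_level (W P : Finset G) (θ w : ℝ) (m : ℕ) (z : G) (h0 : z ∉ lev W P (θ - 2 * w))
    (hm' : z ∈ lev W P (θ - ((m : ℝ) + 2) * w)) :
    ∃ k : ℕ, 1 ≤ k ∧ k ≤ m ∧ z ∈ lev W P (θ - ((k : ℝ) + 2) * w) ∧ z ∉ lev W P (θ - ((k : ℝ) + 1) * w) := by
  induction m with
  | zero =>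
    exfalso
    apply h0
    simpa using hm'
  | succ m ih =>
    by_cases h : z ∈ lev W P (θ - ((m : ℝ) + 2) * w)
    · obtain ⟨k, h1, h2, h3, h4⟩ := ih h
      exact ⟨k, h1, by omega, h3, h4⟩
    · refine ⟨m + 1, by omega, le_rfl, hm', ?_⟩
      push_cast
      have : (m : ℝ) + 1 + 1 = (m : ℝ) + 2 := by ring
      rw [this]
      exact h

theorem level_step (W P S : Finset G) (hP : P.Nonempty) (hS : S.Nonempty) (hW : W.Nonempty) (κ : ℝ)
    (hκ : ent (cv (uni P) S) - ent (uni P) ≤ κ) (K : ℕ) (hK : 8 ≤ K) (Δ θ₁ : ℝ) (hΔ : 0 < Δ) (hΔ1 : Δ ≤ 1)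
    (hθ : 1 / 2 + Δ ≤ θ₁) (hne : (lev W P θ₁).Nonempty) (b : ℝ) (hb0 : 0 < b)
    (hb : 4 * (W.card : ℝ) ≤ Real.exp b * (lev W P θ₁).card) (ε : ℝ) (hε : 0 < ε) (hε1 : ε ≤ 1) (n : ℕ)
    (hn : 8 * K ^ 2 / Δ ^ 2 * (6 * b / K + Real.log (8 / ε)) ≤ n) :
    ∃ θ : ℝ, θ₁ - Δ / 2 ≤ θ ∧ θ ≤ θ₁ ∧ ∃ T Q L'' : Finset G, T ⊆ S ∧ T.Nonempty ∧
      (S.card : ℝ) ≤ 4 * Real.exp (2 * ((n : ℝ) + 1) * κ) * T.card ∧
      lev W P θ ⊆ L'' ∧ (L''.card : ℝ) ≤ Real.exp (4 * b / K) * (lev W P θ).card ∧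
      (∀ s ∈ T, (((lev W P θ).filter fun z => z - s ∉ Q).card : ℝ) ≤ ε * (lev W P θ).card) ∧
      (∀ s ∈ T, ((Q.filter fun v => v + s ∉ L'').card : ℝ) ≤ ε * (lev W P θ).card) := by
  classical
  have hKpos : (0 : ℝ) < K := by exact_mod_cast (show 0 < K by omega)
  have hK8 : (8 : ℝ) ≤ K := by exact_mod_cast hK
  have hWpos : (0 : ℝ) < W.card := by exact_mod_cast hW.card_pos
  obtain ⟨w, hw⟩ : ∃ w : ℝ, w = Δ / K := ⟨_, rfl⟩
  have hw0 : 0 < w := by rw [hw]; positivity
  have hw1 : w ≤ 1 := by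
    rw [hw, div_le_one hKpos]
    linarith
  have hKw : K * w = Δ := by rw [hw]; field_simp
  obtain ⟨lam, hlam⟩ : ∃ lam : ℝ, lam = 2 * b / K := ⟨_, rfl⟩
  have hlam0 : 0 < lam := by rw [hlam]; positivity
  -- the exponent
  obtain ⟨x, hx⟩ : ∃ x : ℝ, x = n * w ^ 2 / 8 - 3 * lam := ⟨_, rfl⟩
  have hxlog : Real.log (8 / ε) ≤ x := by
    have h1 : 8 * K ^ 2 / Δ ^ 2 * (6 * b / K + Real.log (8 / ε)) = (3 * lam + Real.log (8 / ε)) * (8 / w ^ 2) := by
      rw [hlam, hw]
      field_simp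
      ring
    rw [h1, mul_div_assoc', div_le_iff₀ (by positivity)] at hn
    rw [hx]
    linarith
  have hlog8 : 2 ≤ Real.log (8 / ε) := by
    have h1 : (8 : ℝ) ≤ 8 / ε := by
      rw [le_div_iff₀ hε]
      linarith
    have h2 := Real.log_le_log (by norm_num) h1
    have h3 : Real.log 8 = 3 * Real.log 2 := by
      rw [← Real.log_rpow (by norm_num)]
      norm_num
    linarith [Real.log_two_gt_d9]
  have hnw : 8 * x + 24 * lam = n * w ^ 2 := by rw [hx]; ring
  have hnpos : (0 : ℝ) < n := by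
    by_contra hcon
    have h0 : (n : ℝ) = 0 := le_antisymm (not_lt.1 hcon) (Nat.cast_nonneg n)
    rw [h0, zero_mul] at hnw
    linarith
  have hexpx : Real.exp (-x) ≤ ε / 8 := by
    have h1 : Real.exp (-x) ≤ Real.exp (-Real.log (8 / ε)) := Real.exp_le_exp.2 (by linarith)
    refine h1.trans (le_of_eq ?_)
    rw [Real.exp_neg, Real.exp_log (by positivity), inv_div]
  -- the choice of the level
  obtain ⟨A, hA⟩ : ∃ A : ℕ → ℝ, A = fun j => if j < K then Real.log (lev W P (θ₁ - j * w)).card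
      else Real.log (4 * W.card) := ⟨_, rfl⟩
  have hlevne : ∀ j : ℕ, (lev W P (θ₁ - j * w)).Nonempty := by
    intro j
    refine hne.mono (lev_mono W P θ₁ _ ?_)
    have : 0 ≤ (j : ℝ) * w := by positivity
    linarith
  have hlevW : ∀ j : ℕ, j < K → ((lev W P (θ₁ - j * w)).card : ℝ) ≤ 4 * W.card := by
    intro j hj
    have h1 : (1 / 2 : ℝ) ≤ θ₁ - j * w := by
      have : (j : ℝ) ≤ K := by exact_mod_cast hj.le
      have : (j : ℝ) * w ≤ K * w := by gcongr
      linarith
    have h2 : (1 / 2 : ℝ) * (lev W P (θ₁ - j * w)).card ≤ W.card := by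
      rw [← sum_hm (uni_prob hP) W]
      calc (1 / 2 : ℝ) * (lev W P (θ₁ - j * w)).card = ∑ z ∈ lev W P (θ₁ - j * w), (1 / 2 : ℝ) := by
            rw [sum_const, nsmul_eq_mul]; ring
        _ ≤ ∑ z ∈ lev W P (θ₁ - j * w), hm (uni P) W z := by
            apply sum_le_sum
            intro z hz
            rw [mem_lev] at hz
            linarith
        _ ≤ ∑ z, hm (uni P) W z := sum_le_sum_of_subset_of_nonneg (subset_univ _) fun z _ _ => hm_nonneg (uni_prob hP) W z
    linarith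
  obtain ⟨i, hiK, hi2, hlevel⟩ := choose_level A K (by omega) b hb0 (by
      rw [hA]
      simp only [lt_irrefl, if_false]
      rw [if_pos (by omega)]
      simp only [Nat.cast_zero, zero_mul, sub_zero]
      have h1 : (0 : ℝ) < (lev W P θ₁).card := by exact_mod_cast hne.card_pos
      have h2 := Real.log_le_log (by positivity) hb
      rw [Real.log_mul (Real.exp_pos _).ne' h1.ne', Real.log_exp] at h2
      linarith) (by
      intro j hj
      rw [hA]
      simp only [lt_irrefl, if_false]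
      split_ifs with h
      · apply Real.log_le_log _ (hlevW j h)
        exact_mod_cast (hlevne j).card_pos
      · exact le_rfl)
  rw [← hlam] at hlevel
  have hi4 : i + 4 ≤ K := by
    have h1 : (i : ℝ) + 4 ≤ K := by linarith
    exact_mod_cast h1
  obtain ⟨θ, hθd⟩ : ∃ θ : ℝ, θ = θ₁ - i * w := ⟨_, rfl⟩
  obtain ⟨L, hL⟩ : ∃ L : Finset G, L = lev W P θ := ⟨_, rfl⟩
  have hLne : L.Nonempty := by rw [hL, hθd]; exact hlevne i
  have hLpos : (0 : ℝ) < L.card := by exact_mod_cast hLne.card_pos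
  have hAi : A i = Real.log L.card := by
    rw [hA, hL, hθd]
    simp only
    rw [if_pos (by omega)]
  have hsize : ∀ k : ℕ, i + k < K → ((lev W P (θ - k * w)).card : ℝ) ≤ Real.exp (lam * k) * L.card := by
    intro k hk
    have h1 := hlevel (i + k) hk.le
    rw [hAi, hA] at h1
    simp only at h1
    rw [if_pos hk] at h1
    have e1 : θ₁ - ((i + k : ℕ) : ℝ) * w = θ - k * w := by rw [hθd]; push_cast; ring
    rw [e1] at h1
    have h2 : (0 : ℝ) < (lev W P (θ - k * w)).card := by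
      rw [← e1]
      exact_mod_cast (hlevne (i + k)).card_pos
    rw [← Real.log_le_log_iff h2 (by positivity), Real.log_mul (Real.exp_pos _).ne' hLpos.ne', Real.log_exp]
    push_cast at h1
    linarith
  have hlast : 4 * (W.card : ℝ) ≤ Real.exp (lam * (K - i)) * L.card := by
    have h1 := hlevel K le_rfl
    rw [hAi, hA] at h1
    simp only [lt_irrefl, if_false] at h1
    rw [← Real.log_le_log_iff (by positivity) (by positivity), Real.log_mul (Real.exp_pos _).ne' hLpos.ne', Real.log_exp]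
    linarith
  obtain ⟨u, hu⟩ : ∃ u : ℝ, u = θ - w := ⟨_, rfl⟩
  have hiw : (i : ℝ) * w ≤ Δ / 2 := by
    have : 2 * ((i : ℝ) * w) ≤ K * w := by
      calc 2 * ((i : ℝ) * w) = (2 * i) * w := by ring
        _ ≤ K * w := by gcongr
    linarith
  have hwΔ : w ≤ Δ / 8 := by
    rw [hw]
    gcongr
  have hu2 : 1 / 2 ≤ u := by rw [hu, hθd]; linarith
  -- the tails
  have hnx : x ≤ n * w ^ 2 / 8 := by rw [hx]; linarith
  have hlow : ∀ z ∈ L, (∑ y ∈ (univ : Finset (Fin (n + 1) → G)).filter (fun y => cnt W y z < u * (n + 1)),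
      ∏ j, uni P (y j)) ≤ Real.exp (-x) := by
    intro z hz
    rw [hL, mem_lev] at hz
    have h1 := (hoeff (uni P) (uni_prob hP) (fun x => ind W (x + z)) (fun x => ⟨ind_nonneg _ _, ind_le_one _ _⟩)
      (hm (uni P) W z) rfl (n + 1) w hw0.le).2
    refine le_trans ?_ (h1.trans ?_)
    · apply sum_le_sum_of_subset_of_nonneg
      · intro y hy
        rw [mem_filter] at hy ⊢
        refine ⟨mem_univ _, ?_⟩
        have h2 := hy.2
        unfold cnt at h2
        rw [sum_sub_distrib, sum_const, card_univ, Fintype.card_fin, nsmul_eq_mul]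
        push_cast
        rw [hu] at h2
        have h3 : (θ - w) * ((n : ℝ) + 1) ≤ (hm (uni P) W z - w) * ((n : ℝ) + 1) := by gcongr
        linarith
      · intro y _ _
        exact prod_nonneg fun j _ => (uni_prob hP).1 _
    · apply Real.exp_le_exp.2
      push_cast
      have h3 : (n : ℝ) * w ^ 2 / 8 ≤ ((n : ℝ) + 1) * w ^ 2 / 2 := by
        have : 0 ≤ w ^ 2 := sq_nonneg w
        nlinarith
      linarith
  obtain ⟨k₀, hk₀⟩ : ∃ k₀ : ℕ, K = i + 2 + k₀ := ⟨K - i - 2, by omega⟩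
  have hk₀2 : 2 ≤ k₀ := by omega
  have hk₀K : (K : ℝ) = i + 2 + k₀ := by exact_mod_cast hk₀
  have hnw16 : 16 ≤ n * w ^ 2 := by linarith
  have hup : ∀ z, z ∉ lev W P (θ - 2 * w) →
      (∑ y ∈ (univ : Finset (Fin (n + 1) → G)).filter (fun y => u * (n + 1) ≤ cnt W y z), ∏ j, uni P (y j)) ≤
      (∑ k ∈ Ico 1 k₀, if z ∈ lev W P (θ - ((k : ℝ) + 2) * w) then Real.exp (-((k : ℝ) ^ 2 * (n * w ^ 2 / 8))) else 0) +
        2 * hm (uni P) W z * Real.exp (-((k₀ : ℝ) ^ 2 * (n * w ^ 2 / 8))) := by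
    intro z hz
    have hterm : ∀ k ∈ Ico 1 k₀, (0 : ℝ) ≤
        if z ∈ lev W P (θ - ((k : ℝ) + 2) * w) then Real.exp (-((k : ℝ) ^ 2 * (n * w ^ 2 / 8))) else 0 := by
      intro k _
      split_ifs
      · positivity
      · exact le_rfl
    have hhm := hm_nonneg (uni_prob hP) W z
    by_cases hz' : z ∈ lev W P (θ - ((k₀ : ℝ) + 1) * w)
    · obtain ⟨m, rfl⟩ : ∃ m, k₀ = m + 1 := ⟨k₀ - 1, by omega⟩
      obtain ⟨k, h1, h2, h3, h4⟩ := exists_level W P θ w m z hz (by
        have : ((m + 1 : ℕ) : ℝ) + 1 = (m : ℝ) + 2 := by push_cast; ring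
        rw [this] at hz'
        exact hz')
      rw [mem_lev, not_le] at h4
      have h5 := (hoeff (uni P) (uni_prob hP) (fun x => ind W (x + z)) (fun x => ⟨ind_nonneg _ _, ind_le_one _ _⟩)
        (hm (uni P) W z) rfl (n + 1) (k * w) (by positivity)).1
      have h6 : (∑ y ∈ (univ : Finset (Fin (n + 1) → G)).filter (fun y => u * (n + 1) ≤ cnt W y z), ∏ j, uni P (y j)) ≤
          Real.exp (-((k : ℝ) ^ 2 * (n * w ^ 2 / 8))) := by
        refine le_trans ?_ (h5.trans ?_)
        · apply sum_le_sum_of_subset_of_nonneg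
          · intro y hy
            rw [mem_filter] at hy ⊢
            refine ⟨mem_univ _, ?_⟩
            have h7 := hy.2
            unfold cnt at h7
            rw [sum_sub_distrib, sum_const, card_univ, Fintype.card_fin, nsmul_eq_mul]
            push_cast
            have h8 : (hm (uni P) W z + k * w) * ((n : ℝ) + 1) ≤ u * ((n : ℝ) + 1) := by
              gcongr
              rw [hu]
              linarith
            linarith
          · intro y _ _
            exact prod_nonneg fun j _ => (uni_prob hP).1 _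
        · apply Real.exp_le_exp.2
          push_cast
          have h9 : 0 ≤ (k : ℝ) ^ 2 * w ^ 2 := by positivity
          have h10 : (k : ℝ) ^ 2 * (n * w ^ 2 / 8) = n * ((k : ℝ) ^ 2 * w ^ 2) / 8 := by ring
          have h11 : ((n : ℝ) + 1) * (k * w) ^ 2 / 2 = (n + 1) * ((k : ℝ) ^ 2 * w ^ 2) / 2 := by ring
          rw [h10, h11]
          nlinarith
      refine h6.trans ?_
      have h7 := single_le_sum hterm (show k ∈ Ico 1 (m + 1) by rw [mem_Ico]; omega)
      rw [if_pos h3] at h7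
      have h8 : 0 ≤ 2 * hm (uni P) W z * Real.exp (-(((m + 1 : ℕ) : ℝ) ^ 2 * (n * w ^ 2 / 8))) := by positivity
      linarith
    · rw [mem_lev, not_le] at hz'
      have hk₀pos : (2 : ℝ) ≤ k₀ := by exact_mod_cast hk₀2
      have h5 := hoeffg (uni P) (uni_prob hP) (fun x => ind W (x + z)) (fun x => ⟨ind_nonneg _ _, ind_le_one _ _⟩)
        (hm (uni P) W z) rfl n u (k₀ * w / 2) hu2 (by positivity) (by rw [hu]; linarith) (by
          have h6 : 2 * ((n : ℝ) * (k₀ * w / 2)) = k₀ * (n * w) := by ring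
          rw [h6]
          have h7 : (n : ℝ) * w ^ 2 ≤ n * w := by
            have : w ^ 2 ≤ w := by nlinarith
            gcongr
          nlinarith)
      have h6 := sum_nonneg hterm
      have h7 : (n : ℝ) * (k₀ * w / 2) ^ 2 / 2 = (k₀ : ℝ) ^ 2 * (n * w ^ 2 / 8) := by ring
      rw [h7] at h5
      have h8 : (∑ y ∈ (univ : Finset (Fin (n + 1) → G)).filter (fun y => u * (n + 1) ≤ cnt W y z), ∏ j, uni P (y j)) ≤
          2 * hm (uni P) W z * Real.exp (-((k₀ : ℝ) ^ 2 * (n * w ^ 2 / 8))) := h5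
      linarith
  have hupsum : ∑ z ∈ univ.filter (fun z => z ∉ lev W P (θ - 2 * w)),
      (∑ y ∈ (univ : Finset (Fin (n + 1) → G)).filter (fun y => u * (n + 1) ≤ cnt W y z), ∏ j, uni P (y j)) ≤
      ε * L.card / 4 := by
    have hr : Real.exp (-x) ≤ 1 / 2 := by linarith
    have hpow : ∀ k : ℕ, Real.exp (-x) ^ k = Real.exp (-(k * x)) := by
      intro k
      rw [← Real.exp_nat_mul]
      congr 1
      ring
    have hexpo : ∀ k : ℕ, 1 ≤ k → Real.exp (lam * (k + 2)) * Real.exp (-((k : ℝ) ^ 2 * (n * w ^ 2 / 8))) ≤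
        Real.exp (-x) ^ k := by
      intro k hk
      have hk1 : (1 : ℝ) ≤ k := by exact_mod_cast hk
      rw [hpow, ← Real.exp_add]
      apply Real.exp_le_exp.2
      have h1 : lam * (k + 2) ≤ 3 * lam * k := by nlinarith
      have h2 : (k : ℝ) * (n * w ^ 2 / 8) ≤ (k : ℝ) ^ 2 * (n * w ^ 2 / 8) := by
        have : (k : ℝ) ≤ (k : ℝ) ^ 2 := by nlinarith
        gcongr
      have h3 : (k : ℝ) * x = k * (n * w ^ 2 / 8) - 3 * lam * k := by rw [hx]; ring
      linarith
    calc _ ≤ ∑ z ∈ univ.filter (fun z => z ∉ lev W P (θ - 2 * w)),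
          ((∑ k ∈ Ico 1 k₀, if z ∈ lev W P (θ - ((k : ℝ) + 2) * w) then Real.exp (-((k : ℝ) ^ 2 * (n * w ^ 2 / 8))) else 0) +
          2 * hm (uni P) W z * Real.exp (-((k₀ : ℝ) ^ 2 * (n * w ^ 2 / 8)))) := by
          apply sum_le_sum
          intro z hz
          rw [mem_filter] at hz
          exact hup z hz.2
      _ ≤ ∑ z, ((∑ k ∈ Ico 1 k₀, if z ∈ lev W P (θ - ((k : ℝ) + 2) * w) then Real.exp (-((k : ℝ) ^ 2 * (n * w ^ 2 / 8))) else 0) +
          2 * hm (uni P) W z * Real.exp (-((k₀ : ℝ) ^ 2 * (n * w ^ 2 / 8)))) := by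
          apply sum_le_sum_of_subset_of_nonneg (filter_subset _ _)
          intro z _ _
          have hhm := hm_nonneg (uni_prob hP) W z
          apply add_nonneg
          · apply sum_nonneg
            intro k _
            split_ifs
            · positivity
            · exact le_rfl
          · positivity
      _ = (∑ k ∈ Ico 1 k₀, ((lev W P (θ - ((k : ℝ) + 2) * w)).card : ℝ) * Real.exp (-((k : ℝ) ^ 2 * (n * w ^ 2 / 8)))) +
          2 * W.card * Real.exp (-((k₀ : ℝ) ^ 2 * (n * w ^ 2 / 8))) := by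
          rw [sum_add_distrib, sum_comm, ← sum_mul, ← mul_sum, sum_hm (uni_prob hP)]
          congr 1
          apply sum_congr rfl
          intro k _
          rw [sum_ite_mem, univ_inter, sum_const, nsmul_eq_mul]
      _ ≤ (∑ k ∈ Ico 1 k₀, L.card * Real.exp (-x) ^ k) + L.card * Real.exp (-x) ^ k₀ := by
          apply add_le_add
          · apply sum_le_sum
            intro k hk
            rw [mem_Ico] at hk
            have h1 := hsize (k + 2) (by omega)
            push_cast at h1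
            calc ((lev W P (θ - ((k : ℝ) + 2) * w)).card : ℝ) * Real.exp (-((k : ℝ) ^ 2 * (n * w ^ 2 / 8)))
                ≤ (Real.exp (lam * (k + 2)) * L.card) * Real.exp (-((k : ℝ) ^ 2 * (n * w ^ 2 / 8))) := by gcongr
              _ = L.card * (Real.exp (lam * (k + 2)) * Real.exp (-((k : ℝ) ^ 2 * (n * w ^ 2 / 8)))) := by ring
              _ ≤ L.card * Real.exp (-x) ^ k := by
                gcongr
                exact hexpo k hk.1
          · have h1 : (K : ℝ) - i = k₀ + 2 := by rw [hk₀K]; ring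
            rw [h1] at hlast
            calc 2 * (W.card : ℝ) * Real.exp (-((k₀ : ℝ) ^ 2 * (n * w ^ 2 / 8)))
                ≤ (4 * W.card) * Real.exp (-((k₀ : ℝ) ^ 2 * (n * w ^ 2 / 8))) := by
                  gcongr
                  linarith
              _ ≤ (Real.exp (lam * (k₀ + 2)) * L.card) * Real.exp (-((k₀ : ℝ) ^ 2 * (n * w ^ 2 / 8))) := by gcongr
              _ = L.card * (Real.exp (lam * (k₀ + 2)) * Real.exp (-((k₀ : ℝ) ^ 2 * (n * w ^ 2 / 8)))) := by ring
              _ ≤ L.card * Real.exp (-x) ^ k₀ := by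
                gcongr
                exact hexpo k₀ (by omega)
      _ = L.card * ∑ k ∈ Ico 1 (k₀ + 1), Real.exp (-x) ^ k := by
          rw [sum_Ico_succ_top (by omega), mul_add, mul_sum]
      _ ≤ L.card * (2 * Real.exp (-x)) := by
          gcongr
          exact geom_bound _ (Real.exp_pos _).le hr k₀
      _ ≤ L.card * (2 * (ε / 8)) := by gcongr
      _ = _ := by ring
  -- the good samples
  obtain ⟨f1, hf1⟩ : ∃ f1 : (Fin (n + 1) → G) → ℝ, f1 = fun y => ((L.filter fun z => cnt W y z < u * (n + 1)).card : ℝ) := ⟨_, rfl⟩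
  obtain ⟨f2, hf2⟩ : ∃ f2 : (Fin (n + 1) → G) → ℝ, f2 = fun y => (((univ.filter fun z => z ∉ lev W P (θ - 2 * w)).filter
    fun z => u * (n + 1) ≤ cnt W y z).card : ℝ) := ⟨_, rfl⟩
  have hw0' : ∀ y : Fin (n + 1) → G, 0 ≤ ∏ j, uni P (y j) := fun y => prod_nonneg fun j _ => (uni_prob hP).1 _
  have hswap : ∀ (Z : Finset G) (p : (Fin (n + 1) → G) → G → Prop) [∀ y z, Decidable (p y z)],
      ∑ y : Fin (n + 1) → G, (∏ j, uni P (y j)) * ((Z.filter fun z => p y z).card : ℝ) =
        ∑ z ∈ Z, ∑ y ∈ univ.filter (fun y => p y z), ∏ j, uni P (y j) := by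
    intro Z p _
    have e1 : ∀ y ∈ (univ : Finset (Fin (n + 1) → G)), (∏ j, uni P (y j)) * ((Z.filter fun z => p y z).card : ℝ) =
        ∑ z ∈ Z, if p y z then ∏ j, uni P (y j) else 0 := by
      intro y _
      rw [← sum_filter, sum_const, nsmul_eq_mul, mul_comm]
    rw [sum_congr rfl e1, sum_comm]
    apply sum_congr rfl
    intro z _
    rw [sum_filter]
  have hεL : 0 < ε * L.card := by positivity
  have hm1 : ∑ y ∈ univ.filter (fun y => ¬ f1 y ≤ ε * L.card), ∏ j, uni P (y j) ≤ 1 / 4 := by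
    apply markov _ f1 hw0' (fun y => by rw [hf1]; positivity) _ hεL
    rw [hf1]
    simp only
    rw [hswap L (fun y z => cnt W y z < u * (n + 1))]
    calc _ ≤ ∑ z ∈ L, Real.exp (-x) := sum_le_sum hlow
      _ = L.card * Real.exp (-x) := by rw [sum_const, nsmul_eq_mul]
      _ ≤ L.card * (ε / 8) := by gcongr
      _ ≤ _ := by nlinarith
  have hm2 : ∑ y ∈ univ.filter (fun y => ¬ f2 y ≤ ε * L.card), ∏ j, uni P (y j) ≤ 1 / 4 := by
    apply markov _ f2 hw0' (fun y => by rw [hf2]; positivity) _ hεL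
    rw [hf2]
    simp only
    rw [hswap _ (fun y z => u * (n + 1) ≤ cnt W y z)]
    exact hupsum
  obtain ⟨good, hgood⟩ : ∃ good : Finset (Fin (n + 1) → G), good = univ.filter fun y => f1 y ≤ ε * L.card ∧
    f2 y ≤ ε * L.card := ⟨_, rfl⟩
  have hmass : 1 / 2 ≤ ∑ y ∈ good, ∏ j, uni P (y j) := by
    have h1 := prod_total (uni_prob hP) (n + 1)
    have h2 : (1 : ℝ) ≤ (∑ y ∈ good, ∏ j, uni P (y j)) + (∑ y ∈ univ.filter (fun y => ¬ f1 y ≤ ε * L.card), ∏ j, uni P (y j)) +
        ∑ y ∈ univ.filter (fun y => ¬ f2 y ≤ ε * L.card), ∏ j, uni P (y j) := by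
      rw [← h1, hgood, sum_filter, sum_filter, sum_filter, ← sum_add_distrib, ← sum_add_distrib]
      apply sum_le_sum
      intro y _
      have h3 := hw0' y
      by_cases c1 : f1 y ≤ ε * L.card <;> by_cases c2 : f2 y ≤ ε * L.card <;> simp [c1, c2] <;> linarith
    linarith
  obtain ⟨y₀, T, hTS, hTne, hTc, hTg⟩ := pick (uni P) (uni_prob hP) S hS (n + 1) good hmass κ hκ
  have hcnt : ∀ (s z : G), cnt W (fun j => y₀ j - s) z = cnt W y₀ (z - s) := by
    intro s z
    unfold cnt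
    apply sum_congr rfl
    intro j _
    have e1 : y₀ j - s + z = y₀ j + (z - s) := by abel
    change ind W (y₀ j - s + z) = ind W (y₀ j + (z - s))
    rw [e1]
  refine ⟨θ, ?_, ?_, T, univ.filter (fun z => u * (n + 1) ≤ cnt W y₀ z), lev W P (θ - 2 * w), hTS, hTne, ?_, ?_, ?_, ?_, ?_⟩
  · rw [hθd]; linarith
  · rw [hθd]
    have : 0 ≤ (i : ℝ) * w := by positivity
    linarith
  · push_cast at hTc
    exact hTc
  · exact lev_mono W P θ _ (by linarith)
  · rw [← hL]
    have h1 := hsize 2 (by omega)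
    push_cast at h1
    have h2 : lam * 2 = 4 * b / K := by rw [hlam]; ring
    rw [h2] at h1
    exact h1
  · intro s hs
    have h1 := hTg s hs
    rw [hgood, mem_filter] at h1
    have h2 := h1.2.1
    rw [hf1] at h2
    simp only [hcnt] at h2
    rw [← hL]
    refine le_trans (le_of_eq ?_) h2
    congr 2
    ext z
    simp
  · intro s hs
    have h1 := hTg s hs
    rw [hgood, mem_filter] at h1
    have h2 := h1.2.2
    rw [hf2] at h2
    simp only [hcnt] at h2
    rw [← hL]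
    refine le_trans ?_ h2
    have h3 : ((univ.filter (fun z => u * (n + 1) ≤ cnt W y₀ z)).filter fun v => v + s ∉ lev W P (θ - 2 * w)).card ≤
        ((univ.filter fun z => z ∉ lev W P (θ - 2 * w)).filter fun z => u * (n + 1) ≤ cnt W y₀ (z - s)).card := by
      apply card_le_card_of_injOn (fun v => v + s)
      · intro v hv
        simp only [coe_filter, mem_filter, mem_univ, true_and, Set.mem_ofPred_eq] at hv
        simp only [coe_filter, mem_filter, mem_univ, true_and, Set.mem_ofPred_eq, add_sub_cancel_right]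
        exact ⟨hv.2, hv.1⟩
      · intro v _ v' _ hvv
        exact add_right_cancel hvv
    exact_mod_cast h3

end Pool.Agent.H89.LV
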