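import Pool.Agent.H89.LV.GenZN

/-!
# Three sets
-/

set_option autoImplicit false
set_option linter.unusedSectionVars false
set_option linter.unusedVariables false

namespace Pool.Agent.H89.LV

open Finset Pool.Agent.K4H60.BZ Pool.Agent.H89.EN
open scoped Pointwise BigOperators ComplexConjugate

theorem log_four_bounds : 1 ≤ Real.log 4 ∧ Real.log 4 ≤ 1.4 ∧ Real.exp (Real.log 4) = 4 := by
  have hl4 : Real.log 4 = 2 * Real.log 2 := by
    rw [show (4 : ℝ) = 2 ^ 2 by norm_num, Real.log_pow]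
    norm_num
  exact ⟨by linarith [Real.log_two_gt_d9], by linarith [Real.log_two_lt_d9], Real.exp_log (by norm_num)⟩

/-- numbers -/
theorem three_num (p q s : ℝ) (hp : 0 ≤ p) (hq : 0 ≤ q) (hs : 0 ≤ s) :
    (p + q + Real.log 4) * (p + Real.log 4) * (1 + Real.log (p + Real.log 4)) ^ 3 *
      Real.log (2 + (p + q + s) + (p + Real.log 4)) ≤
      62 * ((1 + p) * (1 + p + q) * (Real.log (2 + p) ^ 3 * Real.log (2 + p + q + s))) := by
  obtain ⟨hl4a, hl4b, -⟩ := log_four_bounds
  have hlog2 : 0.69 ≤ Real.log (2 + p) := by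
    have := Real.log_le_log (by norm_num) (show (2 : ℝ) ≤ 2 + p by linarith)
    linarith [Real.log_two_gt_d9]
  have f1 : p + Real.log 4 ≤ 1.4 * (1 + p) := by linarith
  have f2 : p + q + Real.log 4 ≤ 1.4 * (1 + p + q) := by linarith
  have f3 : 1 + Real.log (p + Real.log 4) ≤ 2.5 * Real.log (2 + p) := by
    have := Real.log_le_log (show 0 < p + Real.log 4 by linarith) (show p + Real.log 4 ≤ 2 + p by linarith)
    linarith
  have f3' : 0 ≤ 1 + Real.log (p + Real.log 4) := by
    have := Real.log_nonneg (show 1 ≤ p + Real.log 4 by linarith)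
    linarith
  have f4 : Real.log (2 + (p + q + s) + (p + Real.log 4)) ≤ 2 * Real.log (2 + p + q + s) := by
    have g1 : 2 + (p + q + s) + (p + Real.log 4) ≤ (2 + p + q + s) ^ 2 := by nlinarith
    have g2 := Real.log_le_log (by linarith) g1
    rw [Real.log_pow] at g2
    exact_mod_cast g2
  have f4' : 0 ≤ Real.log (2 + (p + q + s) + (p + Real.log 4)) := Real.log_nonneg (by linarith)
  have f5 : 0 ≤ Real.log (2 + p + q + s) := Real.log_nonneg (by linarith)
  have f6 : 0 ≤ Real.log (2 + p) := by linarith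
  calc (p + q + Real.log 4) * (p + Real.log 4) * (1 + Real.log (p + Real.log 4)) ^ 3 *
        Real.log (2 + (p + q + s) + (p + Real.log 4)) ≤
      (1.4 * (1 + p + q)) * (1.4 * (1 + p)) * (2.5 * Real.log (2 + p)) ^ 3 * (2 * Real.log (2 + p + q + s)) := by
        apply mul_le_mul _ f4 f4' (by positivity)
        apply mul_le_mul _ (pow_le_pow_left₀ f3' f3 3) (by positivity) (by positivity)
        exact mul_le_mul f2 f1 (by linarith) (by linarith)
    _ = 61.25 * ((1 + p) * (1 + p + q) * (Real.log (2 + p) ^ 3 * Real.log (2 + p + q + s))) := by ring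
    _ ≤ 62 * ((1 + p) * (1 + p + q) * (Real.log (2 + p) ^ 3 * Real.log (2 + p + q + s))) := by
        apply mul_le_mul_of_nonneg_right (by norm_num)
        positivity

section group

variable {G : Type*} [AddCommGroup G] [Fintype G] [DecidableEq G]

/-- the sizes -/
theorem three_sizes (X Y S : Finset G) (hX : X.Nonempty) (hY : Y.Nonempty)
    (hS : S.Nonempty) (p q s : ℝ) (hp : 0 ≤ p) (hq : 0 ≤ q) (hs : s = Real.log ((Fintype.card G : ℝ) / S.card))
    (h1 : ((X + Y).card : ℝ) ≤ Real.exp p * Y.card) (h3 : ((X + S).card : ℝ) ≤ Real.exp q * X.card) :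
    (Fintype.card G : ℝ) ≤ Real.exp (p + q + s) * X.card ∧ (Fintype.card G : ℝ) ≤ Real.exp (p + q + s) * Y.card := by
  have hXpos : (0 : ℝ) < X.card := by exact_mod_cast hX.card_pos
  have hYpos : (0 : ℝ) < Y.card := by exact_mod_cast hY.card_pos
  have hSpos : (0 : ℝ) < S.card := by exact_mod_cast hS.card_pos
  have hGpos : (0 : ℝ) < Fintype.card G := by
    have : Nonempty G := ⟨0⟩
    exact_mod_cast Fintype.card_pos
  have e1 : (Fintype.card G : ℝ) = Real.exp s * S.card := by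
    rw [hs, Real.exp_log (by positivity), div_mul_cancel₀ _ hSpos.ne']
  have e2 : (S.card : ℝ) ≤ (X + S).card := by exact_mod_cast card_le_card_add_left hX
  have e3 : (X.card : ℝ) ≤ (X + Y).card := by exact_mod_cast card_le_card_add_right hY
  have e4 : (Fintype.card G : ℝ) ≤ Real.exp (q + s) * X.card := by
    rw [e1]
    calc Real.exp s * (S.card : ℝ) ≤ Real.exp s * (Real.exp q * X.card) :=
          mul_le_mul_of_nonneg_left (e2.trans h3) (Real.exp_pos _).le
      _ = _ := by rw [Real.exp_add]; ring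
  constructor
  · refine e4.trans (mul_le_mul_of_nonneg_right (Real.exp_le_exp.2 (by linarith)) hXpos.le)
  · refine e4.trans ?_
    calc Real.exp (q + s) * (X.card : ℝ) ≤ Real.exp (q + s) * (Real.exp p * Y.card) :=
          mul_le_mul_of_nonneg_left (e3.trans h1) (Real.exp_pos _).le
      _ = _ := by rw [← mul_assoc, ← Real.exp_add]; congr 2; ring

end group

/-- **Three sets.** -/
theorem three {N : ℕ} [NeZero N] (X Y S : Finset (ZMod N)) (hX : X.Nonempty) (hY : Y.Nonempty)
    (hS : S.Nonempty) (η : ℝ) (hη : 0 < η) (hη1 : η < 1 / 4) (p q s : ℝ) (hp : 0 ≤ p) (hq : 0 ≤ q)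
    (hs : s = Real.log ((N : ℝ) / S.card))
    (h1 : ((X + Y).card : ℝ) ≤ Real.exp p * Y.card) (h2 : ((X + Y).card : ℝ) ≤ Real.exp q * X.card)
    (h3 : ((X + S).card : ℝ) ≤ Real.exp q * X.card) :
    ∃ Γ : Finset (ZMod N),
      (Γ.card : ℝ) ≤ 10 ^ 18 / η ^ 8 * (s + (1 + p) * (1 + p + q) * (Real.log (2 + p) ^ 3 *
        Real.log (2 + p + q + s))) ∧
      (∀ x : ZMod N, (∀ γ ∈ Γ, nint (((γ * x).val : ℝ) / N) ≤ η / (10 ^ 5 * (1 + s + p + q))) →
        ∃ w₁ ∈ X + Y, ∃ w₂ ∈ X + Y, x = w₁ - w₂) ∧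
      ∀ B : Finset (ZMod N), B.Nonempty →
        (∀ x ∈ B, ∀ γ ∈ Γ, nint (((γ * x).val : ℝ) / N) ≤ η / (10 ^ 5 * (1 + s + p + q))) →
        ∃ t : ZMod N, (1 - 5 * η) * (B.card : ℝ) ≤ ((B.filter fun x => t + x ∈ X + Y).card : ℝ) := by
  classical
  obtain ⟨hl4a, hl4b, hexp4⟩ := log_four_bounds
  have hXpos : (0 : ℝ) < X.card := by exact_mod_cast hX.card_pos
  have hYpos : (0 : ℝ) < Y.card := by exact_mod_cast hY.card_pos
  have hSpos : (0 : ℝ) < S.card := by exact_mod_cast hS.card_pos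
  have huniv : ∀ Z : Finset (ZMod N), (Z.card : ℝ) ≤ N := by
    intro Z
    have := Finset.card_le_univ Z
    rw [ZMod.card] at this
    exact_mod_cast this
  have hs0 : 0 ≤ s := by
    rw [hs]
    apply Real.log_nonneg
    rw [le_div_iff₀ hSpos, one_mul]
    exact huniv S
  obtain ⟨hNX, hNY⟩ := three_sizes X Y S hX hY hS p q s hp hq (by rw [ZMod.card]; exact hs) h1 h3
  rw [ZMod.card] at hNX hNY
  have hexpq : Real.exp q ≤ Real.exp (p + q) := Real.exp_le_exp.2 (by linarith)
  have hqX : 0 ≤ (X.card : ℝ) := hXpos.le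
  have e4 : Real.exp (p + q + Real.log 4) = 4 * Real.exp (p + q) := by
    rw [Real.exp_add (p + q), hexp4]
    ring
  obtain ⟨Γ, g1, g2, g3⟩ := gen_ZN X Y univ S hX hY (by ext x; simp) (subset_univ _) hS η hη hη1
    (p + Real.log 4) (p + q + Real.log 4) (p + q + s) (by linarith) (by linarith) (by linarith)
    (by
      rw [← hs]
      have : 1 ≤ 1 + s + (p + q + Real.log 4) := by linarith
      nlinarith)
    (by
      rw [Real.exp_add, hexp4]
      linarith)
    (by
      rw [e4]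
      have := h2.trans (mul_le_mul_of_nonneg_right hexpq hqX)
      linarith)
    (by
      rw [e4]
      have := h3.trans (mul_le_mul_of_nonneg_right hexpq hqX)
      have : 0 ≤ Real.exp (p + q) * (X.card : ℝ) := mul_nonneg (Real.exp_pos _).le hqX
      linarith)
    (fun m _ => (huniv _).trans hNY) (fun m _ => (huniv _).trans hNX)
  rw [← hs] at g1 g2 g3
  have hrad : η / (10 ^ 5 * (1 + s + p + q)) ≤ η / (10 ^ 4 * (1 + s + (p + q + Real.log 4))) := by
    apply div_le_div_of_nonneg_left hη.le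
    · have : 0 < 1 + s + (p + q + Real.log 4) := by linarith
      linarith
    · linarith
  refine ⟨Γ, g1.trans ?_, fun x hx => g2 x fun γ hγ => (hx γ hγ).trans hrad,
    fun B hB hBx => g3 B hB fun x hx γ hγ => (hBx x hx γ hγ).trans hrad⟩
  have h5 := three_num p q s hp hq hs0
  obtain ⟨Z, hZ⟩ : ∃ Z : ℝ, Z = (1 + p) * (1 + p + q) * (Real.log (2 + p) ^ 3 * Real.log (2 + p + q + s)) := ⟨_, rfl⟩
  have hZ0 : 0 ≤ Z := by
    rw [hZ]
    have : 0 ≤ Real.log (2 + p) := Real.log_nonneg (by linarith)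
    have : 0 ≤ Real.log (2 + p + q + s) := Real.log_nonneg (by linarith)
    positivity
  rw [← hZ] at h5 ⊢
  have h6 : 0 ≤ 1 / η ^ 8 := by positivity
  have h7 : 10 ^ 18 / η ^ 8 * (s + Z) = 1 / η ^ 8 * (10 ^ 18 * s + 10 ^ 18 * Z) := by ring
  calc _ ≤ 10 ^ 16 / η ^ 8 * (s + 62 * Z) := by gcongr
    _ = 1 / η ^ 8 * (10 ^ 16 * s + 62 * 10 ^ 16 * Z) := by ring
    _ ≤ 1 / η ^ 8 * (10 ^ 18 * s + 10 ^ 18 * Z) := by
        apply mul_le_mul_of_nonneg_left _ h6
        linarith
    _ = _ := h7.symm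

end Pool.Agent.H89.LV
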