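import Pool.Agent.H89.LV.Three
import Pool.Agent.H89.EN.Fin

/-!
# Three sets in a finite abelian group
-/

set_option autoImplicit false
set_option linter.unusedSectionVars false
set_option linter.unusedVariables false

namespace Pool.Agent.H89.LV

open Finset Pool.Agent.K4H60.BZ Pool.Agent.H89.EN
open scoped Pointwise BigOperators ComplexConjugate

variable {G : Type*} [AddCommGroup G] [Fintype G] [DecidableEq G]

/-- **Three sets**, with the annihilator of `Λ`. -/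
theorem three_group (X Y S : Finset G) (hX : X.Nonempty) (hY : Y.Nonempty)
    (hS : S.Nonempty) (η : ℝ) (hη : 0 < η) (hη1 : η < 1 / 4) (p q s : ℝ) (hp : 0 ≤ p) (hq : 0 ≤ q)
    (hs : s = Real.log ((Fintype.card G : ℝ) / S.card))
    (h1 : ((X + Y).card : ℝ) ≤ Real.exp p * Y.card) (h2 : ((X + Y).card : ℝ) ≤ Real.exp q * X.card)
    (h3 : ((X + S).card : ℝ) ≤ Real.exp q * X.card) :
    ∃ Λ : Finset (AddChar G ℂ),
      (Λ.card : ℝ) ≤ 10 ^ 17 / η ^ 8 * (s + (1 + p) * (1 + p + q) * (Real.log (2 + p) ^ 3 *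
        Real.log (2 + p + q + s))) ∧
      (∀ x : G, (∀ ψ ∈ Λ, ψ x = 1) → ∃ w₁ ∈ X + Y, ∃ w₂ ∈ X + Y, x = w₁ - w₂) ∧
      ∀ B : Finset G, B.Nonempty → (∀ x ∈ B, ∀ ψ ∈ Λ, ψ x = 1) →
        ∃ t : G, (1 - 5 * η) * (B.card : ℝ) ≤ ((B.filter fun x => t + x ∈ X + Y).card : ℝ) := by
  classical
  obtain ⟨hl4a, hl4b, hexp4⟩ := log_four_bounds
  have hXpos : (0 : ℝ) < X.card := by exact_mod_cast hX.card_pos
  have hYpos : (0 : ℝ) < Y.card := by exact_mod_cast hY.card_pos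
  have hSpos : (0 : ℝ) < S.card := by exact_mod_cast hS.card_pos
  have huniv : ∀ Z : Finset G, (Z.card : ℝ) ≤ Fintype.card G := by
    intro Z
    exact_mod_cast Finset.card_le_univ Z
  have hs0 : 0 ≤ s := by
    rw [hs]
    apply Real.log_nonneg
    rw [le_div_iff₀ hSpos, one_mul]
    exact huniv S
  obtain ⟨hNX, hNY⟩ := three_sizes X Y S hX hY hS p q s hp hq hs h1 h3
  have hexpq : Real.exp q ≤ Real.exp (p + q) := Real.exp_le_exp.2 (by linarith)
  have hqX : 0 ≤ (X.card : ℝ) := hXpos.le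
  have e4 : Real.exp (p + q + Real.log 4) = 4 * Real.exp (p + q) := by
    rw [Real.exp_add (p + q), hexp4]
    ring
  obtain ⟨Λ, g1, g2, g3⟩ := gen_group X Y univ S hX hY (by ext x; simp) (subset_univ _) hS η hη hη1
    (p + Real.log 4) (p + q + Real.log 4) (p + q + s) (by linarith) (by linarith) (by linarith)
    (by
      rw [Real.exp_add, hexp4]
      linarith)
    (by
      rw [e4]
      have := h2.trans (mul_le_mul_of_nonneg_right hexpq hqX)
      linarith)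
    (by
      rw [e4]
      have := h3.trans (mul_le_mul_of_nonneg_right hexpq hqX)
      have : 0 ≤ Real.exp (p + q) * (X.card : ℝ) := mul_nonneg (Real.exp_pos _).le hqX
      linarith)
    (fun m _ => (huniv _).trans hNY) (fun m _ => (huniv _).trans hNX)
  rw [← hs] at g1
  have hz : ∀ x : G, (∀ ψ ∈ Λ, ψ x = 1) → ∀ ψ ∈ Λ, ‖ψ x - 1‖ ≤ η / ((Λ.card : ℝ) + 1) := by
    intro x hx ψ hψ
    rw [hx ψ hψ, sub_self, norm_zero]
    positivity
  refine ⟨Λ, g1.trans ?_, fun x hx => g2 x (hz x hx), fun B hB hBx => g3 B hB fun x hx => hz x (hBx x hx)⟩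
  have h5 := three_num p q s hp hq hs0
  obtain ⟨Z, hZ⟩ : ∃ Z : ℝ, Z = (1 + p) * (1 + p + q) * (Real.log (2 + p) ^ 3 * Real.log (2 + p + q + s)) := ⟨_, rfl⟩
  have hZ0 : 0 ≤ Z := by
    rw [hZ]
    have : 0 ≤ Real.log (2 + p) := Real.log_nonneg (by linarith)
    have : 0 ≤ Real.log (2 + p + q + s) := Real.log_nonneg (by linarith)
    positivity
  rw [← hZ] at h5 ⊢
  have hη8 : 0 < η ^ 8 := by positivity
  have h6 : 1 ≤ 1 / η ^ 8 := by
    rw [le_div_iff₀ hη8, one_mul]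
    exact pow_le_one₀ hη.le (by linarith)
  have h7 : s ≤ 1 / η ^ 8 * s := by nlinarith
  calc _ ≤ 8 * (1 / η ^ 8 * s + 10 ^ 14 / η ^ 8 * (62 * Z)) := by gcongr
    _ = 1 / η ^ 8 * (8 * s + 496 * 10 ^ 14 * Z) := by ring
    _ ≤ 1 / η ^ 8 * (10 ^ 17 * s + 10 ^ 17 * Z) := by
        apply mul_le_mul_of_nonneg_left _ (by linarith)
        linarith
    _ = _ := by ring

end Pool.Agent.H89.LV
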